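import Mathlib

/-!
# Tubes in Euclidean space
-/

set_option autoImplicit false

open scoped RealInnerProductSpace

namespace Pool.Agent.H32.AKT

/-- The tube of length `1`, radius `δ`, centre `c` and direction `e`. -/
def tube {n : ℕ} (δ : ℝ) (c e : EuclideanSpace ℝ (Fin n)) : Set (EuclideanSpace ℝ (Fin n)) :=
  {x | |⟪x - c, e⟫| ≤ 1 / 2 ∧ ‖(x - c) - ⟪x - c, e⟫ • e‖ ≤ δ}

end Pool.Agent.H32.AKT
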