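import Mathlib
import Pool.Agent.H32.AKTubeDef

/-!
# From the arithmetic Kakeya inequality to tubes with separated directions

`robust_tubes`: if the arithmetic Kakeya inequality holds with exponent `α`, then every measurable
set which contains all but a small proportion of each of `N` tubes of length `1` and radius `δ` with
`δ`-separated orientations has measure at least `c δ^(n-1) N^(1/α)`, in every dimension `n`.
-/

set_option autoImplicit false

open MeasureTheory Set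

open scoped RealInnerProductSpace

namespace Pool.Agent.H32.AKT

/-! ### From `ℤ` to `ℤ^n` -/

/-- The pairs of coefficients of the forms in question. -/
noncomputable def forms (S : Finset ℚ) : Finset (ℚ × ℚ) := insert (0, 1) (S.image fun r => (1, r))

/-- The polynomial with prescribed coefficients. -/
noncomputable def poly {n : ℕ} (d : Fin n → ℤ) : Polynomial ℤ :=
  ∑ k : Fin n, Polynomial.C (d k) * Polynomial.X ^ (k : ℕ)

lemma poly_injective {n : ℕ} : Function.Injective (poly (n := n)) := by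
  intro d d' h
  funext k
  have h1 := congrArg (fun P => Polynomial.coeff P (k : ℕ)) h
  simp only [poly, Polynomial.finsetSum_coeff, Polynomial.coeff_C_mul, Polynomial.coeff_X_pow] at h1
  have h2 : ∀ f : Fin n → ℤ, ∑ b : Fin n, f b * (if (k : ℕ) = (b : ℕ) then 1 else 0) = f k := by
    intro f
    rw [Finset.sum_eq_single k]
    · simp
    · intro b _ hb
      have : ¬ ((k : ℕ) = (b : ℕ)) := fun h => hb (Fin.ext h.symm)
      simp [this]
    · simp
  rw [h2, h2] at h1
  exact h1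

/-- A linear map to `ℤ` which is injective on a given finite set. -/
lemma exists_injOn {n : ℕ} (D : Finset (Fin n → ℤ)) :
    ∃ M : ℤ, ∀ d ∈ D, ∀ d' ∈ D, ∑ k, d k * M ^ (k : ℕ) = ∑ k, d' k * M ^ (k : ℕ) → d = d' := by
  classical
  set Q : Polynomial ℤ := ∏ x ∈ D.offDiag, (poly x.1 - poly x.2) with hQ
  have hQ0 : Q ≠ 0 := by
    rw [hQ, Finset.prod_ne_zero_iff]
    intro x hx
    rw [Finset.mem_offDiag] at hx
    exact sub_ne_zero.mpr fun h => hx.2.2 (poly_injective h)
  obtain ⟨M, hM⟩ : ∃ M : ℤ, Polynomial.eval M Q ≠ 0 := by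
    by_contra hcon
    push Not at hcon
    exact hQ0 (Polynomial.funext fun r => by rw [hcon r, Polynomial.eval_zero])
  refine ⟨M, fun d hd d' hd' h => ?_⟩
  by_contra hne
  apply hM
  rw [hQ, Polynomial.eval_prod]
  refine Finset.prod_eq_zero (i := (d, d')) (Finset.mem_offDiag.mpr ⟨hd, hd', hne⟩) ?_
  simp only [poly, Polynomial.eval_sub, Polynomial.eval_finsetSum, Polynomial.eval_mul,
    Polynomial.eval_C, Polynomial.eval_pow, Polynomial.eval_X]
  rw [h, sub_self]

/-- The arithmetic inequality in `ℤ^n`. -/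
lemma ak_pi {α C : ℝ} (hα : 0 ≤ α) (hC : 0 ≤ C) {S : Finset ℚ}
    (h : ∀ A : Finset (ℤ × ℤ),
      ((A.image (fun p : ℤ × ℤ => (p.1 : ℚ) + (-1) * (p.2 : ℚ))).card : ℝ) ≤
      C * (max ((A.image (fun p : ℤ × ℤ => (p.2 : ℚ))).card : ℝ)
          ((S.sup (fun r : ℚ => (A.image (fun p : ℤ × ℤ => (p.1 : ℚ) + r * (p.2 : ℚ))).card) : ℕ)
            : ℝ)) ^ α)
    {n : ℕ} (A : Finset ((Fin n → ℤ) × (Fin n → ℤ))) :
    ∃ ab ∈ forms S, ((A.image (fun p => p.1 - p.2)).card : ℝ) ≤
      C * ((A.image (fun p => fun k => ab.1 * (p.1 k : ℚ) + ab.2 * (p.2 k : ℚ))).card : ℝ) ^ α := by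
  classical
  obtain ⟨M, hM⟩ := exists_injOn (A.image (fun p => p.1 - p.2))
  set φ : (Fin n → ℤ) → ℤ := fun v => ∑ k, v k * M ^ (k : ℕ) with hφ
  set φq : (Fin n → ℚ) → ℚ := fun v => ∑ k, v k * (M : ℚ) ^ (k : ℕ) with hφq
  have hcast : ∀ v : Fin n → ℤ, ((φ v : ℤ) : ℚ) = φq fun k => (v k : ℚ) := by
    intro v
    simp [hφ, hφq]
  have hlin : ∀ (a b : ℚ) (v w : Fin n → ℤ),
      a * ((φ v : ℤ) : ℚ) + b * ((φ w : ℤ) : ℚ) = φq fun k => a * (v k : ℚ) + b * (w k : ℚ) := by
    intro a b v w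
    rw [hcast, hcast]
    simp only [hφq, Finset.mul_sum, ← Finset.sum_add_distrib]
    refine Finset.sum_congr rfl fun k _ => ?_
    ring
  set A' : Finset (ℤ × ℤ) := A.image (fun p => (φ p.1, φ p.2)) with hA'
  have h1 : (A.image (fun p => p.1 - p.2)).card ≤
      (A'.image (fun p : ℤ × ℤ => (p.1 : ℚ) + (-1) * (p.2 : ℚ))).card := by
    refine Finset.card_le_card_of_injOn (fun d => ((φ d : ℤ) : ℚ)) ?_ ?_
    · intro d hd
      rw [Finset.mem_coe, Finset.mem_image] at hd
      obtain ⟨p, hp, rfl⟩ := hd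
      rw [Finset.mem_coe, Finset.mem_image]
      refine ⟨(φ p.1, φ p.2), Finset.mem_image_of_mem _ hp, ?_⟩
      have := hlin 1 (-1) p.1 p.2
      rw [one_mul] at this
      simp only
      rw [this, hcast]
      congr 1
      funext k
      simp
      ring
    · intro d hd d' hd' hdd
      have h0 : ((φ d : ℤ) : ℚ) = ((φ d' : ℤ) : ℚ) := hdd
      have : φ d = φ d' := by exact_mod_cast h0
      exact hM d hd d' hd' this
  have h2 : ∀ a b : ℚ, (A'.image (fun p : ℤ × ℤ => a * (p.1 : ℚ) + b * (p.2 : ℚ))).card ≤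
      (A.image (fun p => fun k => a * (p.1 k : ℚ) + b * (p.2 k : ℚ))).card := by
    intro a b
    rw [hA', Finset.image_image]
    have : ((fun p : ℤ × ℤ => a * (p.1 : ℚ) + b * (p.2 : ℚ)) ∘
        fun p : (Fin n → ℤ) × (Fin n → ℤ) => (φ p.1, φ p.2)) =
        φq ∘ fun p : (Fin n → ℤ) × (Fin n → ℤ) => fun k => a * (p.1 k : ℚ) + b * (p.2 k : ℚ) := by
      funext p
      exact hlin a b p.1 p.2
    rw [this, ← Finset.image_image]
    exact Finset.card_image_le
  have h3 := h A'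
  have h4 : ((A.image (fun p => p.1 - p.2)).card : ℝ) ≤ _ := le_trans (by exact_mod_cast h1) h3
  rcases le_total ((S.sup (fun r : ℚ =>
      (A'.image (fun p : ℤ × ℤ => (p.1 : ℚ) + r * (p.2 : ℚ))).card) : ℕ) : ℝ)
      ((A'.image (fun p : ℤ × ℤ => (p.2 : ℚ))).card : ℝ) with h5 | h5
  · refine ⟨(0, 1), Finset.mem_insert_self _ _, h4.trans ?_⟩
    rw [max_eq_left h5]
    refine mul_le_mul_of_nonneg_left (Real.rpow_le_rpow (by positivity) ?_ hα) hC
    have := h2 0 1
    simp only [zero_mul, zero_add, one_mul] at this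
    simp only [zero_mul, zero_add, one_mul]
    exact_mod_cast this
  · rw [max_eq_right h5] at h4
    rcases S.eq_empty_or_nonempty with hS | hS
    · have h6 : ((A'.image (fun p : ℤ × ℤ => (p.2 : ℚ))).card : ℝ) = 0 := by
        rw [hS, Finset.sup_empty] at h5
        have : ((⊥ : ℕ) : ℝ) = 0 := by simp
        rw [this] at h5
        exact le_antisymm h5 (by positivity)
      refine ⟨(0, 1), Finset.mem_insert_self _ _, h4.trans ?_⟩
      refine mul_le_mul_of_nonneg_left (Real.rpow_le_rpow (by positivity) ?_ hα) hC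
      rw [hS, Finset.sup_empty]
      have : ((⊥ : ℕ) : ℝ) = 0 := by simp
      rw [this]
      positivity
    · obtain ⟨r, hr, hr2⟩ := Finset.exists_mem_eq_sup S hS (fun r : ℚ =>
        (A'.image (fun p : ℤ × ℤ => (p.1 : ℚ) + r * (p.2 : ℚ))).card)
      refine ⟨(1, r), Finset.mem_insert_of_mem (Finset.mem_image_of_mem _ hr), h4.trans ?_⟩
      refine mul_le_mul_of_nonneg_left (Real.rpow_le_rpow (by positivity) ?_ hα) hC
      rw [hr2]
      have := h2 1 r
      simp only [one_mul] at this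
      simp only [one_mul]
      exact_mod_cast this


/-! ### Geometry of tubes -/

section geometry

variable {n : ℕ} {j : Fin n}

/-- The point of the axis at height `h` (height is the coordinate `j`). -/
noncomputable def pos (j : Fin n) (c e : EuclideanSpace ℝ (Fin n)) (h : ℝ) :
    EuclideanSpace ℝ (Fin n) := c + ((h - c j) / e j) • e

lemma pos_height {c e : EuclideanSpace ℝ (Fin n)} {h : ℝ} (he : e j ≠ 0) :
    (pos j c e h) j = h := by
  simp only [pos, PiLp.add_apply, PiLp.smul_apply, smul_eq_mul]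
  field_simp
  ring

lemma pos_comb {c e : EuclideanSpace ℝ (Fin n)} {s w t : ℝ} :
    pos j c e (s + t * w) = (1 - t) • pos j c e s + t • pos j c e (s + w) := by
  ext k
  simp only [pos, PiLp.add_apply, PiLp.smul_apply, smul_eq_mul]
  ring

lemma pos_sub {c e : EuclideanSpace ℝ (Fin n)} {s w : ℝ} :
    pos j c e (s + w) - pos j c e s = w • ((e j)⁻¹ • e) := by
  ext k
  simp only [pos, PiLp.add_apply, PiLp.smul_apply, smul_eq_mul, PiLp.sub_apply]
  ring

lemma ball_subset {c e : EuclideanSpace ℝ (Fin n)} {δ θ h : ℝ} (he : ‖e‖ = 1) (hδ : 0 < δ)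
    (hδ1 : δ < 1) (hθ : 0 < θ) (hej : θ ≤ e j) (hh : |h - c j| ≤ θ / 4) :
    Metric.ball (pos j c e h) (δ / 4) ⊆ tube δ c e := by
  intro x hx
  rw [Metric.mem_ball, dist_eq_norm] at hx
  obtain ⟨y, hy⟩ : ∃ y, y = x - pos j c e h := ⟨_, rfl⟩
  obtain ⟨t, ht⟩ : ∃ t, t = (h - c j) / e j := ⟨_, rfl⟩
  rw [← hy] at hx
  have hej0 : 0 < e j := hθ.trans_le hej
  have ht1 : |t| ≤ 1 / 4 := by
    rw [ht, abs_div, abs_of_pos hej0, div_le_iff₀ hej0]
    linarith only [hej, hh]
  have hxc : x - c = t • e + y := by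
    rw [hy, ht, pos]
    abel
  have hee : ⟪e, e⟫ = 1 := by rw [real_inner_self_eq_norm_sq, he, one_pow]
  have hye : |⟪y, e⟫| ≤ δ / 4 := by
    have := abs_real_inner_le_norm y e
    rw [he, mul_one] at this
    linarith only [hx, this]
  have h1 : ⟪x - c, e⟫ = t + ⟪y, e⟫ := by
    rw [hxc, inner_add_left, inner_smul_left, hee]
    simp
  refine ⟨?_, ?_⟩
  · rw [h1]
    have := abs_add_le t ⟪y, e⟫
    linarith only [hδ1, ht1, hye, this]
  · rw [h1, hxc]
    have h2 : t • e + y - (t + ⟪y, e⟫) • e = y - ⟪y, e⟫ • e := by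
      rw [add_smul]; abel
    rw [h2]
    have h3 : ‖⟪y, e⟫ • e‖ ≤ δ / 4 := by rw [norm_smul, he, mul_one]; exact hye
    have := norm_sub_le y (⟪y, e⟫ • e)
    linarith only [hδ, hx, h3, this]

lemma slope_sep {e e' : EuclideanSpace ℝ (Fin n)} (he : ‖e‖ = 1) (he' : ‖e'‖ = 1)
    (hej : 0 < e j) (hej' : 0 < e' j) :
    ‖e - e'‖ ≤ 2 * ‖(e j)⁻¹ • e - (e' j)⁻¹ • e'‖ := by
  have habs : ∀ f : EuclideanSpace ℝ (Fin n), ‖f‖ = 1 → f j ≤ 1 := by
    intro f hf
    have h1 : |f j| ≤ ‖f‖ := by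
      have := EuclideanSpace.norm_eq f
      rw [this, ← Real.sqrt_sq_eq_abs]
      apply Real.sqrt_le_sqrt
      have h2 := Finset.single_le_sum (f := fun i => ‖f i‖ ^ 2) (fun i _ => sq_nonneg _)
        (Finset.mem_univ j)
      simp only [Real.norm_eq_abs, sq_abs] at h2 ⊢
      exact h2
    rw [hf] at h1
    exact (le_abs_self _).trans h1
  set u := (e j)⁻¹ • e with hu
  set u' := (e' j)⁻¹ • e' with hu'
  have hnu : ‖u‖ = (e j)⁻¹ := by
    rw [hu, norm_smul, he, mul_one, Real.norm_of_nonneg (inv_nonneg.mpr hej.le)]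
  have hnu' : ‖u'‖ = (e' j)⁻¹ := by
    rw [hu', norm_smul, he', mul_one, Real.norm_of_nonneg (inv_nonneg.mpr hej'.le)]
  have h1 : e - e' = e j • (u - u') + (e j - e' j) • u' := by
    rw [hu, hu', smul_sub, sub_smul, smul_smul, smul_smul, smul_smul, mul_inv_cancel₀ hej.ne',
      mul_inv_cancel₀ hej'.ne', one_smul, one_smul]
    abel
  have h2 : |e j - e' j| ≤ ‖u - u'‖ * (e j * e' j) := by
    have h3 : |‖u'‖ - ‖u‖| ≤ ‖u' - u‖ := abs_norm_sub_norm_le _ _
    rw [hnu, hnu', norm_sub_rev] at h3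
    have h4 : e j - e' j = ((e' j)⁻¹ - (e j)⁻¹) * (e j * e' j) := by
      field_simp
    rw [h4, abs_mul, abs_of_pos (mul_pos hej hej')]
    exact mul_le_mul_of_nonneg_right h3 (mul_pos hej hej').le
  calc ‖e - e'‖ ≤ ‖e j • (u - u')‖ + ‖(e j - e' j) • u'‖ := by rw [h1]; exact norm_add_le _ _
    _ = e j * ‖u - u'‖ + |e j - e' j| * (e' j)⁻¹ := by
        rw [norm_smul, norm_smul, hnu', Real.norm_of_nonneg hej.le, Real.norm_eq_abs]
    _ ≤ e j * ‖u - u'‖ + ‖u - u'‖ * (e j * e' j) * (e' j)⁻¹ := by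
        gcongr
    _ = 2 * (e j * ‖u - u'‖) := by
        field_simp
        ring
    _ ≤ 2 * ‖u - u'‖ := by
        have := mul_le_mul_of_nonneg_right (habs e he) (norm_nonneg (u - u'))
        linarith only [this]

lemma norm_le_of_coord {z : EuclideanSpace ℝ (Fin n)} {b : ℝ} (hb : 0 ≤ b)
    (h : ∀ k, |z k| ≤ b) : ‖z‖ ≤ n * b := by
  rw [EuclideanSpace.norm_eq]
  rw [Real.sqrt_le_left (by positivity)]
  calc ∑ i, ‖z i‖ ^ 2 ≤ ∑ _i : Fin n, b ^ 2 := by
        refine Finset.sum_le_sum fun i _ => ?_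
        rw [Real.norm_eq_abs]
        exact pow_le_pow_left₀ (abs_nonneg _) (h i) 2
    _ = n * b ^ 2 := by simp
    _ ≤ (n * b) ^ 2 := by
        rw [mul_pow]
        refine mul_le_mul_of_nonneg_right ?_ (sq_nonneg b)
        have : (n : ℝ) ≤ (n : ℝ) * n := by
          exact_mod_cast Nat.le_mul_self n
        nlinarith only [this]

lemma coord_le_norm (z : EuclideanSpace ℝ (Fin n)) (k : Fin n) : |z k| ≤ ‖z‖ := by
  rw [EuclideanSpace.norm_eq, ← Real.sqrt_sq_eq_abs]
  apply Real.sqrt_le_sqrt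
  have h2 := Finset.single_le_sum (f := fun i => ‖z i‖ ^ 2) (fun i _ => sq_nonneg _)
    (Finset.mem_univ k)
  simp only [Real.norm_eq_abs, sq_abs] at h2 ⊢
  exact h2

end geometry

section core

variable {n : ℕ} {j : Fin n} {ι : Type*}

/-- Rounded position. -/
noncomputable def rd (j : Fin n) (η : ℝ) (c e : EuclideanSpace ℝ (Fin n)) (h : ℝ) : Fin n → ℤ :=
  fun k => round (pos j c e h k / η)

lemma rd_close (η : ℝ) (c e : EuclideanSpace ℝ (Fin n)) (h : ℝ) (k : Fin n) :
    |pos j c e h k / η - ((rd j η c e h k : ℤ) : ℝ)| ≤ 1 / 2 := abs_sub_round _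

/-- The rational point attached to a tube. -/
noncomputable def val (j : Fin n) (η : ℝ) (ab : ℚ × ℚ) (s w : ℝ)
    (c e : EuclideanSpace ℝ (Fin n)) : Fin n → ℚ :=
  fun k => ab.1 * (rd j η c e s k : ℚ) + ab.2 * (rd j η c e (s + w) k : ℚ)

lemma val_close {η : ℝ} (ab : ℚ × ℚ) (hab : ab.1 + ab.2 ≠ 0) (s w : ℝ)
    (c e : EuclideanSpace ℝ (Fin n)) (k : Fin n) :
    |((val j η ab s w c e k : ℚ) : ℝ) -
      ((ab.1 + ab.2 : ℚ) : ℝ) * (pos j c e (s + ((ab.2 / (ab.1 + ab.2) : ℚ) : ℝ) * w) k / η)| ≤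
      (|(ab.1 : ℝ)| + |(ab.2 : ℝ)|) / 2 := by
  obtain ⟨a, b⟩ := ab
  simp only at hab ⊢
  have hab' : (a : ℝ) + b ≠ 0 := by exact_mod_cast hab
  have h1 := rd_close (j := j) η c e s k
  have h2 := rd_close (j := j) η c e (s + w) k
  have h3 : ((val j η (a, b) s w c e k : ℚ) : ℝ) = (a : ℝ) * ((rd j η c e s k : ℤ) : ℝ) +
      (b : ℝ) * ((rd j η c e (s + w) k : ℤ) : ℝ) := by
    simp [val]
  have h4 : ((a + b : ℚ) : ℝ) * (pos j c e (s + ((b / (a + b) : ℚ) : ℝ) * w) k / η) =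
      (a : ℝ) * (pos j c e s k / η) + (b : ℝ) * (pos j c e (s + w) k / η) := by
    rw [pos_comb]
    simp only [PiLp.add_apply, PiLp.smul_apply, smul_eq_mul]
    push_cast
    field_simp
    ring
  rw [h3, h4]
  have h5 : (a : ℝ) * ((rd j η c e s k : ℤ) : ℝ) + (b : ℝ) * ((rd j η c e (s + w) k : ℤ) : ℝ) -
      ((a : ℝ) * (pos j c e s k / η) + (b : ℝ) * (pos j c e (s + w) k / η)) =
      -((a : ℝ) * (pos j c e s k / η - ((rd j η c e s k : ℤ) : ℝ))) -
        (b : ℝ) * (pos j c e (s + w) k / η - ((rd j η c e (s + w) k : ℤ) : ℝ)) := by ring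
  rw [h5]
  refine (abs_sub _ _).trans ?_
  rw [abs_neg, abs_mul, abs_mul]
  nlinarith only [h1, h2, mul_le_mul_of_nonneg_left h1 (abs_nonneg (a : ℝ)),
    mul_le_mul_of_nonneg_left h2 (abs_nonneg (b : ℝ))]

lemma forms_sum_ne {S : Finset ℚ} (hS : (-1 : ℚ) ∉ S) {ab : ℚ × ℚ} (hab : ab ∈ forms S) :
    ab.1 + ab.2 ≠ 0 := by
  rw [forms, Finset.mem_insert, Finset.mem_image] at hab
  rcases hab with h | ⟨r, hr, h⟩
  · rw [h]; norm_num
  · rw [← h]
    intro h0
    have : r = -1 := by linarith only [h0]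
    rw [this] at hr
    exact hS hr

/-- The core construction: at a given height there are many separated points in the tubes. -/
lemma core {α C w θ δ : ℝ} (hα : 0 ≤ α) (hC : 0 ≤ C) {S : Finset ℚ} (hS : (-1 : ℚ) ∉ S)
    (h : ∀ A : Finset (ℤ × ℤ),
      ((A.image (fun p : ℤ × ℤ => (p.1 : ℚ) + (-1) * (p.2 : ℚ))).card : ℝ) ≤
      C * (max ((A.image (fun p : ℤ × ℤ => (p.2 : ℚ))).card : ℝ)
          ((S.sup (fun r : ℚ => (A.image (fun p : ℤ × ℤ => (p.1 : ℚ) + r * (p.2 : ℚ))).card) : ℕ)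
            : ℝ)) ^ α)
    {q B : ℕ} (hq : 0 < q)
    (hqS : ∀ ab ∈ forms S, ∃ z₁ z₂ : ℤ, (q : ℚ) * ab.1 = z₁ ∧ (q : ℚ) * ab.2 = z₂)
    (hB : ∀ ab ∈ forms S, (q : ℝ) * (|((ab.1 + ab.2 : ℚ) : ℝ)| * (4 * n / w) + (|(ab.1 : ℝ)| +
      |(ab.2 : ℝ)|)) ≤ B)
    (hw : 0 < w)
    (c e : ι → EuclideanSpace ℝ (Fin n)) (F : Finset ι) (he : ∀ i ∈ F, ‖e i‖ = 1) (hθ : 0 < θ)
    (hej : ∀ i ∈ F, θ ≤ e i j) (hsep : ∀ i ∈ F, ∀ i' ∈ F, i ≠ i' → δ ≤ ‖e i - e i'‖)
    (hδ : 0 < δ) (s : ℝ) :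
    ∃ ab ∈ forms S, ∃ (T : Finset (Fin n → ℚ)) (p : (Fin n → ℚ) → EuclideanSpace ℝ (Fin n)),
      (F.card : ℝ) ≤ C * (T.card : ℝ) ^ α ∧
      (∀ v ∈ T, ∃ i ∈ F, p v = pos j (c i) (e i) (s + ((ab.2 / (ab.1 + ab.2) : ℚ) : ℝ) * w)) ∧
      ∀ x, (T.filter fun v => dist x (p v) < δ / 4).card ≤ (2 * B + 1) ^ n := by
  classical
  have hn : 0 < n := Fin.pos j
  have hn' : (0 : ℝ) < n := by exact_mod_cast hn
  obtain ⟨η, hη⟩ : ∃ η, η = w * δ / (8 * n) := ⟨_, rfl⟩
  have hη0 : 0 < η := by rw [hη]; positivity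
  set A : Finset ((Fin n → ℤ) × (Fin n → ℤ)) :=
    F.image (fun i => (rd j η (c i) (e i) s, rd j η (c i) (e i) (s + w))) with hA
  obtain ⟨ab, hab, hcard⟩ := ak_pi hα hC h A
  have hab0 := forms_sum_ne hS hab
  -- the differences are distinct
  have hinj : Set.InjOn (fun i => rd j η (c i) (e i) s - rd j η (c i) (e i) (s + w)) F := by
    intro i hi i' hi' hii
    by_contra hne
    have h1 := hsep i hi i' hi' hne
    have h2 := slope_sep (j := j) (he i hi) (he i' hi') (hθ.trans_le (hej i hi))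
      (hθ.trans_le (hej i' hi'))
    have h3 : ‖(e i j)⁻¹ • e i - (e i' j)⁻¹ • e i'‖ ≤ n * (δ / (4 * n)) := by
      refine norm_le_of_coord (by positivity) fun k => ?_
      have a1 := rd_close (j := j) η (c i) (e i) s k
      have a2 := rd_close (j := j) η (c i) (e i) (s + w) k
      have a3 := rd_close (j := j) η (c i') (e i') s k
      have a4 := rd_close (j := j) η (c i') (e i') (s + w) k
      have b1 : w * ((e i j)⁻¹ • e i) k = pos j (c i) (e i) (s + w) k - pos j (c i) (e i) s k := by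
        have := congrArg (fun z : EuclideanSpace ℝ (Fin n) => z k)
          (pos_sub (j := j) (c := c i) (e := e i) (s := s) (w := w))
        simp only [PiLp.sub_apply, PiLp.smul_apply, smul_eq_mul] at this ⊢
        exact this.symm
      have b2 : w * ((e i' j)⁻¹ • e i') k =
          pos j (c i') (e i') (s + w) k - pos j (c i') (e i') s k := by
        have := congrArg (fun z : EuclideanSpace ℝ (Fin n) => z k)
          (pos_sub (j := j) (c := c i') (e := e i') (s := s) (w := w))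
        simp only [PiLp.sub_apply, PiLp.smul_apply, smul_eq_mul] at this ⊢
        exact this.symm
      have c1 : ((rd j η (c i) (e i) s k : ℤ) : ℝ) - ((rd j η (c i) (e i) (s + w) k : ℤ) : ℝ) =
          ((rd j η (c i') (e i') s k : ℤ) : ℝ) - ((rd j η (c i') (e i') (s + w) k : ℤ) : ℝ) := by
        have := congrFun hii k
        simp only [Pi.sub_apply] at this
        exact_mod_cast this
      have d1 : w * (((e i j)⁻¹ • e i - (e i' j)⁻¹ • e i') k) / η =
          (pos j (c i) (e i) (s + w) k / η - pos j (c i) (e i) s k / η) -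
          (pos j (c i') (e i') (s + w) k / η - pos j (c i') (e i') s k / η) := by
        rw [PiLp.sub_apply, mul_sub, b1, b2]
        ring
      have d2 : |w * (((e i j)⁻¹ • e i - (e i' j)⁻¹ • e i') k) / η| ≤ 2 := by
        rw [d1, abs_le]
        rw [abs_le] at a1 a2 a3 a4
        constructor <;> linarith only [a1, a2, a3, a4, c1]
      rw [abs_div, abs_mul, abs_of_pos hw, abs_of_pos hη0, div_le_iff₀ hη0] at d2
      have d3 : w * |((e i j)⁻¹ • e i - (e i' j)⁻¹ • e i') k| ≤ w * (δ / (4 * n)) := by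
        refine d2.trans (le_of_eq ?_)
        rw [hη]
        field_simp
        norm_num
      exact le_of_mul_le_mul_left d3 hw
    have h4 : (n : ℝ) * (δ / (4 * n)) = δ / 4 := by field_simp
    rw [h4] at h3
    linarith only [hδ, h1, h2, h3]
  have hcardF : (F.card : ℝ) = ((A.image (fun p => p.1 - p.2)).card : ℝ) := by
    rw [hA, Finset.image_image]
    congr 1
    exact (Finset.card_image_of_injOn hinj).symm
  set T : Finset (Fin n → ℚ) := F.image (fun i => val j η ab s w (c i) (e i)) with hT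
  have hTA : T = A.image (fun p => fun k => ab.1 * (p.1 k : ℚ) + ab.2 * (p.2 k : ℚ)) := by
    rw [hA, Finset.image_image]
    rfl
  have hTmem : ∀ v ∈ T, ∃ i ∈ F, val j η ab s w (c i) (e i) = v := by
    intro v hv
    rw [hT, Finset.mem_image] at hv
    exact hv
  obtain ⟨idx, hidx⟩ : ∃ idx : ∀ v ∈ T, ι, ∀ v (hv : v ∈ T), idx v hv ∈ F ∧
      val j η ab s w (c (idx v hv)) (e (idx v hv)) = v :=
    ⟨fun v hv => (hTmem v hv).choose, fun v hv => (hTmem v hv).choose_spec⟩
  set p : (Fin n → ℚ) → EuclideanSpace ℝ (Fin n) := fun v =>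
    if hv : v ∈ T then pos j (c (idx v hv)) (e (idx v hv))
      (s + ((ab.2 / (ab.1 + ab.2) : ℚ) : ℝ) * w) else 0 with hp
  have hpT : ∀ v (hv : v ∈ T), p v = pos j (c (idx v hv)) (e (idx v hv))
      (s + ((ab.2 / (ab.1 + ab.2) : ℚ) : ℝ) * w) := by
    intro v hv
    simp only [hp, dif_pos hv]
  refine ⟨ab, hab, T, p, ?_, ?_, ?_⟩
  · rw [hcardF, hTA]
    exact hcard
  · intro v hv
    exact ⟨idx v hv, (hidx v hv).1, hpT v hv⟩
  · intro x
    have hclose : ∀ v ∈ T, ∀ k, |((v k : ℚ) : ℝ) - ((ab.1 + ab.2 : ℚ) : ℝ) * (p v k / η)| ≤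
        (|(ab.1 : ℝ)| + |(ab.2 : ℝ)|) / 2 := by
      intro v hv k
      obtain ⟨-, h2⟩ := hidx v hv
      have := val_close (j := j) (η := η) ab hab0 s w (c (idx v hv)) (e (idx v hv)) k
      rw [h2] at this
      rw [hpT v hv]
      exact this
    have hint : ∀ v ∈ T, ∀ k, ∃ z : ℤ, (q : ℚ) * v k = z := by
      intro v hv k
      obtain ⟨z₁, z₂, hz₁, hz₂⟩ := hqS ab hab
      obtain ⟨-, h2⟩ := hidx v hv
      refine ⟨z₁ * rd j η (c (idx v hv)) (e (idx v hv)) s k +
        z₂ * rd j η (c (idx v hv)) (e (idx v hv)) (s + w) k, ?_⟩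
      have h3 := congrFun h2 k
      rw [← h3, val]
      push_cast
      rw [← hz₁, ← hz₂]
      ring
    rcases (T.filter fun v => dist x (p v) < δ / 4).eq_empty_or_nonempty with hemp | ⟨v₀, hv₀⟩
    · rw [hemp, Finset.card_empty]
      exact Nat.zero_le _
    · rw [Finset.mem_filter] at hv₀
      have hcount : (T.filter fun v => dist x (p v) < δ / 4).card ≤
          (Fintype.piFinset (fun _ : Fin n => Finset.Icc (-(B : ℤ)) B)).card := by
        refine Finset.card_le_card_of_injOn (fun v k => ⌊(q : ℚ) * (v k - v₀ k)⌋) ?_ ?_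
        · intro v hv
          rw [Finset.mem_coe, Finset.mem_filter] at hv
          rw [Finset.mem_coe, Fintype.mem_piFinset]
          intro k
          obtain ⟨z, hz⟩ := hint v hv.1 k
          obtain ⟨z₀, hz₀⟩ := hint v₀ hv₀.1 k
          have h1 : (q : ℚ) * (v k - v₀ k) = ((z - z₀ : ℤ) : ℚ) := by
            rw [mul_sub, hz, hz₀]; push_cast; ring
          have h2 : |p v k - p v₀ k| ≤ δ / 2 := by
            have h3 : ‖p v - p v₀‖ ≤ δ / 2 := by
              rw [← dist_eq_norm]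
              have := dist_triangle_left (p v) (p v₀) x
              linarith only [hv₀, hv, this, hv.2, hv₀.2]
            have h4 := coord_le_norm (p v - p v₀) k
            rw [PiLp.sub_apply] at h4
            exact h4.trans h3
          have c1 := hclose v hv.1 k
          have c2 := hclose v₀ hv₀.1 k
          have h5 : |((v k : ℚ) : ℝ) - ((v₀ k : ℚ) : ℝ)| ≤
              |((ab.1 + ab.2 : ℚ) : ℝ)| * (4 * n / w) + (|(ab.1 : ℝ)| + |(ab.2 : ℝ)|) := by
            have e1 : ((v k : ℚ) : ℝ) - ((v₀ k : ℚ) : ℝ) =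
                (((v k : ℚ) : ℝ) - ((ab.1 + ab.2 : ℚ) : ℝ) * (p v k / η)) -
                (((v₀ k : ℚ) : ℝ) - ((ab.1 + ab.2 : ℚ) : ℝ) * (p v₀ k / η)) +
                ((ab.1 + ab.2 : ℚ) : ℝ) * ((p v k - p v₀ k) / η) := by ring
            have e2 : |((ab.1 + ab.2 : ℚ) : ℝ) * ((p v k - p v₀ k) / η)| ≤
                |((ab.1 + ab.2 : ℚ) : ℝ)| * (4 * n / w) := by
              rw [abs_mul]
              refine mul_le_mul_of_nonneg_left ?_ (abs_nonneg _)
              rw [abs_div, abs_of_pos hη0, div_le_iff₀ hη0]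
              refine h2.trans (le_of_eq ?_)
              rw [hη]
              field_simp
              norm_num
            rw [e1]
            have e3 := abs_add_le ((((v k : ℚ) : ℝ) - ((ab.1 + ab.2 : ℚ) : ℝ) * (p v k / η)) -
                (((v₀ k : ℚ) : ℝ) - ((ab.1 + ab.2 : ℚ) : ℝ) * (p v₀ k / η)))
                (((ab.1 + ab.2 : ℚ) : ℝ) * ((p v k - p v₀ k) / η))
            have e4 := abs_sub (((v k : ℚ) : ℝ) - ((ab.1 + ab.2 : ℚ) : ℝ) * (p v k / η))
                (((v₀ k : ℚ) : ℝ) - ((ab.1 + ab.2 : ℚ) : ℝ) * (p v₀ k / η))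
            linarith only [c1, c2, e2, e3, e4]
          have h6 : |((z - z₀ : ℤ) : ℝ)| ≤ B := by
            have h7 : ((z - z₀ : ℤ) : ℝ) = (q : ℝ) * (((v k : ℚ) : ℝ) - ((v₀ k : ℚ) : ℝ)) := by
              have h8 : ((((q : ℚ) * (v k - v₀ k) : ℚ)) : ℝ) = (((z - z₀ : ℤ) : ℚ) : ℝ) := by
                rw [h1]
              push_cast at h8 ⊢
              linarith only [h8]
            rw [h7, abs_mul, abs_of_nonneg (by positivity : (0 : ℝ) ≤ q)]
            exact (mul_le_mul_of_nonneg_left h5 (by positivity)).trans (hB ab hab)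
          simp only
          rw [h1, Int.floor_intCast, Finset.mem_Icc]
          rw [abs_le] at h6
          constructor
          · exact_mod_cast h6.1
          · exact_mod_cast h6.2
        · intro v hv v' hv' hvv
          rw [Finset.mem_coe, Finset.mem_filter] at hv hv'
          funext k
          have h1 := congrFun hvv k
          simp only at h1
          obtain ⟨z, hz⟩ := hint v hv.1 k
          obtain ⟨z', hz'⟩ := hint v' hv'.1 k
          obtain ⟨z₀, hz₀⟩ := hint v₀ hv₀.1 k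
          have e1 : (q : ℚ) * (v k - v₀ k) = ((z - z₀ : ℤ) : ℚ) := by
            rw [mul_sub, hz, hz₀]; push_cast; ring
          have e2 : (q : ℚ) * (v' k - v₀ k) = ((z' - z₀ : ℤ) : ℚ) := by
            rw [mul_sub, hz', hz₀]; push_cast; ring
          rw [e1, e2, Int.floor_intCast, Int.floor_intCast] at h1
          have h2 : z = z' := by linarith only [h1]
          have hq' : (q : ℚ) ≠ 0 := by exact_mod_cast hq.ne'
          have h3 : (q : ℚ) * v k = q * v' k := by rw [hz, hz', h2]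
          exact mul_left_cancel₀ hq' h3
      refine hcount.trans (le_of_eq ?_)
      rw [Fintype.card_piFinset]
      simp only [Int.card_Icc, Finset.prod_const, Finset.card_univ, Fintype.card_fin]
      congr 1
      omega

end core

section assembly

lemma exists_den (X : Finset ℚ) : ∃ q : ℕ, 0 < q ∧ ∀ x ∈ X, ∃ z : ℤ, (q : ℚ) * x = z := by
  classical
  induction X using Finset.induction_on with
  | empty => exact ⟨1, one_pos, by simp⟩
  | insert a X _ ih =>
    obtain ⟨q, hq, h⟩ := ih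
    refine ⟨q * a.den, Nat.mul_pos hq a.den_pos, ?_⟩
    intro x hx
    rw [Finset.mem_insert] at hx
    rcases hx with rfl | hx
    · refine ⟨q * x.num, ?_⟩
      push_cast
      have := Rat.mul_den_eq_num x
      rw [mul_assoc, mul_comm (x.den : ℚ) x, this]
    · obtain ⟨z, hz⟩ := h x hx
      refine ⟨a.den * z, ?_⟩
      push_cast
      rw [← hz]
      ring

/-- The core construction with all auxiliary constants hidden. -/
lemma core_exists {α C θ : ℝ} (hα : 0 ≤ α) (hC : 0 ≤ C) {S : Finset ℚ} (hS : (-1 : ℚ) ∉ S)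
    (h : ∀ A : Finset (ℤ × ℤ),
      ((A.image (fun p : ℤ × ℤ => (p.1 : ℚ) + (-1) * (p.2 : ℚ))).card : ℝ) ≤
      C * (max ((A.image (fun p : ℤ × ℤ => (p.2 : ℚ))).card : ℝ)
          ((S.sup (fun r : ℚ => (A.image (fun p : ℤ × ℤ => (p.1 : ℚ) + r * (p.2 : ℚ))).card) : ℕ)
            : ℝ)) ^ α) (hθ : 0 < θ) {n : ℕ} (j : Fin n) :
    ∃ (K : ℕ) (Hs : Finset ℝ), (∀ off ∈ Hs, |off| ≤ θ / 8) ∧
      ∀ {ι : Type} (c e : ι → EuclideanSpace ℝ (Fin n)) (F : Finset ι)
      (δ s : ℝ), (∀ i ∈ F, ‖e i‖ = 1) → (∀ i ∈ F, θ ≤ e i j) →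
      (∀ i ∈ F, ∀ i' ∈ F, i ≠ i' → δ ≤ ‖e i - e i'‖) → 0 < δ →
      ∃ off ∈ Hs, ∃ (T : Finset (Fin n → ℚ)) (p : (Fin n → ℚ) → EuclideanSpace ℝ (Fin n)),
        (F.card : ℝ) ≤ C * (T.card : ℝ) ^ α ∧
        (∀ v ∈ T, ∃ i ∈ F, p v = pos j (c i) (e i) (s + off)) ∧
        ∀ x, (T.filter fun v => dist x (p v) < δ / 4).card ≤ K := by
  classical
  obtain ⟨q, hq, hq2⟩ := exists_den ((forms S).image Prod.fst ∪ (forms S).image Prod.snd)
  set lam : ℚ × ℚ → ℝ := fun ab => ((ab.2 / (ab.1 + ab.2) : ℚ) : ℝ) with hlam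
  set Λ : ℝ := ∑ ab ∈ forms S, |lam ab| with hΛ
  have hΛ0 : 0 ≤ Λ := Finset.sum_nonneg fun _ _ => abs_nonneg _
  have hΛ1 : ∀ ab ∈ forms S, |lam ab| ≤ Λ := fun ab hab =>
    Finset.single_le_sum (f := fun ab => |lam ab|) (fun _ _ => abs_nonneg _) hab
  obtain ⟨w, hw⟩ : ∃ w, w = θ / (8 * (Λ + 1)) := ⟨_, rfl⟩
  have hw0 : 0 < w := by rw [hw]; positivity
  set g : ℚ × ℚ → ℝ := fun ab => (q : ℝ) * (|((ab.1 + ab.2 : ℚ) : ℝ)| * (4 * n / w) +
    (|(ab.1 : ℝ)| + |(ab.2 : ℝ)|)) with hg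
  have hg0 : ∀ ab, 0 ≤ g ab := fun ab => by rw [hg]; positivity
  obtain ⟨B, hB⟩ := exists_nat_ge (∑ ab ∈ forms S, g ab)
  refine ⟨(2 * B + 1) ^ n, (forms S).image (fun ab => lam ab * w), ?_, ?_⟩
  · intro off hoff
    obtain ⟨ab, hab, rfl⟩ := Finset.mem_image.mp hoff
    have h1 := hΛ1 ab hab
    rw [abs_mul, abs_of_pos hw0]
    calc |lam ab| * w ≤ Λ * w := mul_le_mul_of_nonneg_right h1 hw0.le
      _ ≤ θ / 8 := by
          rw [hw]
          rw [mul_div_assoc', div_le_div_iff₀ (by positivity) (by positivity)]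
          nlinarith only [hθ]
  intro ι c e F δ s he hej hsep hδ
  obtain ⟨ab, hab, T, p, h1, h2, h3⟩ := core (j := j) (B := B) (q := q) (w := w) hα hC hS h hq
    (by
      intro ab hab
      obtain ⟨z₁, hz₁⟩ := hq2 ab.1 (Finset.mem_union_left _ (Finset.mem_image_of_mem _ hab))
      obtain ⟨z₂, hz₂⟩ := hq2 ab.2 (Finset.mem_union_right _ (Finset.mem_image_of_mem _ hab))
      exact ⟨z₁, z₂, hz₁, hz₂⟩)
    (by
      intro ab hab
      exact (Finset.single_le_sum (f := g) (fun ab _ => hg0 ab) hab).trans hB)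
    hw0 c e F he hθ hej hsep hδ s
  exact ⟨lam ab * w, Finset.mem_image_of_mem _ hab, T, p, h1, h2, h3⟩

/-- Integers in a bounded window. -/
lemma card_window (I : Finset ℤ) (y : ℝ) {R : ℝ} (hR : 0 ≤ R) (h : ∀ k ∈ I, |(k : ℝ) - y| < R) :
    (I.card : ℝ) ≤ 2 * R + 1 := by
  rcases I.eq_empty_or_nonempty with hI | ⟨k₀, hk₀⟩
  · rw [hI, Finset.card_empty]
    push_cast
    linarith only [hR]
  · have hsub : I ⊆ Finset.Icc ⌈y - R⌉ ⌊y + R⌋ := by
      intro k hk
      have := h k hk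
      rw [abs_lt] at this
      rw [Finset.mem_Icc]
      exact ⟨Int.ceil_le.mpr (by linarith only [this]), Int.le_floor.mpr (by linarith)⟩
    have h1 := Finset.card_le_card hsub
    rw [Int.card_Icc] at h1
    have h2 : ⌈y - R⌉ ≤ ⌊y + R⌋ := by
      have := hsub hk₀
      rw [Finset.mem_Icc] at this
      exact this.1.trans this.2
    have h3 : ((⌊y + R⌋ + 1 - ⌈y - R⌉).toNat : ℝ) = (⌊y + R⌋ + 1 - ⌈y - R⌉ : ℤ) := by
      have : ((⌊y + R⌋ + 1 - ⌈y - R⌉).toNat : ℤ) = ⌊y + R⌋ + 1 - ⌈y - R⌉ :=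
        Int.toNat_of_nonneg (by linarith only [h2])
      exact_mod_cast this
    have h4 : (I.card : ℝ) ≤ ((⌊y + R⌋ + 1 - ⌈y - R⌉).toNat : ℝ) := by exact_mod_cast h1
    rw [h3] at h4
    push_cast at h4
    have h5 := Int.floor_le (y + R)
    have h6 := Int.le_ceil (y - R)
    linarith only [h4, h5, h6]

end assembly

section assembly2

lemma rpow_sum_le {ι : Type*} (M : Finset ι) (f : ι → ℝ) (hf : ∀ i ∈ M, 0 ≤ f i) {p : ℝ}
    (hp : 0 < p) (hp1 : p ≤ 1) : (∑ i ∈ M, f i) ^ p ≤ ∑ i ∈ M, f i ^ p := by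
  classical
  induction M using Finset.induction_on with
  | empty => simp [Real.zero_rpow hp.ne']
  | insert a M ha ih =>
    rw [Finset.sum_insert ha, Finset.sum_insert ha]
    have h1 : 0 ≤ f a := hf a (Finset.mem_insert_self _ _)
    have h2 : 0 ≤ ∑ i ∈ M, f i :=
      Finset.sum_nonneg fun i hi => hf i (Finset.mem_insert_of_mem hi)
    have h3 := ih fun i hi => hf i (Finset.mem_insert_of_mem hi)
    refine (Real.rpow_add_le_add_rpow h1 h2 hp.le hp1).trans ?_
    linarith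

/-- Sets of bounded overlap. -/
lemma sum_measure_le {X ι : Type*} [MeasurableSpace X] (μ : Measure X) (I : Finset ι)
    (B : ι → Set X) (hB : ∀ a ∈ I, MeasurableSet (B a)) {U : Set X} (hU : MeasurableSet U)
    (hsub : ∀ a ∈ I, B a ⊆ U) {K : ℕ} [∀ x, DecidablePred fun a => x ∈ B a]
    (hK : ∀ x, (I.filter (fun a => x ∈ B a)).card ≤ K) : ∑ a ∈ I, μ (B a) ≤ K * μ U := by
  calc ∑ a ∈ I, μ (B a) = ∑ a ∈ I, ∫⁻ x, (B a).indicator 1 x ∂μ := by
        refine Finset.sum_congr rfl fun a ha => ?_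
        rw [lintegral_indicator_one (hB a ha)]
    _ = ∫⁻ x, ∑ a ∈ I, (B a).indicator (1 : X → ENNReal) x ∂μ := by
        rw [lintegral_finsetSum]
        intro a ha
        exact measurable_one.indicator (hB a ha)
    _ ≤ ∫⁻ x, U.indicator (fun _ => (K : ENNReal)) x ∂μ := by
        refine lintegral_mono fun x => ?_
        have g1 : ∑ a ∈ I, (B a).indicator (1 : X → ENNReal) x =
            ((I.filter (fun a => x ∈ B a)).card : ENNReal) := by
          rw [Finset.card_filter]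
          push_cast
          refine Finset.sum_congr rfl fun a _ => ?_
          simp only [Set.indicator_apply, Pi.one_apply]
        simp only
        rw [g1]
        by_cases hx : x ∈ U
        · rw [Set.indicator_of_mem hx]
          exact_mod_cast hK x
        · rw [Set.indicator_of_notMem hx]
          have g2 : I.filter (fun a => x ∈ B a) = ∅ := by
            rw [Finset.filter_eq_empty_iff]
            intro a ha hxa
            exact hx (hsub a ha hxa)
          rw [g2]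
          simp
    _ = K * μ U := by rw [lintegral_indicator_const hU]

lemma measurableSet_tube {n : ℕ} (δ : ℝ) (c e : EuclideanSpace ℝ (Fin n)) :
    MeasurableSet (tube δ c e) := by
  have : IsClosed (tube δ c e) := by
    unfold tube
    refine IsClosed.inter ?_ ?_
    · exact isClosed_le (f := fun x => |⟪x - c, e⟫|) (by fun_prop) continuous_const
    · exact isClosed_le (f := fun x => ‖(x - c) - ⟪x - c, e⟫ • e‖) (by fun_prop) continuous_const
  exact this.measurableSet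

lemma finish {α κ ρ C' δ : ℝ} {Kt L n Nt Nf : ℕ} {V : ENNReal} (hκ0 : 0 < κ)
    (hρ0 : 0 < ρ) (hC'0 : 0 < C') (hKt0 : (0 : ℝ) < Kt) (hδ : 0 < δ) (hL1 : ρ / δ ≤ L)
    (hcount : (L : ℝ) / 2 * ((Nf : ℝ) / C') ^ (1 / α) ≤ (Nt : ℝ))
    (hmeas : (Nt : ENNReal) * ENNReal.ofReal ((δ / 4) ^ n * κ / 2) ≤ Kt * V) :
    ENNReal.ofReal (κ * (1 / 4) ^ n * ρ * (1 / C') ^ (1 / α) / (4 * Kt) * (δ ^ n / δ) *
      (Nf : ℝ) ^ (1 / α)) ≤ V := by
  have hfin : κ * (1 / 4) ^ n * ρ * (1 / C') ^ (1 / α) / (4 * Kt) * (δ ^ n / δ) *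
      (Nf : ℝ) ^ (1 / α) ≤ (Nt : ℝ) * ((δ / 4) ^ n * κ / 2) / Kt := by
    rw [le_div_iff₀ hKt0]
    have b1 : (ρ / δ) / 2 * ((Nf : ℝ) / C') ^ (1 / α) ≤ (Nt : ℝ) :=
      (mul_le_mul_of_nonneg_right (by linarith only [hL1]) (by positivity)).trans hcount
    have b2 : ((Nf : ℝ) / C') ^ (1 / α) = (1 / C') ^ (1 / α) * (Nf : ℝ) ^ (1 / α) := by
      rw [← Real.mul_rpow (by positivity) (by positivity)]
      congr 1
      ring
    rw [b2] at b1
    have b3 := mul_le_mul_of_nonneg_right b1 (by positivity : (0 : ℝ) ≤ (δ / 4) ^ n * κ / 2)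
    refine le_trans (le_of_eq ?_) b3
    have b4 : (δ / 4) ^ n = δ ^ n * (1 / 4) ^ n := by rw [← mul_pow]; congr 1; ring
    rw [b4]
    field_simp
    ring
  refine (ENNReal.ofReal_le_ofReal hfin).trans ?_
  rw [ENNReal.ofReal_div_of_pos hKt0, ENNReal.ofReal_natCast,
    ENNReal.ofReal_mul (Nat.cast_nonneg _), ENNReal.ofReal_natCast]
  refine ENNReal.div_le_of_le_mul ?_
  rw [mul_comm V]
  exact hmeas

end assembly2

section robust

lemma card_heights {ρ δ o y : ℝ} {L K₂ : ℕ} (hρ0 : 0 < ρ) (hδ : 0 < δ) (hδ1 : δ < 1)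
    (hL0 : 0 < L) (hL2 : (L : ℝ) ≤ ρ / δ + 1) (hK₂ : 2 * ((ρ + 1) / (4 * ρ)) + 1 ≤ (K₂ : ℝ))
    (I : Finset (ℤ × ℕ)) (hIL : ∀ x ∈ I, x.2 < L) :
    (I.filter (fun x => |ρ / L * (x.1 * L + x.2) + o - y| < δ / 4)).card ≤ K₂ := by
  have hL0' : (0 : ℝ) < L := by exact_mod_cast hL0
  have hinj : Set.InjOn (fun x : ℤ × ℕ => x.1 * (L : ℤ) + x.2)
      (I.filter (fun x => |ρ / L * (x.1 * L + x.2) + o - y| < δ / 4)) := by
    intro x hx x' hx' hxx
    have a1 := hIL x (Finset.mem_filter.mp (Finset.mem_coe.mp hx)).1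
    have a2 := hIL x' (Finset.mem_filter.mp (Finset.mem_coe.mp hx')).1
    simp only at hxx
    have b1 : x.1 = x'.1 := by
      have c1 : (x.1 * (L : ℤ) + x.2) / L = x.1 := by
        rw [add_comm, Int.add_mul_ediv_right _ _ (by exact_mod_cast hL0.ne'),
          Int.ediv_eq_zero_of_lt (by positivity) (by exact_mod_cast a1), zero_add]
      have c2 : (x'.1 * (L : ℤ) + x'.2) / L = x'.1 := by
        rw [add_comm, Int.add_mul_ediv_right _ _ (by exact_mod_cast hL0.ne'),
          Int.ediv_eq_zero_of_lt (by positivity) (by exact_mod_cast a2), zero_add]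
      rw [← c1, ← c2, hxx]
    have b2 : x.2 = x'.2 := by
      rw [b1] at hxx
      have : (x.2 : ℤ) = x'.2 := by linarith only [hxx]
      exact_mod_cast this
    exact Prod.ext b1 b2
  have f1 : ((I.filter (fun x => |ρ / L * (x.1 * L + x.2) + o - y| < δ / 4)).card : ℝ) ≤
      2 * ((ρ + 1) / (4 * ρ)) + 1 := by
    rw [← Finset.card_image_of_injOn hinj]
    refine card_window _ ((y - o) * L / ρ) (by positivity) ?_
    intro k hk
    rw [Finset.mem_image] at hk
    obtain ⟨x, hx, rfl⟩ := hk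
    have g1 := (Finset.mem_filter.mp hx).2
    have g2 : (((x.1 * (L : ℤ) + x.2 : ℤ)) : ℝ) - (y - o) * L / ρ =
        (ρ / L * (x.1 * L + x.2) + o - y) * (L / ρ) := by
      push_cast
      field_simp
      ring
    rw [g2, abs_mul, abs_of_pos (by positivity : (0 : ℝ) < L / ρ)]
    calc |ρ / L * (x.1 * L + x.2) + o - y| * (L / ρ) < δ / 4 * (L / ρ) := by
          exact mul_lt_mul_of_pos_right g1 (by positivity)
      _ ≤ (ρ + 1) / (4 * ρ) := by
          rw [div_mul_div_comm, div_le_div_iff_of_pos_right (by positivity)]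
          have := mul_le_mul_of_nonneg_left hL2 hδ.le
          have g3 : δ * (ρ / δ + 1) = ρ + δ := by field_simp
          rw [g3] at this
          linarith only [hδ1, this]
  have f2 := f1.trans hK₂
  exact_mod_cast f2

lemma count_step {X : Type*} {α C' L : ℝ} {N : ℕ} {g t : X → ℕ} (I : Finset X) (hα : 1 ≤ α)
    (hC'0 : 0 < C') (h1 : ∀ x, (g x : ℝ) ≤ C' * (t x : ℝ) ^ α) (hg : ∀ x, g x ≤ N)
    (hsum : (N : ℝ) * (L / 2) ≤ ∑ x ∈ I, (g x : ℝ)) :
    L / 2 * ((N : ℝ) / C') ^ (1 / α) ≤ ∑ x ∈ I, (t x : ℝ) := by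
  have hαpos : 0 < α := by linarith only [hα]
  have g1 : ∀ x, ((g x : ℝ) / C') ^ (1 / α) ≤ (t x : ℝ) := by
    intro x
    have a2 : (g x : ℝ) / C' ≤ (t x : ℝ) ^ α := by
      rw [div_le_iff₀ hC'0, mul_comm]
      exact h1 x
    calc ((g x : ℝ) / C') ^ (1 / α) ≤ ((t x : ℝ) ^ α) ^ (1 / α) :=
          Real.rpow_le_rpow (by positivity) a2 (by positivity)
      _ = (t x : ℝ) := by
          rw [← Real.rpow_mul (by positivity), mul_one_div_cancel hαpos.ne', Real.rpow_one]
  rcases Nat.eq_zero_or_pos N with hF0 | hF0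
  · rw [hF0, Nat.cast_zero, zero_div, Real.zero_rpow (by positivity), mul_zero]
    exact Finset.sum_nonneg fun x _ => Nat.cast_nonneg _
  · have hF0' : (0 : ℝ) < N := by exact_mod_cast hF0
    have hX0 : (0 : ℝ) < (N : ℝ) / C' := by positivity
    have hP : (0 : ℝ) ≤ ((N : ℝ) / C') ^ (1 / α - 1) := by positivity
    have g2 : ∀ x, (g x : ℝ) / C' * ((N : ℝ) / C') ^ (1 / α - 1) ≤
        ((g x : ℝ) / C') ^ (1 / α) := by
      intro x
      rcases Nat.eq_zero_or_pos (g x) with h0 | h0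
      · rw [h0, Nat.cast_zero, zero_div, zero_mul]
        positivity
      · have h0' : (0 : ℝ) < g x := by exact_mod_cast h0
        have hY0 : (0 : ℝ) < (g x : ℝ) / C' := by positivity
        have a1 : ((g x : ℝ) / C') ^ (1 / α) =
            (g x : ℝ) / C' * ((g x : ℝ) / C') ^ (1 / α - 1) := by
          rw [Real.rpow_sub_one hY0.ne', mul_div_cancel₀]
          exact hY0.ne'
        rw [a1]
        refine mul_le_mul_of_nonneg_left ?_ hY0.le
        refine Real.rpow_le_rpow_of_nonpos hY0 ?_ ?_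
        · have : (g x : ℝ) ≤ N := by exact_mod_cast hg x
          exact div_le_div_of_nonneg_right this hC'0.le
        · have : 1 / α ≤ 1 := by rw [div_le_one hαpos]; exact hα
          linarith only [this]
    calc L / 2 * ((N : ℝ) / C') ^ (1 / α) =
        (N : ℝ) * (L / 2) / C' * ((N : ℝ) / C') ^ (1 / α - 1) := by
          rw [Real.rpow_sub_one hX0.ne']
          field_simp
      _ ≤ (∑ x ∈ I, (g x : ℝ)) / C' * ((N : ℝ) / C') ^ (1 / α - 1) :=
          mul_le_mul_of_nonneg_right (div_le_div_of_nonneg_right hsum hC'0.le) hP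
      _ = ∑ x ∈ I, (g x : ℝ) / C' * ((N : ℝ) / C') ^ (1 / α - 1) := by
          rw [Finset.sum_div, Finset.sum_mul]
      _ ≤ ∑ x ∈ I, (t x : ℝ) :=
          Finset.sum_le_sum fun x _ => (g2 x).trans (g1 x)

lemma half_ball {n : ℕ} {z : EuclideanSpace ℝ (Fin n)} {r Vb : ℝ}
    {E : Set (EuclideanSpace ℝ (Fin n))} (hE : MeasurableSet E) (hVb : 0 ≤ Vb)
    (hball : volume (Metric.ball z r) = ENNReal.ofReal Vb)
    (h : volume (Metric.ball z r \ E) ≤ ENNReal.ofReal (Vb / 2)) :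
    ENNReal.ofReal (Vb / 2) ≤ volume (Metric.ball z r ∩ E) := by
  have a1 := measure_inter_add_sdiff (μ := volume) (Metric.ball z r) hE
  have a2 : ENNReal.ofReal Vb = ENNReal.ofReal (Vb / 2) + ENNReal.ofReal (Vb / 2) := by
    rw [← ENNReal.ofReal_add (by positivity) (by positivity)]
    congr 1
    ring
  rw [hball, a2] at a1
  by_contra hlt
  rw [not_le] at hlt
  have a3 := ENNReal.add_lt_add_of_lt_of_le (h.trans_lt ENNReal.ofReal_lt_top).ne hlt h
  exact absurd a1 a3.ne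

/-- The robust bound for tubes whose directions are transversal to a coordinate hyperplane. -/
lemma robust_class {α C θ : ℝ} (hα : 1 ≤ α) (hC : 0 ≤ C) {S : Finset ℚ} (hS : (-1 : ℚ) ∉ S)
    (h : ∀ A : Finset (ℤ × ℤ),
      ((A.image (fun p : ℤ × ℤ => (p.1 : ℚ) + (-1) * (p.2 : ℚ))).card : ℝ) ≤
      C * (max ((A.image (fun p : ℤ × ℤ => (p.2 : ℚ))).card : ℝ)
          ((S.sup (fun r : ℚ => (A.image (fun p : ℤ × ℤ => (p.1 : ℚ) + r * (p.2 : ℚ))).card) : ℕ)
            : ℝ)) ^ α) (hθ : 0 < θ) {n : ℕ} (j : Fin n) :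
    ∃ c₀ > 0, ∃ κ₁ > 0, ∀ {ι : Type} (c e : ι → EuclideanSpace ℝ (Fin n)) (F : Finset ι)
      (δ : ℝ), (∀ i ∈ F, ‖e i‖ = 1) → (∀ i ∈ F, θ ≤ e i j) →
      (∀ i ∈ F, ∀ i' ∈ F, i ≠ i' → δ ≤ ‖e i - e i'‖) → 0 < δ → δ < 1 →
      ∀ E : Set (EuclideanSpace ℝ (Fin n)), MeasurableSet E →
      (∀ i ∈ F, volume (tube δ (c i) (e i) \ E) ≤ ENNReal.ofReal (κ₁ * (δ ^ n / δ))) →
      ENNReal.ofReal (c₀ * (δ ^ n / δ) * (F.card : ℝ) ^ (1 / α)) ≤ volume E := by
  classical
  obtain ⟨K, Hs, hHs, hcore⟩ := core_exists (θ := θ) (by linarith only [hα]) hC hS h hθ j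
  obtain ⟨ρ, hρ⟩ : ∃ ρ, ρ = θ / 8 := ⟨_, rfl⟩
  have hρ0 : 0 < ρ := by rw [hρ]; positivity
  obtain ⟨C', hC'⟩ : ∃ C', C' = C + 1 := ⟨_, rfl⟩
  have hC'0 : 0 < C' := by rw [hC']; linarith only [hC]
  obtain ⟨K₂, hK₂⟩ := exists_nat_ge (2 * ((ρ + 1) / (4 * ρ)) + 1)
  obtain ⟨Kt, hKt⟩ : ∃ Kt : ℕ, Kt = (Hs.card * K₂) * K + 1 := ⟨_, rfl⟩
  have hKt0 : (0 : ℝ) < Kt := by rw [hKt]; positivity
  obtain ⟨κ, hκ⟩ : ∃ κ, κ = (volume (Metric.ball (0 : EuclideanSpace ℝ (Fin n)) 1)).toReal :=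
    ⟨_, rfl⟩
  have hκ0 : 0 < κ := by
    rw [hκ]
    exact ENNReal.toReal_pos (Metric.measure_ball_pos _ _ one_pos).ne' measure_ball_lt_top.ne
  refine ⟨κ * (1 / 4) ^ n * ρ * (1 / C') ^ (1 / α) / (4 * Kt), by positivity,
    ρ * κ * (1 / 4) ^ n / (4 * (Hs.card * K₂ + 1)), by positivity, ?_⟩
  intro ι c e F δ he hej hsep hδ hδ1 E hE hvol
  have hαpos : 0 < α := by linarith only [hα, hδ, hδ1]
  obtain ⟨Vb, hVb⟩ : ∃ Vb, Vb = (δ / 4) ^ n * κ := ⟨_, rfl⟩
  have hVb0 : 0 < Vb := by rw [hVb]; positivity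
  have hball : ∀ z : EuclideanSpace ℝ (Fin n), volume (Metric.ball z (δ / 4)) =
      ENNReal.ofReal Vb := by
    intro z
    rw [Measure.addHaar_ball_of_pos _ _ (by positivity), finrank_euclideanSpace_fin, hVb,
      ENNReal.ofReal_mul (by positivity), hκ, ENNReal.ofReal_toReal measure_ball_lt_top.ne]
  obtain ⟨L, hL⟩ : ∃ L, L = ⌈ρ / δ⌉₊ := ⟨_, rfl⟩
  have hL0 : 0 < L := by rw [hL]; exact Nat.ceil_pos.mpr (by positivity)
  have hL0' : (0 : ℝ) < L := by exact_mod_cast hL0
  have hL1 : ρ / δ ≤ L := by rw [hL]; exact Nat.le_ceil _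
  have hL2 : (L : ℝ) ≤ ρ / δ + 1 := by rw [hL]; exact (Nat.ceil_lt_add_one (by positivity)).le
  set m : ι → ℤ := fun i => ⌊c i j / ρ⌋ with hm
  set s : ℤ × ℕ → ℝ := fun x => ρ / L * (x.1 * L + x.2) with hs
  set good : ι → ℤ × ℕ → Prop := fun i x => ∀ off ∈ Hs,
    volume (Metric.ball (pos j (c i) (e i) (s x + off)) (δ / 4) \ E) ≤ ENNReal.ofReal (Vb / 2)
    with hgood
  set G : ℤ × ℕ → Finset ι := fun x => F.filter (fun i => m i = x.1 ∧ good i x) with hG
  have hheight : ∀ i, ∀ l : ℕ, l < L → |s (m i, l) - c i j| ≤ θ / 8 := by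
    intro i l hl
    have h2 := Int.floor_le (c i j / ρ)
    have h3 := Int.lt_floor_add_one (c i j / ρ)
    rw [le_div_iff₀ hρ0] at h2
    rw [div_lt_iff₀ hρ0] at h3
    have h5 : s (m i, l) = (⌊c i j / ρ⌋ : ℤ) * ρ + ρ * (l / L) := by
      simp only [hs, hm]
      field_simp
    have h6 : (0 : ℝ) ≤ (l : ℝ) / L := by positivity
    have h7 : (l : ℝ) / L ≤ 1 := by
      rw [div_le_one hL0']
      exact_mod_cast hl.le
    rw [h5, ← hρ, abs_le]
    constructor
    · nlinarith only [h3, hρ0, h6, mul_nonneg hρ0.le h6]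
    · nlinarith only [h2, h7, hρ0, mul_le_mul_of_nonneg_left h7 hρ0.le]
  have key : ∀ x : ℤ × ℕ, ∃ off ∈ Hs, ∃ (T : Finset (Fin n → ℚ))
      (p : (Fin n → ℚ) → EuclideanSpace ℝ (Fin n)),
        ((G x).card : ℝ) ≤ C * (T.card : ℝ) ^ α ∧
        (∀ v ∈ T, ∃ i ∈ G x, p v = pos j (c i) (e i) (s x + off)) ∧
        ∀ y, (T.filter fun v => dist y (p v) < δ / 4).card ≤ K := by
    intro x
    refine hcore c e (G x) δ (s x) ?_ ?_ ?_ hδ
    · intro i hi
      exact he i (Finset.mem_filter.mp hi).1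
    · intro i hi
      exact hej i (Finset.mem_filter.mp hi).1
    · intro i hi i' hi' hne
      exact hsep i (Finset.mem_filter.mp hi).1 i' (Finset.mem_filter.mp hi').1 hne
  choose off hoff T p h1 h2 h3 using key
  set M : Finset ℤ := F.image m with hM
  set I : Finset (ℤ × ℕ) := M ×ˢ Finset.range L with hI
  have hIL : ∀ x ∈ I, x.2 < L := by
    intro x hx
    rw [hI, Finset.mem_product, Finset.mem_range] at hx
    exact hx.2
  -- overlap
  have hover : ∀ y, ∑ x ∈ I, ((T x).filter fun v => dist y (p x v) < δ / 4).card ≤ Kt := by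
    intro y
    set I' := I.filter (fun x => ((T x).filter fun v => dist y (p x v) < δ / 4).Nonempty) with hI'
    have e1 : ∑ x ∈ I, ((T x).filter fun v => dist y (p x v) < δ / 4).card =
        ∑ x ∈ I', ((T x).filter fun v => dist y (p x v) < δ / 4).card := by
      rw [hI', Finset.sum_filter]
      refine Finset.sum_congr rfl fun x _ => ?_
      split_ifs with hne
      · rfl
      · rw [Finset.not_nonempty_iff_eq_empty] at hne
        rw [hne, Finset.card_empty]
    have e2 : ∑ x ∈ I', ((T x).filter fun v => dist y (p x v) < δ / 4).card ≤ I'.card * K := by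
      rw [← smul_eq_mul]
      exact Finset.sum_le_card_nsmul _ _ _ fun x _ => h3 x y
    have e3 : I' ⊆ Hs.biUnion (fun o => I.filter
        (fun x => |ρ / L * (x.1 * L + x.2) + o - y j| < δ / 4)) := by
      intro x hx
      rw [hI', Finset.mem_filter] at hx
      obtain ⟨hxI, v, hv⟩ := hx
      rw [Finset.mem_filter] at hv
      rw [Finset.mem_biUnion]
      refine ⟨off x, hoff x, Finset.mem_filter.mpr ⟨hxI, ?_⟩⟩
      obtain ⟨i, hi, hpi⟩ := h2 x v hv.1
      have h4 : (p x v) j = s x + off x := by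
        rw [hpi]
        exact pos_height (hθ.trans_le (hej i (Finset.mem_filter.mp hi).1)).ne'
      change |s x + off x - y j| < δ / 4
      rw [← h4]
      have h5 := coord_le_norm (p x v - y) j
      rw [PiLp.sub_apply] at h5
      refine h5.trans_lt ?_
      rw [← dist_eq_norm, dist_comm]
      exact hv.2
    have e5 : I'.card ≤ Hs.card * K₂ := by
      refine (Finset.card_le_card e3).trans (Finset.card_biUnion_le.trans ?_)
      rw [← smul_eq_mul]
      exact Finset.sum_le_card_nsmul _ _ _ fun o _ =>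
        card_heights hρ0 hδ hδ1 hL0 hL2 hK₂ I hIL
    rw [e1]
    calc _ ≤ I'.card * K := e2
      _ ≤ (Hs.card * K₂) * K := Nat.mul_le_mul_right _ e5
      _ ≤ Kt := by rw [hKt]; exact Nat.le_succ _
  -- few bad heights
  have hbad : ∀ i ∈ F, ∀ o ∈ Hs, (((Finset.range L).filter (fun l : ℕ =>
      ENNReal.ofReal (Vb / 2) <
        volume (Metric.ball (pos j (c i) (e i) (s (m i, l) + o)) (δ / 4) \ E))).card : ℝ) *
          (Vb / 2) ≤ K₂ * (ρ * κ * (1 / 4) ^ n / (4 * (Hs.card * K₂ + 1)) * (δ ^ n / δ)) := by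
    intro i hi o ho
    set Lb := (Finset.range L).filter (fun l : ℕ => ENNReal.ofReal (Vb / 2) <
        volume (Metric.ball (pos j (c i) (e i) (s (m i, l) + o)) (δ / 4) \ E)) with hLb
    have hLbL : ∀ l ∈ Lb, l < L := fun l hl =>
      Finset.mem_range.mp (Finset.mem_filter.mp hl).1
    have g1 : ∑ l ∈ Lb, volume (Metric.ball (pos j (c i) (e i) (s (m i, l) + o)) (δ / 4) \ E) ≤
        K₂ * volume (tube δ (c i) (e i) \ E) := by
      refine sum_measure_le volume Lb _ ?_ ((measurableSet_tube _ _ _).diff hE) ?_ ?_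
      · intro l _
        exact Metric.isOpen_ball.measurableSet.diff hE
      · intro l hl
        refine Set.sdiff_subset_sdiff_left ?_
        refine ball_subset (he i hi) hδ hδ1 hθ (hej i hi) ?_
        have a1 := hheight i l (hLbL l hl)
        have a2 := hHs o ho
        have a3 : s (m i, l) + o - c i j = (s (m i, l) - c i j) + o := by ring
        rw [a3]
        refine (abs_add_le _ _).trans ?_
        linarith only [a1, a2]
      · intro x
        have a1 := card_heights (o := o) (y := x j) hρ0 hδ hδ1 hL0 hL2 hK₂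
          (Lb.image (fun l : ℕ => ((m i, l) : ℤ × ℕ))) (by
            intro z hz
            obtain ⟨l, hl, rfl⟩ := Finset.mem_image.mp hz
            exact hLbL l hl)
        refine le_trans ?_ a1
        refine Finset.card_le_card_of_injOn (fun l : ℕ => ((m i, l) : ℤ × ℕ)) ?_ ?_
        · intro l hl
          have hl' := Finset.mem_filter.mp (Finset.mem_coe.mp hl)
          refine Finset.mem_coe.mpr (Finset.mem_filter.mpr
            ⟨Finset.mem_image_of_mem _ hl'.1, ?_⟩)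
          have b1 := Metric.mem_ball.mp hl'.2.1
          have b2 := coord_le_norm (pos j (c i) (e i) (s (m i, l) + o) - x) j
          rw [PiLp.sub_apply, pos_height (hθ.trans_le (hej i hi)).ne'] at b2
          refine b2.trans_lt ?_
          rw [← dist_eq_norm, dist_comm]
          exact b1
        · intro l _ l' _ hll
          exact (Prod.ext_iff.mp hll).2
    have g2 : (Lb.card : ENNReal) * ENNReal.ofReal (Vb / 2) ≤
        ∑ l ∈ Lb, volume (Metric.ball (pos j (c i) (e i) (s (m i, l) + o)) (δ / 4) \ E) := by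
      rw [← nsmul_eq_mul]
      exact Finset.card_nsmul_le_sum _ _ _ fun l hl => (Finset.mem_filter.mp hl).2.le
    have g3 := (g2.trans g1).trans (mul_le_mul_right (hvol i hi) _)
    have g4 : ENNReal.ofReal ((Lb.card : ℝ) * (Vb / 2)) ≤ ENNReal.ofReal
        (K₂ * (ρ * κ * (1 / 4) ^ n / (4 * (Hs.card * K₂ + 1)) * (δ ^ n / δ))) := by
      rw [ENNReal.ofReal_mul (Nat.cast_nonneg _), ENNReal.ofReal_mul (Nat.cast_nonneg _),
        ENNReal.ofReal_natCast, ENNReal.ofReal_natCast]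
      exact g3
    rwa [ENNReal.ofReal_le_ofReal_iff (by positivity)] at g4
  have hgoodcount : ∀ i ∈ F, (L : ℝ) / 2 ≤
      (((Finset.range L).filter (fun l : ℕ => good i (m i, l))).card : ℝ) := by
    intro i hi
    have g1 : (Finset.range L).filter (fun l : ℕ => ¬ good i (m i, l)) ⊆
        Hs.biUnion (fun o => (Finset.range L).filter (fun l : ℕ => ENNReal.ofReal (Vb / 2) <
        volume (Metric.ball (pos j (c i) (e i) (s (m i, l) + o)) (δ / 4) \ E))) := by
      intro l hl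
      rw [Finset.mem_filter] at hl
      have a1 := hl.2
      rw [hgood] at a1
      simp only [not_forall, not_le] at a1
      obtain ⟨o, ho, hlt⟩ := a1
      exact Finset.mem_biUnion.mpr ⟨o, ho, Finset.mem_filter.mpr ⟨hl.1, hlt⟩⟩
    have g2 : (((Finset.range L).filter (fun l : ℕ => ¬ good i (m i, l))).card : ℝ) ≤
        ∑ o ∈ Hs, (((Finset.range L).filter (fun l : ℕ => ENNReal.ofReal (Vb / 2) <
        volume (Metric.ball (pos j (c i) (e i) (s (m i, l) + o)) (δ / 4) \ E))).card : ℝ) := by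
      exact_mod_cast (Finset.card_le_card g1).trans Finset.card_biUnion_le
    have g3 : (((Finset.range L).filter (fun l : ℕ => ¬ good i (m i, l))).card : ℝ) * (Vb / 2) ≤
        Hs.card * (K₂ * (ρ * κ * (1 / 4) ^ n / (4 * (Hs.card * K₂ + 1)) * (δ ^ n / δ))) := by
      refine (mul_le_mul_of_nonneg_right g2 (by positivity)).trans ?_
      rw [Finset.sum_mul, ← nsmul_eq_mul]
      exact Finset.sum_le_card_nsmul _ _ _ fun o ho => hbad i hi o ho
    have g4 : (Hs.card : ℝ) * (K₂ * (ρ * κ * (1 / 4) ^ n / (4 * (Hs.card * K₂ + 1)) *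
        (δ ^ n / δ))) ≤ (ρ / δ) / 2 * (Vb / 2) := by
      have b4 : (δ / 4) ^ n = δ ^ n * (1 / 4) ^ n := by rw [← mul_pow]; congr 1; ring
      have b5 : (Hs.card : ℝ) * K₂ / (Hs.card * K₂ + 1) ≤ 1 := by
        rw [div_le_one (by positivity)]
        linarith only [hδ, hδ1]
      have b6 : (Hs.card : ℝ) * (K₂ * (ρ * κ * (1 / 4) ^ n / (4 * (Hs.card * K₂ + 1)) *
        (δ ^ n / δ))) = ((Hs.card : ℝ) * K₂ / (Hs.card * K₂ + 1)) *
          ((ρ / δ) / 2 * (Vb / 2)) := by
        rw [hVb, b4]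
        field_simp
        ring
      rw [b6]
      have b7 : 0 ≤ (ρ / δ) / 2 * (Vb / 2) := by positivity
      nlinarith only [hδ, hδ1, b5, b7]
    have g5 : (((Finset.range L).filter (fun l : ℕ => ¬ good i (m i, l))).card : ℝ) ≤
        (ρ / δ) / 2 := le_of_mul_le_mul_right (g3.trans g4) (by positivity)
    have g6 : (((Finset.range L).filter (fun l : ℕ => good i (m i, l))).card : ℝ) +
        (((Finset.range L).filter (fun l : ℕ => ¬ good i (m i, l))).card : ℝ) = L := by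
      have := Finset.card_filter_add_card_filter_not (s := Finset.range L)
        (fun l : ℕ => good i (m i, l))
      rw [Finset.card_range] at this
      exact_mod_cast this
    linarith only [hL1, g5, g6]
  -- double counting
  have hsumG : (F.card : ℝ) * ((L : ℝ) / 2) ≤ ∑ x ∈ I, ((G x).card : ℝ) := by
    have g1 : ∑ x ∈ I, ((G x).card : ℝ) =
        ∑ i ∈ F, ((I.filter (fun x => m i = x.1 ∧ good i x)).card : ℝ) := by
      have : ∑ x ∈ I, (G x).card = ∑ i ∈ F, (I.filter (fun x => m i = x.1 ∧ good i x)).card := by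
        simp only [hG, Finset.card_filter]
        exact Finset.sum_comm
      exact_mod_cast this
    rw [g1, ← nsmul_eq_mul]
    refine Finset.card_nsmul_le_sum _ _ _ fun i hi => (hgoodcount i hi).trans ?_
    have g2 : ((Finset.range L).filter (fun l : ℕ => good i (m i, l))).card ≤
        (I.filter (fun x => m i = x.1 ∧ good i x)).card := by
      refine Finset.card_le_card_of_injOn (fun l : ℕ => ((m i, l) : ℤ × ℕ)) ?_ ?_
      · intro l hl
        have hl' := Finset.mem_filter.mp (Finset.mem_coe.mp hl)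
        refine Finset.mem_coe.mpr (Finset.mem_filter.mpr ⟨?_, rfl, hl'.2⟩)
        exact Finset.mem_product.mpr ⟨Finset.mem_image_of_mem _ hi, hl'.1⟩
      · intro l _ l' _ hll
        exact (Prod.ext_iff.mp hll).2
    exact_mod_cast g2
  have hcount : (L : ℝ) / 2 * ((F.card : ℝ) / C') ^ (1 / α) ≤
      ((∑ x ∈ I, (T x).card : ℕ) : ℝ) := by
    push_cast
    refine count_step (g := fun x => (G x).card) (t := fun x => (T x).card) I hα hC'0 ?_ ?_ hsumG
    · intro x
      refine (h1 x).trans ?_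
      have : (0 : ℝ) ≤ ((T x).card : ℝ) ^ α := by positivity
      rw [hC']
      nlinarith only [this]
    · intro x
      exact Finset.card_le_card (Finset.filter_subset _ _)
  have hmeas : ((∑ x ∈ I, (T x).card : ℕ) : ENNReal) *
      ENNReal.ofReal ((δ / 4) ^ n * κ / 2) ≤ Kt * volume E := by
    have g1 : ∀ x, ∀ v ∈ T x, ENNReal.ofReal (Vb / 2) ≤
        volume (Metric.ball (p x v) (δ / 4) ∩ E) := by
      intro x v hv
      obtain ⟨i, hi, hpi⟩ := h2 x v hv
      have hgi := (Finset.mem_filter.mp hi).2.2 (off x) (hoff x)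
      rw [← hpi] at hgi
      exact half_ball hE hVb0.le (hball _) hgi
    have g2 := sum_measure_le volume (I.sigma T)
      (fun a => Metric.ball (p a.1 a.2) (δ / 4) ∩ E)
      (fun a _ => Metric.isOpen_ball.measurableSet.inter hE) hE
      (fun a _ => Set.inter_subset_right) (K := Kt) (by
        intro y
        refine le_trans ?_ (hover y)
        rw [Finset.card_filter, Finset.sum_sigma]
        refine Finset.sum_le_sum fun x _ => ?_
        rw [Finset.card_filter]
        refine Finset.sum_le_sum fun v _ => ?_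
        by_cases hy : y ∈ Metric.ball (p x v) (δ / 4) ∩ E
        · rw [if_pos hy, if_pos (Metric.mem_ball.mp hy.1)]
        · rw [if_neg hy]
          exact Nat.zero_le _)
    refine le_trans ?_ g2
    rw [Finset.sum_sigma]
    push_cast
    rw [Finset.sum_mul]
    refine Finset.sum_le_sum fun x _ => ?_
    rw [← nsmul_eq_mul, ← hVb]
    exact Finset.card_nsmul_le_sum _ _ _ fun v hv => g1 x v hv
  exact finish hκ0 hρ0 hC'0 hKt0 hδ hL1 hcount hmeas

end robust

section final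

lemma tube_neg {n : ℕ} (δ : ℝ) (c e : EuclideanSpace ℝ (Fin n)) : tube δ c (-e) = tube δ c e := by
  ext x
  simp only [tube, Set.mem_ofPred_eq, inner_neg_right, abs_neg, smul_neg, neg_smul, neg_neg]

/-- **From the arithmetic Kakeya inequality to tubes, robust form**: a set which contains all but
a small proportion of every tube of the family is large. -/
theorem robust_tubes {α C : ℝ} (hα : 1 ≤ α) (hC : 0 ≤ C) {S : Finset ℚ} (hS : (-1 : ℚ) ∉ S)
    (h : ∀ A : Finset (ℤ × ℤ),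
      ((A.image (fun p : ℤ × ℤ => (p.1 : ℚ) + (-1) * (p.2 : ℚ))).card : ℝ) ≤
      C * (max ((A.image (fun p : ℤ × ℤ => (p.2 : ℚ))).card : ℝ)
          ((S.sup (fun r : ℚ => (A.image (fun p : ℤ × ℤ => (p.1 : ℚ) + r * (p.2 : ℚ))).card) : ℕ)
            : ℝ)) ^ α) (d : ℕ) :
    ∃ c₀ > 0, ∃ κ₁ > 0, ∀ {ι : Type} (c e : ι → EuclideanSpace ℝ (Fin (d + 1))) (F : Finset ι)
      (δ : ℝ), 0 < δ → δ < 1 → (∀ i ∈ F, ‖e i‖ = 1) →
      (∀ i ∈ F, ∀ i' ∈ F, i ≠ i' → δ ≤ ‖e i - e i'‖) →
      ∀ E : Set (EuclideanSpace ℝ (Fin (d + 1))), MeasurableSet E →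
      (∀ i ∈ F, volume (tube δ (c i) (e i) \ E) ≤ ENNReal.ofReal (κ₁ * δ ^ d)) →
      ENNReal.ofReal (c₀ * δ ^ d * (F.card : ℝ) ^ (1 / α)) ≤ volume E := by
  classical
  obtain ⟨θ, hθ⟩ : ∃ θ : ℝ, θ = 1 / (2 * (d + 1 : ℕ)) := ⟨_, rfl⟩
  have hθ0 : 0 < θ := by rw [hθ]; positivity
  choose c₁ hc₁ k₁ hk₁ hbound using
    fun j : Fin (d + 1) => robust_class hα hC hS h hθ0 j
  obtain ⟨j₀, -, hj₀⟩ := Finset.exists_min_image Finset.univ c₁ ⟨0, Finset.mem_univ _⟩
  obtain ⟨j₁, -, hj₁⟩ := Finset.exists_min_image Finset.univ k₁ ⟨0, Finset.mem_univ _⟩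
  have hαpos : 0 < α := by linarith only [hα]
  refine ⟨c₁ j₀ / (2 * (d + 1 : ℕ)), by have := hc₁ j₀; positivity, k₁ j₁, hk₁ j₁, ?_⟩
  intro ι c e F₀ δ hδ hδ1 he hsep E hE hvol
  set F : Fin (d + 1) × Bool → Finset ι := fun x =>
    F₀.filter (fun i => θ ≤ (if x.2 then e i else -e i) x.1) with hF
  have hcover : ∀ i ∈ F₀, ∃ x, i ∈ F x := by
    intro i hi
    by_contra hcon
    push Not at hcon
    have h1 : ‖e i‖ ≤ (d + 1 : ℕ) * θ := by
      refine norm_le_of_coord hθ0.le fun k => ?_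
      have h2 := hcon (k, true)
      have h3 := hcon (k, false)
      simp only [hF, Finset.mem_filter, hi, true_and, if_true, not_le,
        Bool.false_eq_true, if_false, PiLp.neg_apply] at h2 h3
      rw [abs_le]
      constructor <;> linarith
    rw [he i hi, hθ] at h1
    have h4 : ((d + 1 : ℕ) : ℝ) * (1 / (2 * (d + 1 : ℕ))) = 1 / 2 := by
      field_simp
    rw [h4] at h1
    norm_num at h1
  have hsum : (F₀.card : ℝ) ≤ ∑ x, ((F x).card : ℝ) := by
    have h1 : F₀ ⊆ Finset.univ.biUnion F := by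
      intro i hi
      obtain ⟨x, hx⟩ := hcover i hi
      exact Finset.mem_biUnion.mpr ⟨x, Finset.mem_univ _, hx⟩
    have h2 := (Finset.card_le_card h1).trans Finset.card_biUnion_le
    exact_mod_cast h2
  have hpow : (F₀.card : ℝ) ^ (1 / α) ≤ ∑ x, ((F x).card : ℝ) ^ (1 / α) :=
    (Real.rpow_le_rpow (by positivity) hsum (by positivity)).trans
      (rpow_sum_le _ _ (fun x _ => by positivity) (by positivity)
        (by rw [div_le_one hαpos]; exact hα))
  have h2 : δ ^ (d + 1) / δ = δ ^ d := by rw [div_eq_iff hδ.ne', pow_succ]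
  have hclass : ∀ x, ENNReal.ofReal (c₁ j₀ * δ ^ d * ((F x).card : ℝ) ^ (1 / α)) ≤ volume E := by
    intro x
    have h1 := hbound x.1 c (fun i => if x.2 then e i else -e i) (F x) δ
      (by
        intro i hi
        have hi' := (Finset.mem_filter.mp hi).1
        split_ifs
        · exact he i hi'
        · rw [norm_neg]; exact he i hi')
      (by
        intro i hi
        exact (Finset.mem_filter.mp hi).2)
      (by
        intro i hi i' hi' hne
        have hi1 := (Finset.mem_filter.mp hi).1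
        have hi2 := (Finset.mem_filter.mp hi').1
        split_ifs
        · exact hsep i hi1 i' hi2 hne
        · have : -e i - -e i' = -(e i - e i') := by abel
          rw [this, norm_neg]
          exact hsep i hi1 i' hi2 hne)
      hδ hδ1 E hE
      (by
        intro i hi
        have h3 : tube δ (c i) (if x.2 then e i else -e i) = tube δ (c i) (e i) := by
          split_ifs
          · rfl
          · exact tube_neg _ _ _
        rw [h3, h2]
        refine (hvol i (Finset.mem_filter.mp hi).1).trans (ENNReal.ofReal_le_ofReal ?_)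
        have := hj₁ x.1 (Finset.mem_univ _)
        gcongr)
    rw [h2] at h1
    refine le_trans (ENNReal.ofReal_le_ofReal ?_) h1
    have := hj₀ x.1 (Finset.mem_univ _)
    gcongr
  have hpos : (0 : ℝ) < 2 * (d + 1 : ℕ) := by positivity
  have htotal : ENNReal.ofReal (c₁ j₀ * δ ^ d * (F₀.card : ℝ) ^ (1 / α)) ≤
      ENNReal.ofReal (2 * (d + 1 : ℕ)) * volume E := by
    calc ENNReal.ofReal (c₁ j₀ * δ ^ d * (F₀.card : ℝ) ^ (1 / α)) ≤
        ENNReal.ofReal (∑ x, c₁ j₀ * δ ^ d * ((F x).card : ℝ) ^ (1 / α)) := by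
          apply ENNReal.ofReal_le_ofReal
          rw [← Finset.mul_sum]
          have := hc₁ j₀
          exact mul_le_mul_of_nonneg_left hpow (by positivity)
      _ = ∑ x, ENNReal.ofReal (c₁ j₀ * δ ^ d * ((F x).card : ℝ) ^ (1 / α)) := by
          rw [ENNReal.ofReal_sum_of_nonneg]
          intro x _
          have := hc₁ j₀
          positivity
      _ ≤ ∑ _x : Fin (d + 1) × Bool, volume E := Finset.sum_le_sum fun x _ => hclass x
      _ = ENNReal.ofReal (2 * (d + 1 : ℕ)) * volume E := by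
          rw [Finset.sum_const, Finset.card_univ, Fintype.card_prod, Fintype.card_fin,
            Fintype.card_bool, nsmul_eq_mul]
          congr 1
          have : (2 * ((d + 1 : ℕ) : ℝ)) = (((d + 1) * 2 : ℕ) : ℝ) := by push_cast; ring
          rw [this, ENNReal.ofReal_natCast]
  have hrw : c₁ j₀ / (2 * (d + 1 : ℕ)) * δ ^ d * (F₀.card : ℝ) ^ (1 / α) =
      (c₁ j₀ * δ ^ d * (F₀.card : ℝ) ^ (1 / α)) / (2 * (d + 1 : ℕ)) := by ring
  rw [hrw, ENNReal.ofReal_div_of_pos hpos]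
  refine ENNReal.div_le_of_le_mul ?_
  rw [mul_comm (volume E)]
  exact htotal

/-- The union of the tubes. -/
theorem union_tubes {α C : ℝ} (hα : 1 ≤ α) (hC : 0 ≤ C) {S : Finset ℚ} (hS : (-1 : ℚ) ∉ S)
    (h : ∀ A : Finset (ℤ × ℤ),
      ((A.image (fun p : ℤ × ℤ => (p.1 : ℚ) + (-1) * (p.2 : ℚ))).card : ℝ) ≤
      C * (max ((A.image (fun p : ℤ × ℤ => (p.2 : ℚ))).card : ℝ)
          ((S.sup (fun r : ℚ => (A.image (fun p : ℤ × ℤ => (p.1 : ℚ) + r * (p.2 : ℚ))).card) : ℕ)
            : ℝ)) ^ α) (d : ℕ) :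
    ∃ c₀ > 0, ∀ (N : ℕ) (δ : ℝ) (c e : Fin N → EuclideanSpace ℝ (Fin (d + 1))),
      0 < δ → δ < 1 → (∀ i, ‖e i‖ = 1) → (∀ i i', i ≠ i' → δ ≤ ‖e i - e i'‖) →
      ENNReal.ofReal (c₀ * δ ^ d * (N : ℝ) ^ (1 / α)) ≤ volume (⋃ i, tube δ (c i) (e i)) := by
  obtain ⟨c₀, hc₀, κ₁, hκ₁, H⟩ := robust_tubes hα hC hS h d
  refine ⟨c₀, hc₀, fun N δ c e hδ hδ1 he hsep => ?_⟩
  have h1 := H c e Finset.univ δ hδ hδ1 (fun i _ => he i) (fun i _ i' _ hne => hsep i i' hne)
    (⋃ i, tube δ (c i) (e i)) (MeasurableSet.iUnion fun i => measurableSet_tube _ _ _)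
    (fun i _ => by
      have h0 : tube δ (c i) (e i) \ (⋃ i, tube δ (c i) (e i)) = ∅ := by
        ext x
        simp only [Set.mem_sdiff, Set.mem_iUnion, Set.mem_empty_iff_false, iff_false, not_and,
          not_not]
        exact fun hx => ⟨i, hx⟩
      rw [h0, measure_empty]
      exact zero_le)
  rwa [Finset.card_univ, Fintype.card_fin] at h1

end final

end Pool.Agent.H32.AKT
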