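import Pool.Agent.H32.Tree

/-!
# Cylinders and tubes in Euclidean space
-/

open MeasureTheory Filter Set
open scoped Topology ENNReal RealInnerProductSpace

namespace Pool.Agent.H32.Tubes

variable {d : ℕ}

/-- Solid cylinder with centre `c`, axis direction `e`, half-length `L`, radius `r`. -/
def cyl (L r : ℝ) (c e : EuclideanSpace ℝ (Fin (d + 1))) : Set (EuclideanSpace ℝ (Fin (d + 1))) :=
  {x | |⟪x - c, e⟫| ≤ L ∧ ‖(x - c) - ⟪x - c, e⟫ • e‖ ≤ r}

lemma measurableSet_cyl (L r : ℝ) (c e : EuclideanSpace ℝ (Fin (d + 1))) :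
    MeasurableSet (cyl L r c e) := by
  have h1 : Continuous fun x : EuclideanSpace ℝ (Fin (d + 1)) => ⟪x - c, e⟫ := by fun_prop
  have h2 : IsClosed {x : EuclideanSpace ℝ (Fin (d + 1)) | |⟪x - c, e⟫| ≤ L} :=
    isClosed_le h1.abs continuous_const
  have h3 : IsClosed {x : EuclideanSpace ℝ (Fin (d + 1)) |
      ‖(x - c) - ⟪x - c, e⟫ • e‖ ≤ r} :=
    isClosed_le ((continuous_id.sub continuous_const).sub (h1.smul continuous_const)).norm
      continuous_const
  exact (h2.inter h3).measurableSet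

lemma exists_basis (e : EuclideanSpace ℝ (Fin (d + 1))) (he : ‖e‖ = 1) :
    ∃ b : OrthonormalBasis (Fin (d + 1)) ℝ (EuclideanSpace ℝ (Fin (d + 1))), b 0 = e := by
  have hv : Orthonormal ℝ (({0} : Set (Fin (d + 1))).domRestrict (fun _ => e)) := by
    constructor
    · intro i; exact he
    · intro i j hij
      exact absurd (Subsingleton.elim i j) hij
  obtain ⟨b, hb⟩ := hv.exists_orthonormalBasis_extension_of_card_eq (by simp)
  exact ⟨b, hb 0 (by simp)⟩

lemma volume_box (b : OrthonormalBasis (Fin (d + 1)) ℝ (EuclideanSpace ℝ (Fin (d + 1))))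
    (c : EuclideanSpace ℝ (Fin (d + 1))) (r : Fin (d + 1) → ℝ) :
    volume {x : EuclideanSpace ℝ (Fin (d + 1)) | ∀ j, |⟪b j, x - c⟫| ≤ r j} =
      ∏ j, ENNReal.ofReal (2 * r j) := by
  have h1 : {x : EuclideanSpace ℝ (Fin (d + 1)) | ∀ j, |⟪b j, x - c⟫| ≤ r j} =
      (fun x => (b.repr x).ofLp) ⁻¹'
        (Set.univ.pi fun j => Set.Icc (⟪b j, c⟫ - r j) (⟪b j, c⟫ + r j)) := by
    ext x
    simp only [Set.mem_ofPred_eq, Set.mem_preimage, Set.mem_univ_pi, Set.mem_Icc]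
    refine forall_congr' fun j => ?_
    rw [OrthonormalBasis.repr_apply_apply, inner_sub_right, abs_le]
    constructor
    · rintro ⟨h1, h2⟩; constructor <;> linarith
    · rintro ⟨h1, h2⟩; constructor <;> linarith
  have hmp : MeasurePreserving (fun x : EuclideanSpace ℝ (Fin (d + 1)) => (b.repr x).ofLp)
      volume volume := (PiLp.volume_preserving_ofLp (Fin (d + 1))).comp b.measurePreserving_repr
  rw [h1, hmp.measure_preimage (MeasurableSet.univ_pi fun j => measurableSet_Icc).nullMeasurableSet,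
    volume_pi_pi]
  refine Finset.prod_congr rfl fun j _ => ?_
  rw [Real.volume_Icc]
  congr 1
  ring

lemma volume_cyl_le (L r : ℝ) (hL : 0 ≤ L) (hr : 0 ≤ r) (c e : EuclideanSpace ℝ (Fin (d + 1)))
    (he : ‖e‖ = 1) :
    volume (cyl L r c e) ≤ ENNReal.ofReal (2 ^ (d + 1) * L * r ^ d) := by
  obtain ⟨b, hb⟩ := exists_basis e he
  have hsub : cyl L r c e ⊆ {x | ∀ j, |⟪b j, x - c⟫| ≤ (Fin.cons L (fun _ => r) :
      Fin (d + 1) → ℝ) j} := by
    intro x hx j
    refine Fin.cases ?_ (fun j => ?_) j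
    · simp only [Fin.cons_zero]
      rw [hb, real_inner_comm]
      exact hx.1
    · simp only [Fin.cons_succ]
      have horth : ⟪b j.succ, e⟫ = 0 := by
        rw [← hb]
        exact b.orthonormal.2 (Fin.succ_ne_zero j)
      have h1 : ⟪b j.succ, x - c⟫ = ⟪b j.succ, (x - c) - ⟪x - c, e⟫ • e⟫ := by
        rw [inner_sub_right (b j.succ) (x - c), inner_smul_right, horth]; ring
      rw [h1]
      calc |⟪b j.succ, (x - c) - ⟪x - c, e⟫ • e⟫| ≤ ‖b j.succ‖ * ‖(x - c) - ⟪x - c, e⟫ • e‖ :=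
            abs_real_inner_le_norm _ _
        _ = ‖(x - c) - ⟪x - c, e⟫ • e‖ := by rw [b.orthonormal.1, one_mul]
        _ ≤ r := hx.2
  refine (measure_mono hsub).trans (le_of_eq ?_)
  rw [volume_box, Fin.prod_univ_succ]
  simp only [Fin.cons_zero, Fin.cons_succ, Finset.prod_const, Finset.card_univ, Fintype.card_fin]
  rw [← ENNReal.ofReal_pow (by positivity), ← ENNReal.ofReal_mul (by positivity)]
  congr 1
  rw [mul_pow]
  ring

/-- A subset of a cylinder with small extent along the axis has small volume. -/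
lemma volume_slice_le (L₀ L r : ℝ) (hL : 0 ≤ L) (hr : 0 ≤ r)
    (c e : EuclideanSpace ℝ (Fin (d + 1))) (he : ‖e‖ = 1)
    (S : Set (EuclideanSpace ℝ (Fin (d + 1)))) (hS : S ⊆ cyl L₀ r c e)
    (hd : ∀ x ∈ S, ∀ y ∈ S, |⟪x - y, e⟫| ≤ L) :
    volume S ≤ ENNReal.ofReal (2 ^ (d + 1) * L * r ^ d) := by
  rcases S.eq_empty_or_nonempty with h | ⟨y, hy⟩
  · rw [h]; simp
  refine (measure_mono ?_).trans (volume_cyl_le L r hL hr (c + ⟪y - c, e⟫ • e) e he)
  intro x hx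
  have hee : ⟪e, e⟫ = (1 : ℝ) := by rw [real_inner_self_eq_norm_sq, he]; norm_num
  have h1 : ⟪x - (c + ⟪y - c, e⟫ • e), e⟫ = ⟪x - y, e⟫ := by
    rw [inner_sub_left, inner_add_left, inner_smul_left, hee, inner_sub_left, inner_sub_left]
    simp
  have h2 : ⟪x - c, e⟫ = ⟪x - y, e⟫ + ⟪y - c, e⟫ := by
    rw [← inner_add_left]; congr 1; abel
  refine ⟨?_, ?_⟩
  · rw [h1]; exact hd x hx y hy
  · rw [h1]
    have h3 : x - (c + ⟪y - c, e⟫ • e) - ⟪x - y, e⟫ • e = (x - c) - ⟪x - c, e⟫ • e := by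
      rw [h2, add_smul]; abel
    rw [h3]
    exact (hS hx).2

variable (b : OrthonormalBasis (Fin (d + 1)) ℝ (EuclideanSpace ℝ (Fin (d + 1))))

/-- `j`-th slope of the direction `e` in the frame `b`. -/
noncomputable def slope (e : EuclideanSpace ℝ (Fin (d + 1))) (j : Fin d) : ℝ :=
  ⟪b j.castSucc, e⟫ / ⟪b (Fin.last d), e⟫

/-- `j`-th coordinate of the point where the line `c + ℝ e` meets `{x | ⟪b (last), x⟫ = 0}`. -/
noncomputable def foot (c e : EuclideanSpace ℝ (Fin (d + 1))) (j : Fin d) : ℝ :=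
  ⟪b j.castSucc, c⟫ - slope b e j * ⟪b (Fin.last d), c⟫

lemma abs_inner_basis_le (j : Fin (d + 1)) (x : EuclideanSpace ℝ (Fin (d + 1))) :
    |⟪b j, x⟫| ≤ ‖x‖ := by
  have := abs_real_inner_le_norm (b j) x
  rwa [b.orthonormal.1, one_mul] at this

lemma abs_slope_le {c₀ : ℝ} (hc₀ : 0 < c₀) (e : EuclideanSpace ℝ (Fin (d + 1))) (he : ‖e‖ = 1)
    (h : c₀ ≤ |⟪b (Fin.last d), e⟫|) (j : Fin d) : |slope b e j| ≤ 1 / c₀ := by
  unfold slope
  rw [abs_div]
  have h1 := abs_inner_basis_le b j.castSucc e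
  rw [he] at h1
  exact div_le_div₀ zero_le_one h1 hc₀ h

/-- Points of the tube are close to the axis, measured at equal height. -/
lemma near_axis {c₀ δ L : ℝ} (hc₀ : 0 < c₀) (c e : EuclideanSpace ℝ (Fin (d + 1)))
    (he : ‖e‖ = 1) (h : c₀ ≤ |⟪b (Fin.last d), e⟫|) (j : Fin d)
    (x : EuclideanSpace ℝ (Fin (d + 1))) (hx : x ∈ cyl L δ c e) :
    |⟪b j.castSucc, x⟫ - (foot b c e j + slope b e j * ⟪b (Fin.last d), x⟫)| ≤
      (1 + 1 / c₀) * δ := by
  set y := (x - c) - ⟪x - c, e⟫ • e with hy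
  have hy1 : ‖y‖ ≤ δ := hx.2
  have hδ : 0 ≤ δ := (norm_nonneg _).trans hy1
  have hlast : ⟪b (Fin.last d), e⟫ ≠ 0 := by
    intro h0
    rw [h0, abs_zero] at h
    linarith
  have hslope : slope b e j * ⟪b (Fin.last d), e⟫ = ⟪b j.castSucc, e⟫ := by
    unfold slope
    field_simp
  have hx' : x = c + ⟪x - c, e⟫ • e + y := by rw [hy]; abel
  have e1 : ∀ k : Fin (d + 1), ⟪b k, x⟫ = ⟪b k, c⟫ + ⟪x - c, e⟫ * ⟪b k, e⟫ + ⟪b k, y⟫ := by
    intro k
    conv_lhs => rw [hx']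
    rw [inner_add_right, inner_add_right, inner_smul_right]
  have e2 : ⟪b j.castSucc, x⟫ - (foot b c e j + slope b e j * ⟪b (Fin.last d), x⟫) =
      ⟪b j.castSucc, y⟫ - slope b e j * ⟪b (Fin.last d), y⟫ := by
    rw [e1, e1 (Fin.last d)]
    unfold foot
    rw [← hslope]
    ring
  rw [e2]
  have h1 := abs_inner_basis_le b j.castSucc y
  have h2 := abs_inner_basis_le b (Fin.last d) y
  have h3 := abs_slope_le b hc₀ e he h j
  calc |⟪b j.castSucc, y⟫ - slope b e j * ⟪b (Fin.last d), y⟫|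
      ≤ |⟪b j.castSucc, y⟫| + |slope b e j * ⟪b (Fin.last d), y⟫| := abs_sub _ _
    _ ≤ δ + (1 / c₀) * δ := by
        rw [abs_mul]
        apply add_le_add (h1.trans hy1)
        exact mul_le_mul h3 (h2.trans hy1) (abs_nonneg _) (by positivity)
    _ = (1 + 1 / c₀) * δ := by ring

lemma norm_sub_lt {δ : ℝ} (hδ : 0 < δ) (hd : 1 ≤ d) (e e' : EuclideanSpace ℝ (Fin (d + 1)))
    (he : ‖e‖ = 1) (he' : ‖e'‖ = 1)
    (hsign : 0 < ⟪b (Fin.last d), e⟫ * ⟪b (Fin.last d), e'⟫)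
    (hs : ∀ j, |slope b e j - slope b e' j| < δ / d) : ‖e - e'‖ < δ := by
  have hd' : (1 : ℝ) ≤ d := by exact_mod_cast hd
  set s := ⟪b (Fin.last d), e⟫ with hsdef
  set s' := ⟪b (Fin.last d), e'⟫ with hs'def
  have hs0 : s ≠ 0 := by rintro h; rw [h] at hsign; simp at hsign
  have hs0' : s' ≠ 0 := by rintro h; rw [h] at hsign; simp at hsign
  have hs1 : |s| ≤ 1 := he ▸ abs_inner_basis_le b (Fin.last d) e
  have hs1' : |s'| ≤ 1 := he' ▸ abs_inner_basis_le b (Fin.last d) e'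
  set p := ⟪e, e'⟫ with hp
  set u := s⁻¹ • e - s'⁻¹ • e' with hu
  have hu1 : ‖u‖ ^ 2 = (s⁻¹) ^ 2 + (s'⁻¹) ^ 2 - 2 * (s⁻¹ * s'⁻¹ * p) := by
    rw [hu, norm_sub_sq_real, norm_smul, norm_smul, he, he', inner_smul_left, inner_smul_right]
    simp
    ring
  have hu2 : ‖u‖ ^ 2 = ∑ j, (slope b e j - slope b e' j) ^ 2 := by
    rw [← real_inner_self_eq_norm_sq, ← b.sum_inner_mul_inner u u, Fin.sum_univ_castSucc]
    have h1 : ⟪b (Fin.last d), u⟫ = 0 := by
      rw [hu, inner_sub_right, inner_smul_right, inner_smul_right, ← hsdef, ← hs'def,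
        inv_mul_cancel₀ hs0, inv_mul_cancel₀ hs0', sub_self]
    rw [h1, mul_zero, add_zero]
    refine Finset.sum_congr rfl fun j _ => ?_
    have h2 : ⟪b j.castSucc, u⟫ = slope b e j - slope b e' j := by
      rw [hu, inner_sub_right, inner_smul_right, inner_smul_right]
      unfold slope
      rw [← hsdef, ← hs'def]
      ring
    rw [real_inner_comm, h2]
    ring
  have hu3 : ‖u‖ ^ 2 < δ ^ 2 := by
    rw [hu2]
    have hne : (Finset.univ : Finset (Fin d)).Nonempty := ⟨⟨0, by omega⟩, Finset.mem_univ _⟩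
    calc ∑ j, (slope b e j - slope b e' j) ^ 2 < ∑ _j : Fin d, (δ / d) ^ 2 := by
          apply Finset.sum_lt_sum_of_nonempty hne
          intro j _
          rw [← sq_abs]
          exact pow_lt_pow_left₀ (hs j) (abs_nonneg _) two_ne_zero
      _ = δ ^ 2 / d := by
          rw [Finset.sum_const, Finset.card_univ, Fintype.card_fin, nsmul_eq_mul]
          field_simp
      _ ≤ δ ^ 2 := div_le_self (by positivity) hd'
  have hp1 : p ≤ 1 := by
    have := real_inner_le_norm e e'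
    rw [he, he', mul_one] at this
    exact this
  have hm1 : s * s' ≤ 1 := by
    calc s * s' ≤ |s * s'| := le_abs_self _
      _ = |s| * |s'| := abs_mul _ _
      _ ≤ 1 * 1 := mul_le_mul hs1 hs1' (abs_nonneg _) zero_le_one
      _ = 1 := one_mul 1
  have hnorm : ‖e - e'‖ ^ 2 = 2 - 2 * p := by
    rw [norm_sub_sq_real, he, he']; ring
  have hkey : 2 - 2 * p ≤ ‖u‖ ^ 2 := by
    rw [hu1]
    have h1 : 2 * (s⁻¹ * s'⁻¹) ≤ (s⁻¹) ^ 2 + (s'⁻¹) ^ 2 := by nlinarith [sq_nonneg (s⁻¹ - s'⁻¹)]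
    have h2 : 1 ≤ s⁻¹ * s'⁻¹ := by
      rw [← mul_inv]
      exact (one_le_inv₀ hsign).mpr hm1
    nlinarith
  have h4 : ‖e - e'‖ ^ 2 < δ ^ 2 := by rw [hnorm]; linarith
  exact lt_of_pow_lt_pow_left₀ 2 hδ.le h4


end Pool.Agent.H32.Tubes
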