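import Mathlib
import Pool.Agent.H32.AKTubes
import Pool.Agent.H32.Tubes

/-!
# Typical multiplicity in families of tubes with separated directions
-/

set_option autoImplicit false

open MeasureTheory Set

open scoped RealInnerProductSpace ENNReal

namespace Pool.Agent.H32.AKT

section typical

variable {d : ℕ}

lemma volume_tube_le {δ : ℝ} (hδ : 0 ≤ δ) (c e : EuclideanSpace ℝ (Fin (d + 1)))
    (he : ‖e‖ = 1) : volume (tube δ c e) ≤ ENNReal.ofReal (2 ^ d * δ ^ d) := by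
  have h := Pool.Agent.H32.Tubes.volume_cyl_le (1 / 2) δ (by norm_num) hδ c e he
  refine le_trans (le_of_eq ?_) (h.trans (le_of_eq ?_))
  · rfl
  · congr 1
    rw [pow_succ]
    ring

/-- The number of tubes through a point. -/
noncomputable def mult {N : ℕ} (δ : ℝ) (c e : Fin N → EuclideanSpace ℝ (Fin (d + 1)))
    (x : EuclideanSpace ℝ (Fin (d + 1))) : ℝ :=
  ∑ i, (tube δ (c i) (e i)).indicator (fun _ => (1 : ℝ)) x

lemma mult_nonneg {N : ℕ} (δ : ℝ) (c e : Fin N → EuclideanSpace ℝ (Fin (d + 1)))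
    (x : EuclideanSpace ℝ (Fin (d + 1))) : 0 ≤ mult δ c e x :=
  Finset.sum_nonneg fun _ _ => Set.indicator_nonneg (fun _ _ => zero_le_one) x

lemma measurable_mult {N : ℕ} (δ : ℝ) (c e : Fin N → EuclideanSpace ℝ (Fin (d + 1))) :
    Measurable (mult δ c e) := by
  unfold mult
  refine Finset.measurable_sum _ fun _ _ => ?_
  exact measurable_const.indicator (measurableSet_tube _ _ _)

lemma lintegral_mult_le {N : ℕ} {δ : ℝ} (hδ : 0 ≤ δ)
    (c e : Fin N → EuclideanSpace ℝ (Fin (d + 1))) (he : ∀ i, ‖e i‖ = 1) :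
    ∫⁻ x, ENNReal.ofReal (mult δ c e x) ≤ ENNReal.ofReal (2 ^ d * δ ^ d * N) := by
  have h1 : ∀ x, ENNReal.ofReal (mult δ c e x) =
      ∑ i, (tube δ (c i) (e i)).indicator (1 : EuclideanSpace ℝ (Fin (d + 1)) → ℝ≥0∞) x := by
    intro x
    unfold mult
    rw [ENNReal.ofReal_sum_of_nonneg (fun i _ => Set.indicator_nonneg (fun _ _ => zero_le_one) x)]
    refine Finset.sum_congr rfl fun i _ => ?_
    by_cases hx : x ∈ tube δ (c i) (e i)
    · rw [Set.indicator_of_mem hx, Set.indicator_of_mem hx]; simp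
    · rw [Set.indicator_of_notMem hx, Set.indicator_of_notMem hx]; simp
  simp only [h1]
  rw [lintegral_finsetSum]
  · calc ∑ i, ∫⁻ x, (tube δ (c i) (e i)).indicator
            (1 : EuclideanSpace ℝ (Fin (d + 1)) → ℝ≥0∞) x =
        ∑ i, volume (tube δ (c i) (e i)) := by
          refine Finset.sum_congr rfl fun i _ => ?_
          rw [lintegral_indicator_one (measurableSet_tube _ _ _)]
      _ ≤ ∑ _i : Fin N, ENNReal.ofReal (2 ^ d * δ ^ d) :=
          Finset.sum_le_sum fun i _ => volume_tube_le hδ _ _ (he i)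
      _ = ENNReal.ofReal (2 ^ d * δ ^ d * N) := by
          rw [Finset.sum_const, Finset.card_univ, Fintype.card_fin, nsmul_eq_mul,
            ENNReal.ofReal_mul (by positivity : (0 : ℝ) ≤ 2 ^ d * δ ^ d), ENNReal.ofReal_natCast,
            mul_comm]
  · intro i _
    exact measurable_one.indicator (measurableSet_tube _ _ _)

/-- Bad tubes are few. -/
lemma bad_few {α c₀ κ₁ A δ η : ℝ} {N : ℕ} (hα : 1 ≤ α) (hc₀ : 0 < c₀) (hη : 0 < η)
    (hA : 2 ^ d / (c₀ * η ^ (1 / α)) ≤ A) (hN : 0 < N) (hδ : 0 < δ)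
    (c e : Fin N → EuclideanSpace ℝ (Fin (d + 1))) (he : ∀ i, ‖e i‖ = 1)
    (H : ∀ (F : Finset (Fin N)) (E : Set (EuclideanSpace ℝ (Fin (d + 1)))), MeasurableSet E →
      (∀ i ∈ F, volume (tube δ (c i) (e i) \ E) ≤ ENNReal.ofReal (κ₁ * δ ^ d)) →
      ENNReal.ofReal (c₀ * δ ^ d * (F.card : ℝ) ^ (1 / α)) ≤ volume E) :
    (1 - η) * N ≤ (({i | ENNReal.ofReal (κ₁ * δ ^ d) ≤ volume (tube δ (c i) (e i) ∩
      {x | mult δ c e x ≤ A * (N : ℝ) ^ (1 - 1 / α)})} : Set (Fin N)).ncard : ℝ) := by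
  classical
  have hαpos : 0 < α := by linarith
  have hN' : (0 : ℝ) < N := by exact_mod_cast hN
  have hA0 : 0 < A := lt_of_lt_of_le (by positivity) hA
  set G : Set (EuclideanSpace ℝ (Fin (d + 1))) :=
    {x | mult δ c e x ≤ A * (N : ℝ) ^ (1 - 1 / α)} with hG
  have hGm : MeasurableSet G := measurableSet_le (measurable_mult δ c e) measurable_const
  set F := Finset.univ.filter (fun i : Fin N => ¬ (ENNReal.ofReal (κ₁ * δ ^ d) ≤
      volume (tube δ (c i) (e i) ∩ G))) with hF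
  have h1 := H F Gᶜ hGm.compl (by
    intro i hi
    have h2 := (Finset.mem_filter.mp hi).2
    rw [not_le] at h2
    have h3 : tube δ (c i) (e i) \ Gᶜ = tube δ (c i) (e i) ∩ G := by
      ext x; simp
    rw [h3]
    exact h2.le)
  have h2 : ENNReal.ofReal (A * (N : ℝ) ^ (1 - 1 / α)) * volume Gᶜ ≤
      ENNReal.ofReal (2 ^ d * δ ^ d * N) := by
    refine le_trans ?_ (lintegral_mult_le hδ.le c e he)
    refine le_trans (mul_le_mul_right (measure_mono ?_) _)
      (mul_meas_ge_le_lintegral (measurable_mult δ c e).ennreal_ofReal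
        (ENNReal.ofReal (A * (N : ℝ) ^ (1 - 1 / α))))
    intro x hx
    simp only [hG, Set.mem_compl_iff, Set.mem_ofPred_eq, not_le] at hx ⊢
    exact ENNReal.ofReal_le_ofReal hx.le
  have h3 : ENNReal.ofReal ((A * (N : ℝ) ^ (1 - 1 / α)) *
      (c₀ * δ ^ d * (F.card : ℝ) ^ (1 / α))) ≤ ENNReal.ofReal (2 ^ d * δ ^ d * N) := by
    rw [ENNReal.ofReal_mul (by positivity)]
    exact (mul_le_mul_right h1 _).trans h2
  rw [ENNReal.ofReal_le_ofReal_iff (by positivity)] at h3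
  have h4 : (F.card : ℝ) ^ (1 / α) ≤ (η * N) ^ (1 / α) := by
    have e1 : (N : ℝ) = (N : ℝ) ^ (1 - 1 / α) * (N : ℝ) ^ (1 / α) := by
      rw [← Real.rpow_add hN']
      simp
    have e2 : 2 ^ d * δ ^ d * (N : ℝ) ≤ (A * (N : ℝ) ^ (1 - 1 / α)) *
        (c₀ * δ ^ d * (η * N) ^ (1 / α)) := by
      rw [Real.mul_rpow hη.le hN'.le]
      rw [div_le_iff₀ (by positivity)] at hA
      calc 2 ^ d * δ ^ d * (N : ℝ) ≤ (A * (c₀ * η ^ (1 / α))) * δ ^ d * (N : ℝ) := by gcongr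
        _ = (A * (c₀ * η ^ (1 / α))) * δ ^ d * ((N : ℝ) ^ (1 - 1 / α) * (N : ℝ) ^ (1 / α)) := by
            rw [← e1]
        _ = _ := by ring
    have e3 := h3.trans e2
    have e4 : (A * (N : ℝ) ^ (1 - 1 / α)) * (c₀ * δ ^ d * (F.card : ℝ) ^ (1 / α)) =
        ((A * (N : ℝ) ^ (1 - 1 / α)) * (c₀ * δ ^ d)) * (F.card : ℝ) ^ (1 / α) := by ring
    have e5 : (A * (N : ℝ) ^ (1 - 1 / α)) * (c₀ * δ ^ d * (η * N) ^ (1 / α)) =
        ((A * (N : ℝ) ^ (1 - 1 / α)) * (c₀ * δ ^ d)) * (η * N) ^ (1 / α) := by ring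
    rw [e4, e5] at e3
    exact le_of_mul_le_mul_left e3 (by positivity)
  have h5 : (F.card : ℝ) ≤ η * N := by
    have := Real.rpow_le_rpow (by positivity) h4 hαpos.le
    rwa [← Real.rpow_mul (by positivity), ← Real.rpow_mul (by positivity),
      one_div_mul_cancel hαpos.ne', Real.rpow_one, Real.rpow_one] at this
  have h6 := Set.ncard_add_ncard_compl ({i | ENNReal.ofReal (κ₁ * δ ^ d) ≤
    volume (tube δ (c i) (e i) ∩ G)} : Set (Fin N))
  have h7 : ({i | ENNReal.ofReal (κ₁ * δ ^ d) ≤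
    volume (tube δ (c i) (e i) ∩ G)} : Set (Fin N))ᶜ = (F : Set (Fin N)) := by
    ext i
    simp [hF]
  rw [h7, Set.ncard_coe_finset, Nat.card_fin] at h6
  have h8 : ((({i | ENNReal.ofReal (κ₁ * δ ^ d) ≤
      volume (tube δ (c i) (e i) ∩ G)} : Set (Fin N)).ncard : ℕ) : ℝ) + (F.card : ℝ) = N := by
    exact_mod_cast h6
  linarith

end typical

section norm

variable {d : ℕ}

lemma eLpNorm_le_of_bounded {B δ q : ℝ} {N : ℕ} (hB : 0 ≤ B) (hδ : 0 ≤ δ) (hq : 1 ≤ q)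
    (c e : Fin N → EuclideanSpace ℝ (Fin (d + 1))) (he : ∀ i, ‖e i‖ = 1)
    (G : Set (EuclideanSpace ℝ (Fin (d + 1)))) (hG : ∀ x ∈ G, mult δ c e x ≤ B) :
    eLpNorm (G.indicator (mult δ c e)) (ENNReal.ofReal q) volume ≤
      ENNReal.ofReal ((B ^ (q - 1) * (2 ^ d * δ ^ d * N)) ^ (1 / q)) := by
  have hq0 : 0 < q := by linarith
  have hqne : ENNReal.ofReal q ≠ 0 := by simpa using hq0
  rw [eLpNorm_eq_lintegral_rpow_enorm_toReal hqne ENNReal.ofReal_ne_top,
    ENNReal.toReal_ofReal hq0.le]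
  rw [← ENNReal.ofReal_rpow_of_nonneg (by positivity) (by positivity)]
  refine ENNReal.rpow_le_rpow ?_ (by positivity)
  have hpt : ∀ x, ‖G.indicator (mult δ c e) x‖ₑ ^ q ≤
      ENNReal.ofReal (B ^ (q - 1)) * ENNReal.ofReal (mult δ c e x) := by
    intro x
    by_cases hx : x ∈ G
    · have h0 := mult_nonneg δ c e x
      rw [Set.indicator_of_mem hx, ← ofReal_norm, Real.norm_of_nonneg h0,
        ENNReal.ofReal_rpow_of_nonneg h0 hq0.le, ← ENNReal.ofReal_mul (by positivity)]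
      refine ENNReal.ofReal_le_ofReal ?_
      have h1 : mult δ c e x ^ q = mult δ c e x ^ (q - 1) * mult δ c e x := by
        rcases h0.eq_or_lt with h2 | h2
        · rw [← h2, Real.zero_rpow hq0.ne', mul_zero]
        · rw [Real.rpow_sub_one h2.ne', div_mul_cancel₀]
          exact h2.ne'
      rw [h1]
      exact mul_le_mul_of_nonneg_right (Real.rpow_le_rpow h0 (hG x hx) (by linarith)) h0
    · rw [Set.indicator_of_notMem hx, enorm_zero, ENNReal.zero_rpow_of_pos hq0]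
      exact zero_le
  calc ∫⁻ x, ‖G.indicator (mult δ c e) x‖ₑ ^ q ≤
      ∫⁻ x, ENNReal.ofReal (B ^ (q - 1)) * ENNReal.ofReal (mult δ c e x) := lintegral_mono hpt
    _ = ENNReal.ofReal (B ^ (q - 1)) * ∫⁻ x, ENNReal.ofReal (mult δ c e x) :=
        lintegral_const_mul _ (measurable_mult δ c e).ennreal_ofReal
    _ ≤ ENNReal.ofReal (B ^ (q - 1)) * ENNReal.ofReal (2 ^ d * δ ^ d * N) :=
        mul_le_mul_right (lintegral_mult_le hδ c e he) _
    _ = _ := by rw [← ENNReal.ofReal_mul (by positivity)]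

/-- The final real inequality. -/
lemma rhs_le {α a' A δ q : ℝ} {N : ℕ} (hα : 1 ≤ α) (hd : 1 ≤ d) (hA : 1 ≤ A) (hδ : 0 < δ)
    (hN : 0 < N) (hαa : α ≤ a') (hq : 1 + a' / d ≤ q) :
    ((A * (N : ℝ) ^ (1 - 1 / α)) ^ (q - 1) * (2 ^ d * δ ^ d * N)) ^ (1 / q) ≤
      (A * 2 ^ d) * δ ^ ((d : ℝ) / q) * (N : ℝ) ^ (1 - 1 / (q * d)) := by
  have hd' : (0 : ℝ) < d := by exact_mod_cast hd
  have hαpos : 0 < α := by linarith
  have hN' : (1 : ℝ) ≤ N := by exact_mod_cast hN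
  have hN0 : (0 : ℝ) < N := by linarith
  have hq1 : 1 ≤ q := by
    have : 0 ≤ a' / d := div_nonneg (by linarith) hd'.le
    linarith
  have hq0 : 0 < q := by linarith
  have h1 : (A * (N : ℝ) ^ (1 - 1 / α)) ^ (q - 1) * (2 ^ d * δ ^ d * N) =
      A ^ (q - 1) * 2 ^ d * δ ^ d * ((N : ℝ) ^ ((1 - 1 / α) * (q - 1) + 1)) := by
    rw [Real.mul_rpow (by positivity) (by positivity), ← Real.rpow_mul hN0.le,
      Real.rpow_add hN0, Real.rpow_one]
    ring
  rw [h1, Real.mul_rpow (by positivity) (by positivity), Real.mul_rpow (by positivity)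
    (by positivity), Real.mul_rpow (by positivity) (by positivity), ← Real.rpow_mul (by positivity),
    ← Real.rpow_mul hN0.le]
  have h2 : A ^ ((q - 1) * (1 / q)) ≤ A := by
    calc A ^ ((q - 1) * (1 / q)) ≤ A ^ (1 : ℝ) := by
          refine Real.rpow_le_rpow_of_exponent_le hA ?_
          rw [mul_one_div, div_le_one hq0]
          linarith
      _ = A := Real.rpow_one _
  have h3 : ((2 : ℝ) ^ d) ^ (1 / q) ≤ 2 ^ d := by
    calc ((2 : ℝ) ^ d) ^ (1 / q) ≤ ((2 : ℝ) ^ d) ^ (1 : ℝ) := by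
          refine Real.rpow_le_rpow_of_exponent_le (one_le_pow₀ (by norm_num)) ?_
          rw [div_le_one hq0]
          exact hq1
      _ = 2 ^ d := Real.rpow_one _
  have h4 : (δ ^ d) ^ (1 / q) = δ ^ ((d : ℝ) / q) := by
    rw [← Real.rpow_natCast, ← Real.rpow_mul hδ.le]
    congr 1
    ring
  have h5 : (N : ℝ) ^ (((1 - 1 / α) * (q - 1) + 1) * (1 / q)) ≤ (N : ℝ) ^ (1 - 1 / (q * d)) := by
    refine Real.rpow_le_rpow_of_exponent_le hN' ?_
    have h6 : 1 - 1 / (q * d) = (q - 1 / d) * (1 / q) := by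
      field_simp
    rw [h6]
    refine mul_le_mul_of_nonneg_right ?_ (by positivity)
    have h7 : 1 / (d : ℝ) ≤ (q - 1) / α := by
      rw [div_le_div_iff₀ hd' hαpos]
      have h8 : a' ≤ (q - 1) * d := by
        have : a' / d ≤ q - 1 := by linarith
        rwa [div_le_iff₀ hd'] at this
      linarith
    have h9 : (1 - 1 / α) * (q - 1) + 1 = q - (q - 1) / α := by
      field_simp
      ring
    rw [h9]
    linarith
  rw [h4]
  gcongr

/-- **Typical multiplicity.** -/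
theorem typical {α a' : ℝ} (hα : 1 ≤ α) (hαa : α ≤ a') {S : Finset ℚ}
    (hS : (-1 : ℚ) ∉ S)
    (h : ∀ A : Finset (ℤ × ℤ),
      ((A.image (fun p : ℤ × ℤ => (p.1 : ℚ) + (-1) * (p.2 : ℚ))).card : ℝ) ≤
      (1 : ℝ) * (max ((A.image (fun p : ℤ × ℤ => (p.2 : ℚ))).card : ℝ)
          ((S.sup (fun r : ℚ => (A.image (fun p : ℤ × ℤ => (p.1 : ℚ) + r * (p.2 : ℚ))).card) : ℕ)
            : ℝ)) ^ α) (d : ℕ) (hd : 1 ≤ d) :
    ∃ κ > 0, ∀ η > 0, ∃ C > 0, ∀ (N : ℕ) (δ : ℝ) (c e : Fin N → EuclideanSpace ℝ (Fin (d + 1))),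
      0 < δ → δ < 1 → (∀ i, ‖e i‖ = 1) → (∀ i i', i ≠ i' → δ ≤ ‖e i - e i'‖) →
      ∃ G : Set (EuclideanSpace ℝ (Fin (d + 1))), MeasurableSet G ∧
        (1 - η) * N ≤ (({i | ENNReal.ofReal (κ * δ ^ d) ≤
          volume (tube δ (c i) (e i) ∩ G)} : Set (Fin N)).ncard : ℝ) ∧
        (∀ x ∈ G, ∑ i, (tube δ (c i) (e i)).indicator (fun _ => (1 : ℝ)) x ≤
          C * (N : ℝ) ^ (1 - 1 / α)) ∧
        (∀ q : ℝ, 1 + a' / d ≤ q →
          eLpNorm (G.indicator fun x => ∑ i, (tube δ (c i) (e i)).indicator (fun _ => (1 : ℝ)) x)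
            (ENNReal.ofReal q) volume ≤
          ENNReal.ofReal (C * δ ^ ((d : ℝ) / q) * (N : ℝ) ^ (1 - 1 / (q * d)))) ∧
        ENNReal.ofReal (C⁻¹ * δ ^ d * (N : ℝ) ^ (1 / α)) ≤ volume (⋃ i, tube δ (c i) (e i)) := by
  have hαpos : 0 < α := by linarith
  have hd' : (0 : ℝ) < d := by exact_mod_cast hd
  obtain ⟨c₀, hc₀, κ₁, hκ₁, H⟩ := robust_tubes hα zero_le_one hS h d
  refine ⟨κ₁, hκ₁, fun η hη => ?_⟩
  obtain ⟨A, hA⟩ : ∃ A : ℝ, A = 2 ^ d / (c₀ * η ^ (1 / α)) + 1 := ⟨_, rfl⟩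
  have hA1 : 1 ≤ A := by
    rw [hA]
    have : 0 ≤ 2 ^ d / (c₀ * η ^ (1 / α)) := by positivity
    linarith
  have hA2 : 2 ^ d / (c₀ * η ^ (1 / α)) ≤ A := by rw [hA]; linarith
  have hA0 : 0 < A := by linarith
  obtain ⟨C, hC⟩ : ∃ C : ℝ, C = A * 2 ^ d + 1 / c₀ := ⟨_, rfl⟩
  have hC0 : 0 < C := by rw [hC]; positivity
  have hCA : A ≤ C := by
    have h1 : (1 : ℝ) ≤ 2 ^ d := one_le_pow₀ (by norm_num)
    have h2 : 0 < 1 / c₀ := by positivity
    rw [hC]
    nlinarith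
  have hCA' : A * 2 ^ d ≤ C := by
    have h2 : 0 < 1 / c₀ := by positivity
    rw [hC]
    linarith
  have hCc : C⁻¹ ≤ c₀ := by
    rw [inv_le_comm₀ hC0 hc₀, hC, ← one_div]
    have : 0 < A * 2 ^ d := by positivity
    linarith
  refine ⟨C, hC0, fun N δ c e hδ hδ1 he hsep => ?_⟩
  have hunion : ENNReal.ofReal (C⁻¹ * δ ^ d * (N : ℝ) ^ (1 / α)) ≤
      volume (⋃ i, tube δ (c i) (e i)) := by
    have h1 := H c e Finset.univ δ hδ hδ1 (fun i _ => he i) (fun i _ i' _ hne => hsep i i' hne)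
      (⋃ i, tube δ (c i) (e i)) (MeasurableSet.iUnion fun i => measurableSet_tube _ _ _)
      (fun i _ => by
        have h0 : tube δ (c i) (e i) \ (⋃ i, tube δ (c i) (e i)) = ∅ := by
          ext x
          simp only [Set.mem_sdiff, Set.mem_iUnion, Set.mem_empty_iff_false, iff_false, not_and,
            not_not]
          exact fun hx => ⟨i, hx⟩
        rw [h0, measure_empty]
        exact zero_le)
    rw [Finset.card_univ, Fintype.card_fin] at h1
    refine (ENNReal.ofReal_le_ofReal ?_).trans h1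
    gcongr
  refine ⟨{x | mult δ c e x ≤ A * (N : ℝ) ^ (1 - 1 / α)},
    measurableSet_le (measurable_mult δ c e) measurable_const, ?_, ?_, ?_, hunion⟩
  · rcases Nat.eq_zero_or_pos N with h0 | h0
    · subst h0
      rw [Nat.cast_zero, mul_zero]
      exact Nat.cast_nonneg _
    · exact bad_few hα hc₀ hη hA2 h0 hδ c e he (fun F E hE hF =>
        H c e F δ hδ hδ1 (fun i _ => he i) (fun i _ i' _ hne => hsep i i' hne) E hE hF)
  · intro x hx
    have hx' : mult δ c e x ≤ A * (N : ℝ) ^ (1 - 1 / α) := hx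
    refine hx'.trans ?_
    gcongr
  · intro q hq
    have hq1 : 1 ≤ q := by
      have : 0 ≤ a' / d := div_nonneg (by linarith) hd'.le
      linarith
    have h1 := eLpNorm_le_of_bounded (q := q) (B := A * (N : ℝ) ^ (1 - 1 / α)) (by positivity)
      hδ.le hq1 c e he {x | mult δ c e x ≤ A * (N : ℝ) ^ (1 - 1 / α)} (fun x hx => hx)
    refine le_trans h1 ?_
    rcases Nat.eq_zero_or_pos N with h0 | h0
    · subst h0
      rw [Nat.cast_zero, mul_zero, mul_zero, Real.zero_rpow (by positivity), ENNReal.ofReal_zero]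
      exact zero_le
    · refine ENNReal.ofReal_le_ofReal ((rhs_le hα hd hA1 hδ h0 hαa hq).trans ?_)
      gcongr

end norm

end Pool.Agent.H32.AKT
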