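import Pool.Agent.H92.Step

set_option autoImplicit false

open MeasureTheory Filter Topology Set

namespace Pool.Agent.H92

namespace Dich

/-! ### Local facts at zeros -/

section local_facts

variable {K : Type*} [AddCommGroup K]

/-- The product `F(z, ω) = 5 a e^{-z} ω(x) + φ(ω)`. -/
noncomputable def FF (a : ℝ) (b : ℕ → ℝ) (x : K) (y : ℕ → K) (z : ℂ) (ω : DualG K) : ℂ :=
  5 * a * Complex.exp (-z) * ((ω x : Circle) : ℂ) + ∑' i, (b i : ℂ) * ((ω (y i) : Circle) : ℂ)

variable {a : ℝ} {b : ℕ → ℝ} {x : K} {y : ℕ → K} {l : K →+ ℝ} {g h : K → ℂ}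

/-- The hypotheses on the two factors. -/
structure Fac (a : ℝ) (b : ℕ → ℝ) (x : K) (y : ℕ → K) (l : K →+ ℝ) (g h : K → ℂ) : Prop where
  ha : 0 < a
  hgs : Summable fun x => ‖g x‖
  hhs : Summable fun x => ‖h x‖
  hgl : ∀ x, g x ≠ 0 → 0 ≤ l x
  hhl : ∀ x, h x ≠ 0 → 0 ≤ l x
  hprod : ∀ z : ℂ, 0 ≤ z.re → ∀ ω : DualG K, GG g l z ω * GG h l z ω = FF a b x y z ω

lemma simple_zero (D : Fac a b x y l g h) {z : ℂ} (hz : 0 < z.re) (ω : DualG K)
    (h1 : GG g l z ω = 0) (h2 : GG h l z ω = 0) : False := by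
  have hopen : IsOpen {z : ℂ | 0 < z.re} := isOpen_lt continuous_const Complex.continuous_re
  have dg : DifferentiableAt ℂ (fun z => GG g l z ω) z :=
    (GG_diffContOnCl D.hgs D.hgl ω).1.differentiableAt (hopen.mem_nhds hz)
  have dh : DifferentiableAt ℂ (fun z => GG h l z ω) z :=
    (GG_diffContOnCl D.hhs D.hhl ω).1.differentiableAt (hopen.mem_nhds hz)
  have hd := dg.hasDerivAt.mul dh.hasDerivAt
  simp only [h1, h2, mul_zero, zero_mul, add_zero] at hd
  have hd2 : HasDerivAt (fun z => FF a b x y z ω)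
      (5 * a * (Complex.exp (-z) * (-1)) * ((ω x : Circle) : ℂ)) z := by
    unfold FF
    have h3 : HasDerivAt (fun z : ℂ => Complex.exp (-z)) (Complex.exp (-z) * (-1)) z :=
      (Complex.hasDerivAt_exp (-z)).comp z (hasDerivAt_neg z)
    exact ((h3.const_mul (5 * (a : ℂ))).mul_const _).add_const _
  have hev : (fun z => FF a b x y z ω) =ᶠ[𝓝 z] ((fun z => GG g l z ω) * fun z => GG h l z ω) := by
    filter_upwards [hopen.mem_nhds hz] with w hw
    exact (D.hprod w (le_of_lt hw) ω).symm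
  have h4 := (hd.congr_of_eventuallyEq hev).unique hd2
  have h5 : (5 * a * (Complex.exp (-z) * (-1)) * ((ω x : Circle) : ℂ)) ≠ 0 := by
    have : (a : ℂ) ≠ 0 := by exact_mod_cast D.ha.ne'
    have h6 : ((ω x : Circle) : ℂ) ≠ 0 := Circle.coe_ne_zero _
    have h7 := Complex.exp_ne_zero (-z)
    simp [this, h6, h7]
  exact h5 h4.symm

lemma color_path (D : Fac a b x y l g h) (z : C(unitInterval, ℂ)) (ω : C(unitInterval, DualG K))
    (hre : ∀ t, 0 < (z t).re) (hF : ∀ t, FF a b x y (z t) (ω t) = 0) :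
    GG h l (z 0) (ω 0) = 0 ↔ GG h l (z 1) (ω 1) = 0 := by
  have key : ∀ {u : K → ℂ}, (Summable fun x => ‖u x‖) → (∀ x, u x ≠ 0 → 0 ≤ l x) →
      IsClosed {t : unitInterval | GG u l (z t) (ω t) = 0} := by
    intro u hs hl
    have hc : Continuous fun t => GG u l (z t) (ω t) := by
      have h1 := GG_continuousOn hs hl
      have h2 : ContinuousOn (fun t : unitInterval => (z t, ω t)) univ :=
        (z.continuous.prodMk ω.continuous).continuousOn
      have h3 := h1.comp h2 (fun t _ => ⟨(hre t).le, mem_univ _⟩)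
      rw [← continuousOn_univ]
      exact h3
    exact isClosed_eq hc continuous_const
  have hA := key D.hhs D.hhl
  have hB := key D.hgs D.hgl
  have hAB : {t : unitInterval | GG h l (z t) (ω t) = 0}ᶜ =
      {t : unitInterval | GG g l (z t) (ω t) = 0} := by
    ext t
    have h1 := D.hprod (z t) (hre t).le (ω t)
    rw [hF t, mul_eq_zero] at h1
    constructor
    · intro h2
      rcases h1 with h3 | h3
      · exact h3
      · exact absurd h3 h2
    · intro h2 h3
      exact simple_zero D (hre t) (ω t) h2 h3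
  have hclopen : IsClopen {t : unitInterval | GG h l (z t) (ω t) = 0} := by
    refine ⟨hA, ?_⟩
    rw [← isClosed_compl_iff, hAB]
    exact hB
  rcases isClopen_iff.mp hclopen with h1 | h1
  · have h2 : ∀ t, ¬ GG h l (z t) (ω t) = 0 := fun t ht => by
      have : t ∈ {t : unitInterval | GG h l (z t) (ω t) = 0} := ht
      rw [h1] at this
      exact this
    exact ⟨fun h => absurd h (h2 0), fun h => absurd h (h2 1)⟩
  · have h2 : ∀ t, GG h l (z t) (ω t) = 0 := fun t => by
      have : t ∈ {t : unitInterval | GG h l (z t) (ω t) = 0} := by rw [h1]; trivial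
      exact this
    exact ⟨fun _ => h2 1, fun _ => h2 0⟩

/-- Lifting a path of characters to a path of zeros. -/
lemma exists_lift (ha : 0 < a) (low : unitInterval → ℂ) (ω : C(unitInterval, DualG K))
    (hlow : ∀ t, low t = ∑' i, (b i : ℂ) * ((ω t (y i) : Circle) : ℂ)) (hlc : Continuous low)
    (h0 : ∀ t, low t ≠ 0) (h5 : ∀ t, ‖low t‖ < 5 * a) {z₀ : ℂ}
    (hF : FF a b x y z₀ (ω 0) = 0) :
    ∃ z : C(unitInterval, ℂ), z 0 = z₀ ∧ (∀ t, 0 < (z t).re) ∧
      ∀ t, FF a b x y (z t) (ω t) = 0 := by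
  have ha' : (a : ℂ) ≠ 0 := by exact_mod_cast ha.ne'
  have hne : ∀ t, -(low t) / (5 * a * ((ω t x : Circle) : ℂ)) ≠ 0 := by
    intro t
    have h6 : ((ω t x : Circle) : ℂ) ≠ 0 := Circle.coe_ne_zero _
    have := h0 t
    simp [ha', h6, this]
  have hcont : Continuous fun t => -(low t) / (5 * a * ((ω t x : Circle) : ℂ)) := by
    refine hlc.neg.div ?_ ?_
    · exact continuous_const.mul ((DualG.continuous_eval' x).comp ω.continuous)
    · intro t
      have h6 : ((ω t x : Circle) : ℂ) ≠ 0 := Circle.coe_ne_zero _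
      simp [ha', h6]
  obtain ⟨Γ, hΓ, hΓ0⟩ := Complex.isCoveringMap_exp.exists_path_lifts
    ⟨fun t => ⟨-(low t) / (5 * a * ((ω t x : Circle) : ℂ)), hne t⟩,
      hcont.subtype_mk _⟩ (-z₀) (by
      apply Subtype.ext
      change -(low 0) / (5 * a * ((ω 0 x : Circle) : ℂ)) = Complex.exp (-z₀)
      have h6 : ((ω 0 x : Circle) : ℂ) ≠ 0 := Circle.coe_ne_zero _
      rw [FF, ← hlow 0] at hF
      rw [div_eq_iff (by simp [ha', h6])]
      linear_combination -hF)
  have hΓt : ∀ t, Complex.exp (Γ t) = -(low t) / (5 * a * ((ω t x : Circle) : ℂ)) := by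
    intro t
    have := congrFun hΓ t
    exact congrArg Subtype.val this
  refine ⟨⟨fun t => -Γ t, Γ.continuous.neg⟩, ?_, ?_, ?_⟩
  · change -Γ 0 = z₀
    rw [hΓ0, neg_neg]
  · intro t
    change 0 < (-Γ t).re
    have h1 : ‖Complex.exp (Γ t)‖ < 1 := by
      rw [hΓt t, norm_div, norm_neg, norm_mul, norm_mul, DualG.norm_eval, mul_one, Complex.norm_real,
        Real.norm_of_nonneg ha.le, div_lt_one (by norm_num; exact ha)]
      have : ‖(5 : ℂ)‖ = 5 := by norm_num
      rw [this]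
      exact h5 t
    rw [Complex.norm_exp, Real.exp_lt_one_iff] at h1
    rw [Complex.neg_re]
    linarith
  · intro t
    change FF a b x y (-Γ t) (ω t) = 0
    have h6 : ((ω t x : Circle) : ℂ) ≠ 0 := Circle.coe_ne_zero _
    rw [FF, neg_neg, hΓt t, ← hlow t]
    field_simp
    ring

end local_facts


/-! ### Coordinates -/

section coords

variable {K : Type*} [AddCommGroup K] [Module ℚ K] {ι : Type*} (B : Module.Basis ι ℚ K)

/-- The character with prescribed angles on a basis. -/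
noncomputable def EE (c : ι → ℝ) : DualG K :=
  ⟨fun k => Circle.exp (B.constr ℚ c k), by
    intro k k'
    change Circle.exp (B.constr ℚ c (k + k')) =
      Circle.exp (B.constr ℚ c k) * Circle.exp (B.constr ℚ c k')
    rw [map_add, Circle.exp_add]⟩

lemma EE_apply (c : ι → ℝ) (k : K) : (EE B c) k = Circle.exp (B.constr ℚ c k) := rfl

lemma EE_basis (c : ι → ℝ) (i : ι) : (((EE B c) (B i) : Circle) : ℂ) =
    Complex.exp ((c i : ℂ) * Complex.I) := by
  rw [EE_apply, Module.Basis.constr_basis, Circle.coe_exp]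

lemma continuous_EE : Continuous (EE B) := by
  refine DualG.continuous_of fun k => ?_
  change Continuous fun c : ι → ℝ => Circle.exp (B.constr ℚ c k)
  refine Circle.exp.continuous.comp ?_
  simp only [Module.Basis.constr_apply]
  unfold Finsupp.sum
  refine continuous_finsetSum _ fun i _ => ?_
  change Continuous fun c : ι → ℝ => (B.repr k i) • c i
  exact (continuous_apply i).const_smul (B.repr k i)

/-- Approximation of characters by exponentials, exact on a lattice. -/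
lemma exists_exp_eq (χ : DualG K) (N : ℕ) (hN : N ≠ 0) :
    ∃ c : ι → ℝ, ∀ (n : ι →₀ ℤ),
      EE B c (n.sum fun i k => ((k : ℚ) / N) • B i) = χ (n.sum fun i k => ((k : ℚ) / N) • B i) := by
  have harg : ∀ z : Circle, ∃ t : ℝ, Circle.exp t = z := fun z => ⟨Complex.arg z, Circle.exp_arg z⟩
  choose θ hθ using fun i => harg (χ (((1 : ℚ) / N) • B i))
  refine ⟨fun i => N * θ i, fun n => ?_⟩
  have hNr : (N : ℝ) ≠ 0 := by exact_mod_cast hN
  have hNq : (N : ℚ) ≠ 0 := by exact_mod_cast hN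
  induction n using Finsupp.induction_linear with
  | zero => simp [DualG.map_zero]
  | add f g hf hg =>
    rw [Finsupp.sum_add_index' (by simp) (by intro i a b'; rw [← add_smul]; congr 1; push_cast; ring)]
    rw [DualG.map_add, DualG.map_add, hf, hg]
  | single i k =>
    rw [Finsupp.sum_single_index (by simp)]
    have h1 : ((k : ℚ) / N) • B i = k • (((1 : ℚ) / N) • B i) := by
      rw [← Int.cast_smul_eq_zsmul ℚ k, smul_smul]
      congr 1
      ring
    rw [h1]
    have h2 : ∀ ψ : DualG K, ∀ (k : ℤ) (y : K), ψ (k • y) = ψ y ^ k := by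
      intro ψ k y
      let f : Multiplicative K →* Circle :=
        { toFun := fun a => ψ (Multiplicative.toAdd a)
          map_one' := by simp [DualG.map_zero]
          map_mul' := fun a c => by simp [DualG.map_add] }
      exact map_zpow f (Multiplicative.ofAdd y) k
    rw [h2, h2]
    congr 1
    rw [EE_apply, map_smul, Module.Basis.constr_basis, ← hθ i]
    congr 1
    rw [Rat.smul_def]
    push_cast
    field_simp

/-- Every character is a limit of exponential ones which agree with it on the basis. -/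
lemma exists_exp_seq (χ : DualG K) :
    ∃ c : ℕ → ι → ℝ, (∀ n i, (EE B (c n)) (B i) = χ (B i)) ∧
      Tendsto (fun n => EE B (c n)) atTop (𝓝 χ) := by
  have hfac : ∀ n : ℕ, n.factorial ≠ 0 := fun n => n.factorial_ne_zero
  choose φ hφ using fun n : ℕ => exists_exp_eq B χ n.factorial (hfac n)
  refine ⟨φ, ?_, ?_⟩
  · intro n i
    have h := hφ n (Finsupp.single i (n.factorial : ℤ))
    rw [Finsupp.sum_single_index (by simp)] at h
    have h1 : (((n.factorial : ℤ) : ℚ) / (n.factorial : ℕ)) = 1 := by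
      rw [Int.cast_natCast]
      exact div_self (by exact_mod_cast hfac n)
    rw [h1, one_smul] at h
    exact h
  · have hev : ∀ y, ∀ᶠ n in atTop, (EE B (φ n)) y = χ y := by
      intro y
      obtain ⟨M, hM⟩ : ∃ M : ℕ, ∀ i ∈ (B.repr y).support, (B.repr y i).den ≤ M :=
        ⟨(B.repr y).support.sup (fun i => (B.repr y i).den), fun i hi =>
          Finset.le_sup (f := fun i => (B.repr y i).den) hi⟩
      filter_upwards [eventually_ge_atTop M] with n hn
      set m : ι →₀ ℤ := (B.repr y).mapRange (fun q : ℚ => (q * n.factorial).num) (by simp) with hm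
      have h := hφ n m
      have h2 : (m.sum fun i k => ((k : ℚ) / n.factorial) • B i) = y := by
        rw [hm, Finsupp.sum_mapRange_index (by simp)]
        conv_rhs => rw [← B.linearCombination_repr y, Finsupp.linearCombination_apply]
        apply Finset.sum_congr rfl
        intro i hi
        refine congrArg (fun r : ℚ => r • B i) ?_
        have hd : (B.repr y i).den ∣ n.factorial :=
          Nat.dvd_factorial (Rat.den_pos _) ((hM i hi).trans hn)
        obtain ⟨c, hc⟩ := hd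
        have h3 : B.repr y i * n.factorial = (((B.repr y i).num * c : ℤ) : ℚ) := by
          rw [hc]
          push_cast
          have := Rat.mul_den_eq_num (B.repr y i)
          rw [← mul_assoc, this]
        have h4 : (n.factorial : ℚ) ≠ 0 := by exact_mod_cast hfac n
        change ((((B.repr y) i * (n.factorial : ℚ)).num : ℚ) / n.factorial) = (B.repr y) i
        rw [h3, Rat.num_intCast, ← h3]
        field_simp
      rw [h2] at h
      exact h
    have h1 : Tendsto (fun n => (EE B (φ n)).1) atTop (𝓝 χ.1) := by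
      rw [tendsto_pi_nhds]
      intro y
      exact tendsto_nhds_of_eventually_eq (hev y)
    exact tendsto_subtype_rng.mpr h1

/-- A continuous choice of angles with prescribed cosine on a segment. -/
lemma exists_angle (δ₀ c₁ : ℝ) (hc : |c₁| ≤ 1) : ∃ D : ℝ → ℝ, Continuous D ∧ D 0 = δ₀ ∧
    ∀ t ∈ Icc (0 : ℝ) 1, Real.cos (D t) = (1 - t) * Real.cos δ₀ + t * c₁ := by
  set k : ℤ := ⌊δ₀ / Real.pi⌋ with hk
  set r : ℝ := δ₀ - k * Real.pi with hr
  have hpi := Real.pi_pos
  have hr0 : 0 ≤ r := by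
    have := Int.floor_le (δ₀ / Real.pi)
    rw [le_div_iff₀ hpi] at this
    rw [hr]; linarith
  have hr1 : r ≤ Real.pi := by
    have := (Int.lt_floor_add_one (δ₀ / Real.pi)).le
    rw [div_le_iff₀ hpi] at this
    rw [hr]
    have h2 : ((⌊δ₀ / Real.pi⌋ : ℝ) + 1) * Real.pi = (k : ℝ) * Real.pi + Real.pi := by
      rw [hk]; ring
    linarith
  have hcos : ∀ u : ℝ, Real.cos (k * Real.pi + u) = (-1) ^ k * Real.cos u := by
    intro u
    rw [add_comm, Real.cos_add_int_mul_pi]
  have hsq : ((-1 : ℝ) ^ k) * ((-1) ^ k) = 1 := by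
    rw [← mul_zpow]; norm_num
  have hδ : Real.cos δ₀ = (-1) ^ k * Real.cos r := by
    rw [← hcos r]; congr 1; rw [hr]; ring
  have habs : |(-1 : ℝ) ^ k| = 1 := by
    rw [abs_zpow, abs_neg, abs_one, one_zpow]
  refine ⟨fun t => k * Real.pi + Real.arccos ((1 - t) * Real.cos r + t * ((-1) ^ k * c₁)), ?_, ?_, ?_⟩
  · exact continuous_const.add (Real.continuous_arccos.comp (by fun_prop))
  · simp only [sub_zero, one_mul, zero_mul, add_zero]
    rw [Real.arccos_cos hr0 hr1, hr]; ring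
  · intro t ht
    have h1 : |(1 - t) * Real.cos r + t * ((-1) ^ k * c₁)| ≤ 1 := by
      refine (abs_add_le _ _).trans ?_
      rw [abs_mul, abs_mul, abs_mul, habs, one_mul, abs_of_nonneg (sub_nonneg.mpr ht.2),
        abs_of_nonneg ht.1]
      have h2 := Real.abs_cos_le_one r
      nlinarith [ht.1, ht.2, mul_le_mul_of_nonneg_left h2 (sub_nonneg.mpr ht.2),
        mul_le_mul_of_nonneg_left hc ht.1]
    rw [abs_le] at h1
    rw [hcos, Real.cos_arccos h1.1 h1.2, hδ]
    linear_combination t * c₁ * hsq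

end coords

/-! ### States and moves -/

section moves

set_option linter.unusedSectionVars false
set_option linter.unusedVariables false

variable {K : Type*} [AddCommGroup K] [Module ℚ K] {ι : Type*} [DecidableEq ι]
  (B : Module.Basis ι ℚ K) {n : ℕ → ι} (o : ι)
  {a : ℝ} {b : ℕ → ℝ} {l : K →+ ℝ} {g h : K → ℂ}

/-- Hypotheses on the coefficients. -/
structure Coef (a : ℝ) (b : ℕ → ℝ) (n : ℕ → ι) (o : ι) : Prop where
  ha : 0 < a
  hb0 : ∀ i, 0 ≤ b i
  hbs : Summable b
  hb4 : ∀ i < 4, b i = a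
  hrest : ∑' i, b (i + 4) = a
  hn : Function.Injective n
  ho : ∀ i, n i ≠ o

/-- The state with prescribed angles of the two pairs. -/
def st (n : ℕ → ι) (α₁ D₁ α₂ D₂ : ℝ) (r : ι → ℝ) : ι → ℝ :=
  Function.update (Function.update (Function.update (Function.update r (n 0) (α₁ - D₁))
    (n 1) (α₁ + D₁)) (n 2) (α₂ - D₂)) (n 3) (α₂ + D₂)

/-- The contribution of the small atoms. -/
noncomputable def TT (b : ℕ → ℝ) (n : ℕ → ι) (r : ι → ℝ) : ℂ :=
  ∑' i, (b (i + 4) : ℂ) * Complex.exp ((r (n (i + 4)) : ℂ) * Complex.I)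

/-- The lower part in coordinates. -/
noncomputable def low (a : ℝ) (b : ℕ → ℝ) (n : ℕ → ι) (α₁ D₁ α₂ D₂ : ℝ) (r : ι → ℝ) : ℂ :=
  2 * a * Real.cos D₁ * Complex.exp ((α₁ : ℂ) * Complex.I) +
    2 * a * Real.cos D₂ * Complex.exp ((α₂ : ℂ) * Complex.I) + TT b n r

lemma st_zero (C : Coef a b n o) (α₁ D₁ α₂ D₂ : ℝ) (r : ι → ℝ) :
    st n α₁ D₁ α₂ D₂ r (n 0) = α₁ - D₁ := by
  have h1 : n 0 ≠ n 1 := fun h => by simpa using C.hn h
  have h2 : n 0 ≠ n 2 := fun h => by simpa using C.hn h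
  have h3 : n 0 ≠ n 3 := fun h => by simpa using C.hn h
  simp [st, Function.update_of_ne, h1, h2, h3]

lemma st_one (C : Coef a b n o) (α₁ D₁ α₂ D₂ : ℝ) (r : ι → ℝ) :
    st n α₁ D₁ α₂ D₂ r (n 1) = α₁ + D₁ := by
  have h2 : n 1 ≠ n 2 := fun h => by simpa using C.hn h
  have h3 : n 1 ≠ n 3 := fun h => by simpa using C.hn h
  simp [st, Function.update_of_ne, h2, h3]

lemma st_two (C : Coef a b n o) (α₁ D₁ α₂ D₂ : ℝ) (r : ι → ℝ) :
    st n α₁ D₁ α₂ D₂ r (n 2) = α₂ - D₂ := by
  have h3 : n 2 ≠ n 3 := fun h => by simpa using C.hn h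
  simp [st, Function.update_of_ne, h3]

lemma st_three (α₁ D₁ α₂ D₂ : ℝ) (r : ι → ℝ) :
    st n α₁ D₁ α₂ D₂ r (n 3) = α₂ + D₂ := by
  simp [st]

lemma st_rest (C : Coef a b n o) (α₁ D₁ α₂ D₂ : ℝ) (r : ι → ℝ) (i : ℕ) :
    st n α₁ D₁ α₂ D₂ r (n (i + 4)) = r (n (i + 4)) := by
  have h0 : n (i + 4) ≠ n 0 := fun h => by simpa using C.hn h
  have h1 : n (i + 4) ≠ n 1 := fun h => by have := C.hn h; omega
  have h2 : n (i + 4) ≠ n 2 := fun h => by have := C.hn h; omega
  have h3 : n (i + 4) ≠ n 3 := fun h => by have := C.hn h; omega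
  simp [st, Function.update_of_ne, h0, h1, h2, h3]

lemma st_o (C : Coef a b n o) (α₁ D₁ α₂ D₂ : ℝ) (r : ι → ℝ) :
    st n α₁ D₁ α₂ D₂ r o = r o := by
  simp [st, Function.update_of_ne, (C.ho 0).symm, (C.ho 1).symm, (C.ho 2).symm, (C.ho 3).symm]

lemma st_eta (C : Coef a b n o) (c : ι → ℝ) :
    st n ((c (n 0) + c (n 1)) / 2) ((c (n 1) - c (n 0)) / 2) ((c (n 2) + c (n 3)) / 2)
      ((c (n 3) - c (n 2)) / 2) c = c := by
  have h0 : (c (n 0) + c (n 1)) / 2 - (c (n 1) - c (n 0)) / 2 = c (n 0) := by ring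
  have h1 : (c (n 0) + c (n 1)) / 2 + (c (n 1) - c (n 0)) / 2 = c (n 1) := by ring
  have h2 : (c (n 2) + c (n 3)) / 2 - (c (n 3) - c (n 2)) / 2 = c (n 2) := by ring
  have h3 : (c (n 2) + c (n 3)) / 2 + (c (n 3) - c (n 2)) / 2 = c (n 3) := by ring
  rw [st, h0, h1, h2, h3]
  simp

lemma summable_low (C : Coef a b n o) (c : ι → ℝ) :
    Summable fun i => (b i : ℂ) * Complex.exp ((c (n i) : ℂ) * Complex.I) := by
  apply Summable.of_norm
  refine C.hbs.congr fun i => ?_
  rw [norm_mul, Complex.norm_exp_ofReal_mul_I, mul_one, Complex.norm_real,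
    Real.norm_of_nonneg (C.hb0 i)]

lemma pair_sum (α D : ℝ) : Complex.exp (((α - D : ℝ) : ℂ) * Complex.I) +
    Complex.exp (((α + D : ℝ) : ℂ) * Complex.I) =
    2 * Real.cos D * Complex.exp ((α : ℂ) * Complex.I) := by
  rw [Complex.ofReal_cos, Complex.two_cos, add_mul, ← Complex.exp_add, ← Complex.exp_add]
  rw [add_comm]
  congr 2
  · push_cast; ring
  · push_cast; ring

lemma low_eq (C : Coef a b n o) (α₁ D₁ α₂ D₂ : ℝ) (r : ι → ℝ) :
    ∑' i, (b i : ℂ) * (((EE B (st n α₁ D₁ α₂ D₂ r)) (B (n i)) : Circle) : ℂ) =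
      low a b n α₁ D₁ α₂ D₂ r := by
  simp only [EE_basis]
  rw [← (summable_low o C (st n α₁ D₁ α₂ D₂ r)).sum_add_tsum_nat_add 4]
  rw [Finset.sum_range_succ, Finset.sum_range_succ, Finset.sum_range_succ, Finset.sum_range_succ,
    Finset.sum_range_zero]
  rw [st_zero o C, st_one o C, st_two o C, st_three, C.hb4 0 (by norm_num), C.hb4 1 (by norm_num),
    C.hb4 2 (by norm_num), C.hb4 3 (by norm_num), low, TT]
  have h1 := pair_sum α₁ D₁
  have h2 := pair_sum α₂ D₂
  simp only [st_rest o C]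
  linear_combination (a : ℂ) * h1 + (a : ℂ) * h2

lemma norm_TT_le (C : Coef a b n o) (r : ι → ℝ) : ‖TT b n r‖ ≤ a := by
  have hs : Summable fun i => b (i + 4) := (summable_nat_add_iff 4).mpr C.hbs
  have h1 : ∀ i, ‖(b (i + 4) : ℂ) * Complex.exp ((r (n (i + 4)) : ℂ) * Complex.I)‖ = b (i + 4) := by
    intro i
    rw [norm_mul, Complex.norm_exp_ofReal_mul_I, mul_one, Complex.norm_real,
      Real.norm_of_nonneg (C.hb0 _)]
  have h2 : Summable fun i => ‖(b (i + 4) : ℂ) * Complex.exp ((r (n (i + 4)) : ℂ) * Complex.I)‖ := by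
    simpa only [h1] using hs
  refine (norm_tsum_le_tsum_norm h2).trans (le_of_eq ?_)
  simp only [h1]
  exact C.hrest

lemma continuous_TT (C : Coef a b n o) : Continuous (TT b n) := by
  have hs : Summable fun i => b (i + 4) := (summable_nat_add_iff 4).mpr C.hbs
  unfold TT
  refine continuous_tsum (fun i => ?_) hs (fun i r => ?_)
  · refine continuous_const.mul (Complex.continuous_exp.comp ?_)
    exact (Complex.continuous_ofReal.comp (continuous_apply _)).mul continuous_const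
  · rw [norm_mul, Complex.norm_exp_ofReal_mul_I, mul_one, Complex.norm_real,
      Real.norm_of_nonneg (C.hb0 _)]

/-- A state together with a zero. -/
def Good (a : ℝ) (b : ℕ → ℝ) (n : ℕ → ι) (z : ℂ) (c : ι → ℝ) : Prop :=
  0 < z.re ∧ FF a b (B o) (fun i => B (n i)) z (EE B c) = 0

/-- Two states are related if zeros can be transported without changing their colour. -/
def Rel (a : ℝ) (b : ℕ → ℝ) (n : ℕ → ι) (l : K →+ ℝ) (h : K → ℂ) (c c' : ι → ℝ) : Prop :=
  ∀ z, Good B o a b n z c → ∃ z', Good B o a b n z' c' ∧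
    (GG h l z (EE B c) = 0 ↔ GG h l z' (EE B c') = 0)

lemma Rel.trans {c c' c'' : ι → ℝ} (h1 : Rel B o a b n l h c c') (h2 : Rel B o a b n l h c' c'') :
    Rel B o a b n l h c c'' := by
  intro z hz
  obtain ⟨z', hz', e'⟩ := h1 z hz
  obtain ⟨z'', hz'', e''⟩ := h2 z' hz'
  exact ⟨z'', hz'', e'.trans e''⟩

/-- The general move. -/
lemma move (C : Coef a b n o) (D : Fac a b (B o) (fun i => B (n i)) l g h)
    (α₁ D₁ α₂ D₂ : ℝ → ℝ) (r : ℝ → ι → ℝ) (hα₁ : Continuous α₁) (hD₁ : Continuous D₁)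
    (hα₂ : Continuous α₂) (hD₂ : Continuous D₂) (hr : Continuous r)
    (h0 : ∀ t ∈ Icc (0 : ℝ) 1, low a b n (α₁ t) (D₁ t) (α₂ t) (D₂ t) (r t) ≠ 0)
    (h5 : ∀ t ∈ Icc (0 : ℝ) 1, ‖low a b n (α₁ t) (D₁ t) (α₂ t) (D₂ t) (r t)‖ < 5 * a) :
    Rel B o a b n l h (st n (α₁ 0) (D₁ 0) (α₂ 0) (D₂ 0) (r 0))
      (st n (α₁ 1) (D₁ 1) (α₂ 1) (D₂ 1) (r 1)) := by
  intro z hz
  have hst : Continuous fun t : ℝ => st n (α₁ t) (D₁ t) (α₂ t) (D₂ t) (r t) := by
    unfold st
    exact (((hr.update _ (hα₁.sub hD₁)).update _ (hα₁.add hD₁)).update _ (hα₂.sub hD₂)).update _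
      (hα₂.add hD₂)
  have hlowc : Continuous fun t : ℝ => low a b n (α₁ t) (D₁ t) (α₂ t) (D₂ t) (r t) := by
    unfold low
    have := (continuous_TT o C).comp hr
    simp only [Function.comp_def] at this
    fun_prop
  obtain ⟨Z, hZ0, hZre, hZF⟩ := exists_lift (x := B o) (y := fun i => B (n i)) C.ha
    (fun t : unitInterval => low a b n (α₁ t) (D₁ t) (α₂ t) (D₂ t) (r t))
    ⟨fun t : unitInterval => EE B (st n (α₁ t) (D₁ t) (α₂ t) (D₂ t) (r t)),
      ((continuous_EE B).comp hst).comp continuous_subtype_val⟩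
    (fun t => (low_eq B o C _ _ _ _ _).symm)
    (hlowc.comp continuous_subtype_val) (fun t => h0 t t.2) (fun t => h5 t t.2)
    (z₀ := z) (by
      have := hz.2
      simpa using this)
  have hcol := color_path D Z _ hZre hZF
  refine ⟨Z 1, ⟨hZre 1, ?_⟩, ?_⟩
  · have := hZF 1
    simpa using this
  · rw [hZ0] at hcol
    simpa using hcol

end moves

section moves2

set_option linter.unusedSectionVars false

variable {K : Type*} [AddCommGroup K] [Module ℚ K] {ι : Type*} [DecidableEq ι]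
  (B : Module.Basis ι ℚ K) {n : ℕ → ι} (o : ι)
  {a : ℝ} {b : ℕ → ℝ} {l : K →+ ℝ} {g h : K → ℂ}

/-- Zeros transported without changing `z`. -/
def Rel0 (a : ℝ) (b : ℕ → ℝ) (n : ℕ → ι) (l : K →+ ℝ) (h : K → ℂ) (c c' : ι → ℝ) : Prop :=
  ∀ z, Good B o a b n z c → Good B o a b n z c' ∧
    (GG h l z (EE B c) = 0 ↔ GG h l z (EE B c') = 0)

lemma Rel0.trans {c c' c'' : ι → ℝ} (h1 : Rel0 B o a b n l h c c')
    (h2 : Rel0 B o a b n l h c' c'') : Rel0 B o a b n l h c c'' := by
  intro z hz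
  obtain ⟨hz', e'⟩ := h1 z hz
  obtain ⟨hz'', e''⟩ := h2 z hz'
  exact ⟨hz'', e'.trans e''⟩

lemma Rel0.rel {c c' : ι → ℝ} (h1 : Rel0 B o a b n l h c c') : Rel B o a b n l h c c' :=
  fun z hz => ⟨z, h1 z hz⟩

/-- The move with an explicit path of zeros, in coordinates where the angle of `x` vanishes. -/
lemma move_explicit (C : Coef a b n o) (D : Fac a b (B o) (fun i => B (n i)) l g h)
    (α₁ D₁ α₂ D₂ : ℝ → ℝ) (hα₁ : Continuous α₁) (hD₁ : Continuous D₁)
    (hα₂ : Continuous α₂) (hD₂ : Continuous D₂) (Z : ℝ → ℂ) (hZc : ContinuousOn Z (Icc 0 1))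
    (hZ : ∀ t ∈ Icc (0 : ℝ) 1, 5 * a * Complex.exp (-(Z t)) =
      -low a b n (α₁ t) (D₁ t) (α₂ t) (D₂ t) 0)
    (h5 : ∀ t ∈ Icc (0 : ℝ) 1, ‖low a b n (α₁ t) (D₁ t) (α₂ t) (D₂ t) 0‖ < 5 * a) :
    Good B o a b n (Z 1) (st n (α₁ 1) (D₁ 1) (α₂ 1) (D₂ 1) 0) ∧
      (GG h l (Z 0) (EE B (st n (α₁ 0) (D₁ 0) (α₂ 0) (D₂ 0) 0)) = 0 ↔
        GG h l (Z 1) (EE B (st n (α₁ 1) (D₁ 1) (α₂ 1) (D₂ 1) 0)) = 0) := by
  have hst : Continuous fun t : ℝ => st n (α₁ t) (D₁ t) (α₂ t) (D₂ t) (0 : ι → ℝ) := by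
    unfold st
    exact (((continuous_const.update _ (hα₁.sub hD₁)).update _ (hα₁.add hD₁)).update _
      (hα₂.sub hD₂)).update _ (hα₂.add hD₂)
  have hre : ∀ t ∈ Icc (0 : ℝ) 1, 0 < (Z t).re := by
    intro t ht
    have h1 := congrArg norm (hZ t ht)
    rw [norm_neg, norm_mul, norm_mul, Complex.norm_real, Real.norm_of_nonneg C.ha.le,
      Complex.norm_exp, Complex.neg_re] at h1
    have h2 : ‖(5 : ℂ)‖ = 5 := by norm_num
    rw [h2] at h1
    have h3 := h5 t ht
    rw [← h1] at h3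
    have ha := C.ha
    have h4 : Real.exp (-(Z t).re) < 1 := by
      by_contra hcon
      push Not at hcon
      nlinarith
    rw [Real.exp_lt_one_iff] at h4
    linarith
  have hFF : ∀ t ∈ Icc (0 : ℝ) 1, FF a b (B o) (fun i => B (n i)) (Z t)
      (EE B (st n (α₁ t) (D₁ t) (α₂ t) (D₂ t) 0)) = 0 := by
    intro t ht
    rw [FF, low_eq B o C, EE_basis, st_o o C]
    simp only [Pi.zero_apply, Complex.ofReal_zero, zero_mul, Complex.exp_zero, mul_one]
    rw [hZ t ht]
    ring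
  have hZcont : Continuous fun t : unitInterval => Z t := by
    have := continuousOn_iff_continuous_domRestrict.mp hZc
    exact this
  have hcol := color_path D ⟨fun t : unitInterval => Z t, hZcont⟩
    ⟨fun t : unitInterval => EE B (st n (α₁ t) (D₁ t) (α₂ t) (D₂ t) 0),
      ((continuous_EE B).comp hst).comp continuous_subtype_val⟩
    (fun t => hre t t.2) (fun t => hFF t t.2)
  refine ⟨⟨hre 1 ⟨zero_le_one, le_rfl⟩, hFF 1 ⟨zero_le_one, le_rfl⟩⟩, ?_⟩
  simpa using hcol

/-- The move in the right half-plane returning to the same value. -/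
lemma move0 (C : Coef a b n o) (D : Fac a b (B o) (fun i => B (n i)) l g h)
    (α₁ D₁ α₂ D₂ : ℝ → ℝ) (hα₁ : Continuous α₁) (hD₁ : Continuous D₁)
    (hα₂ : Continuous α₂) (hD₂ : Continuous D₂)
    (hre : ∀ t ∈ Icc (0 : ℝ) 1, 0 < (low a b n (α₁ t) (D₁ t) (α₂ t) (D₂ t) 0).re)
    (h01 : low a b n (α₁ 0) (D₁ 0) (α₂ 0) (D₂ 0) 0 = low a b n (α₁ 1) (D₁ 1) (α₂ 1) (D₂ 1) 0)
    (h5 : ∀ t ∈ Icc (0 : ℝ) 1, ‖low a b n (α₁ t) (D₁ t) (α₂ t) (D₂ t) 0‖ < 5 * a) :
    Rel0 B o a b n l h (st n (α₁ 0) (D₁ 0) (α₂ 0) (D₂ 0) 0)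
      (st n (α₁ 1) (D₁ 1) (α₂ 1) (D₂ 1) 0) := by
  intro z hz
  set L : ℝ → ℂ := fun t => low a b n (α₁ t) (D₁ t) (α₂ t) (D₂ t) 0 with hL
  have hlowc : Continuous L := by
    rw [hL]
    unfold low
    fun_prop
  have hz2 := hz.2
  rw [FF, low_eq B o C, EE_basis, st_o o C] at hz2
  simp only [Pi.zero_apply, Complex.ofReal_zero, zero_mul, Complex.exp_zero, mul_one] at hz2
  have hne : ∀ t ∈ Icc (0 : ℝ) 1, L t ≠ 0 := by
    intro t ht h0
    have := hre t ht
    change 0 < (L t).re at this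
    rw [h0, Complex.zero_re] at this
    exact lt_irrefl _ this
  have hmain := move_explicit B o C D α₁ D₁ α₂ D₂ hα₁ hD₁ hα₂ hD₂
    (fun t => z - (Complex.log (L t) - Complex.log (L 0)))
    (by
      refine continuousOn_const.sub (ContinuousOn.sub ?_ continuousOn_const)
      intro t ht
      exact (hlowc.continuousAt.clog (Or.inl (hre t ht))).continuousWithinAt)
    (by
      intro t ht
      have h0 := hne 0 ⟨le_rfl, zero_le_one⟩
      change 5 * a * Complex.exp (-(z - (Complex.log (L t) - Complex.log (L 0)))) = -(L t)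
      have e0 : -(z - (Complex.log (L t) - Complex.log (L 0))) = -z + Complex.log (L t) -
        Complex.log (L 0) := by ring
      rw [e0, Complex.exp_sub, Complex.exp_add, Complex.exp_log (hne t ht), Complex.exp_log h0]
      have h3 : 5 * a * Complex.exp (-z) = -(L 0) := by
        change 5 * a * Complex.exp (-z) + L 0 = 0 at hz2
        linear_combination hz2
      field_simp
      linear_combination (L t) * h3)
    h5
  have h01' : L 0 = L 1 := h01
  simp only [sub_self, sub_zero, h01'] at hmain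
  exact hmain

lemma TT_zero (C : Coef a b n o) : TT b n 0 = a := by
  simp only [TT, Pi.zero_apply, Complex.ofReal_zero, zero_mul, Complex.exp_zero, mul_one]
  rw [← Complex.ofReal_tsum, C.hrest]

end moves2

section steps

set_option linter.unusedSectionVars false

variable {K : Type*} [AddCommGroup K] [Module ℚ K] {ι : Type*} [DecidableEq ι]
  (B : Module.Basis ι ℚ K) {n : ℕ → ι} (o : ι)
  {a : ℝ} {b : ℕ → ℝ} {l : K →+ ℝ} {g h : K → ℂ}

lemma segment_lemma {a : ℝ} (ha : 0 < a) {L₀ w T : ℂ} (hL : L₀ ≠ 0) (hw : ‖w‖ = 2 * a)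
    (hT : ‖T‖ ≤ a) : ∃ ε : ℝ, (ε = 1 ∨ ε = -1) ∧ ∀ t ∈ Icc (0 : ℝ) 1,
      (1 - (t : ℂ)) * L₀ + t * ((ε : ℂ) * w + T) ≠ 0 := by
  by_contra hcon
  push Not at hcon
  obtain ⟨t₁, ht₁, e₁⟩ := hcon 1 (Or.inl rfl)
  obtain ⟨t₂, ht₂, e₂⟩ := hcon (-1) (Or.inr rfl)
  have ht₁0 : 0 < t₁ := by
    rcases ht₁.1.lt_or_eq with h | h
    · exact h
    · exfalso
      rw [← h] at e₁
      simp at e₁
      exact hL e₁
  have ht₂0 : 0 < t₂ := by
    rcases ht₂.1.lt_or_eq with h | h
    · exact h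
    · exfalso
      rw [← h] at e₂
      simp at e₂
      exact hL e₂
  obtain ⟨P, hPd⟩ : ∃ P : ℝ, P = t₂ * (1 - t₁) := ⟨_, rfl⟩
  obtain ⟨Q, hQd⟩ : ∃ Q : ℝ, Q = t₁ * (1 - t₂) := ⟨_, rfl⟩
  have hP : 0 ≤ P := by rw [hPd]; exact mul_nonneg ht₂0.le (sub_nonneg.mpr ht₁.2)
  have hQ : 0 ≤ Q := by rw [hQd]; exact mul_nonneg ht₁0.le (sub_nonneg.mpr ht₂.2)
  have s1 : ((2 * t₁ * t₂ : ℝ) : ℂ) * T = ((-(P + Q) : ℝ) : ℂ) * L₀ := by
    rw [hPd, hQd]
    push_cast at e₁ e₂ ⊢
    linear_combination (t₂ : ℂ) * e₁ + t₁ * e₂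
  have s2 : ((2 * t₁ * t₂ : ℝ) : ℂ) * w = ((Q - P : ℝ) : ℂ) * L₀ := by
    rw [hPd, hQd]
    push_cast at e₁ e₂ ⊢
    linear_combination (t₂ : ℂ) * e₁ - t₁ * e₂
  have n1 := congrArg norm s1
  have n2 := congrArg norm s2
  rw [norm_mul, norm_mul, Complex.norm_real, Complex.norm_real, Real.norm_eq_abs, Real.norm_eq_abs,
    abs_of_pos (by positivity), abs_neg, abs_of_nonneg (by positivity)] at n1
  rw [norm_mul, norm_mul, Complex.norm_real, Complex.norm_real, Real.norm_eq_abs, Real.norm_eq_abs,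
    abs_of_pos (by positivity), hw] at n2
  have h3 : |Q - P| ≤ P + Q := by
    rw [abs_le]
    constructor <;> linarith
  have h4 : |Q - P| * ‖L₀‖ ≤ (P + Q) * ‖L₀‖ := mul_le_mul_of_nonneg_right h3 (norm_nonneg _)
  have h5 : 0 < 2 * t₁ * t₂ := by positivity
  have h6 : 2 * t₁ * t₂ * ‖T‖ ≤ 2 * t₁ * t₂ * a := mul_le_mul_of_nonneg_left hT h5.le
  have h7 : 0 < 2 * t₁ * t₂ * a := mul_pos h5 ha
  nlinarith

lemma good_eq (C : Coef a b n o) {z : ℂ} {α₁ D₁ α₂ D₂ : ℝ} {r : ι → ℝ}
    (hz : Good B o a b n z (st n α₁ D₁ α₂ D₂ r)) :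
    low a b n α₁ D₁ α₂ D₂ r = -(5 * a * Complex.exp (-z) * Complex.exp ((r o : ℂ) * Complex.I)) := by
  have hz2 := hz.2
  rw [FF, low_eq B o C, EE_basis, st_o o C] at hz2
  linear_combination hz2

lemma good_ne (C : Coef a b n o) {z : ℂ} {α₁ D₁ α₂ D₂ : ℝ} {r : ι → ℝ}
    (hz : Good B o a b n z (st n α₁ D₁ α₂ D₂ r)) : low a b n α₁ D₁ α₂ D₂ r ≠ 0 := by
  rw [good_eq B o C hz]
  have ha : (a : ℂ) ≠ 0 := by exact_mod_cast C.ha.ne'
  have h1 := Complex.exp_ne_zero (-z)
  have h2 := Complex.exp_ne_zero ((r o : ℂ) * Complex.I)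
  have h5 : (5 : ℂ) ≠ 0 := by norm_num
  exact neg_ne_zero.mpr (mul_ne_zero (mul_ne_zero (mul_ne_zero h5 ha) h1) h2)

lemma good_norm (C : Coef a b n o) {z : ℂ} {α₁ D₁ α₂ D₂ : ℝ} {r : ι → ℝ}
    (hz : Good B o a b n z (st n α₁ D₁ α₂ D₂ r)) : ‖low a b n α₁ D₁ α₂ D₂ r‖ < 5 * a := by
  rw [good_eq B o C hz, norm_neg, norm_mul, norm_mul, norm_mul, Complex.norm_exp_ofReal_mul_I,
    Complex.norm_real, Real.norm_of_nonneg C.ha.le, Complex.norm_exp, Complex.neg_re, mul_one]
  have h2 : ‖(5 : ℂ)‖ = 5 := by norm_num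
  rw [h2]
  have h3 : Real.exp (-z.re) < 1 := by
    rw [Real.exp_lt_one_iff]
    linarith [hz.1]
  have ha := C.ha
  nlinarith

/-- The norm of a sum of a vector of length `2a` and one of length at most `a`. -/
lemma norm_two_add {a : ℝ} {w T : ℂ} (hw : ‖w‖ = 2 * a) (hT : ‖T‖ ≤ a) :
    a ≤ ‖w + T‖ ∧ ‖w + T‖ ≤ 3 * a := by
  constructor
  · have h1 : ‖w‖ ≤ ‖w + T‖ + ‖T‖ := by
      calc ‖w‖ = ‖(w + T) - T‖ := by rw [add_sub_cancel_right]
        _ ≤ ‖w + T‖ + ‖T‖ := norm_sub_le _ _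
    linarith
  · have := norm_add_le w T
    linarith

lemma norm_main (C : Coef a b n o) {ε : ℝ} (hε : ε = 1 ∨ ε = -1) (α : ℝ) :
    ‖2 * (a : ℂ) * ε * Complex.exp ((α : ℂ) * Complex.I)‖ = 2 * a := by
  rw [norm_mul, norm_mul, norm_mul, Complex.norm_exp_ofReal_mul_I, Complex.norm_real,
    Real.norm_of_nonneg C.ha.le, Complex.norm_real]
  rcases hε with h | h <;> rw [h] <;> norm_num

/-- Step A. -/
lemma stepA (C : Coef a b n o) (D : Fac a b (B o) (fun i => B (n i)) l g h)
    (α₁ D₁ α₂ D₂ : ℝ) (r : ι → ℝ) {z : ℂ} (hz : Good B o a b n z (st n α₁ D₁ α₂ D₂ r)) :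
    ∃ δ δ' ε : ℝ, (ε = 1 ∨ ε = -1) ∧ Real.cos δ = ε ∧ Real.cos δ' = 0 ∧
      Rel B o a b n l h (st n α₁ D₁ α₂ D₂ r) (st n α₁ δ α₂ δ' r) := by
  have hne := good_ne B o C hz
  have hno := good_norm B o C hz
  obtain ⟨ε, hε, hseg⟩ := segment_lemma C.ha hne (norm_main o C (Or.inl rfl) α₁)
    (norm_TT_le o C r)
  obtain ⟨A, hAc, hA0, hA⟩ := exists_angle D₁ ε (by rcases hε with h | h <;> rw [h] <;> norm_num)
  obtain ⟨A', hAc', hA0', hA'⟩ := exists_angle D₂ 0 (by norm_num)
  have hlow : ∀ t ∈ Icc (0 : ℝ) 1, low a b n α₁ (A t) α₂ (A' t) r =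
      (1 - (t : ℂ)) * low a b n α₁ D₁ α₂ D₂ r +
        t * ((ε : ℂ) * (2 * (a : ℂ) * (1 : ℝ) * Complex.exp ((α₁ : ℂ) * Complex.I)) + TT b n r) := by
    intro t ht
    rw [low, low, hA t ht, hA' t ht]
    push_cast
    ring
  refine ⟨A 1, A' 1, ε, hε, ?_, ?_, ?_⟩
  · rw [hA 1 ⟨zero_le_one, le_rfl⟩]; ring
  · rw [hA' 1 ⟨zero_le_one, le_rfl⟩]; ring
  · have hm := move B o C D (fun _ => α₁) A (fun _ => α₂) A' (fun _ => r) continuous_const hAc
      continuous_const hAc' continuous_const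
      (by
        intro t ht
        rw [hlow t ht]
        exact hseg t ht)
      (by
        intro t ht
        rw [hlow t ht]
        have h1 : ‖(ε : ℂ) * (2 * (a : ℂ) * (1 : ℝ) * Complex.exp ((α₁ : ℂ) * Complex.I)) +
            TT b n r‖ ≤ 3 * a := by
          have h2 := (norm_two_add (norm_main o C hε α₁) (norm_TT_le o C r)).2
          refine le_trans (le_of_eq ?_) h2
          congr 1
          push_cast
          ring
        have h3 : ‖(1 - (t : ℂ)) * low a b n α₁ D₁ α₂ D₂ r‖ =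
            (1 - t) * ‖low a b n α₁ D₁ α₂ D₂ r‖ := by
          rw [norm_mul, ← Complex.ofReal_one, ← Complex.ofReal_sub, Complex.norm_real,
            Real.norm_of_nonneg (sub_nonneg.mpr ht.2)]
        have h4 : ‖(t : ℂ) * ((ε : ℂ) * (2 * (a : ℂ) * (1 : ℝ) *
            Complex.exp ((α₁ : ℂ) * Complex.I)) + TT b n r)‖ ≤ t * (3 * a) := by
          rw [norm_mul, Complex.norm_real, Real.norm_of_nonneg ht.1]
          exact mul_le_mul_of_nonneg_left h1 ht.1
        refine (norm_add_le _ _).trans_lt ?_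
        rw [h3]
        have ha := C.ha
        rcases ht.2.lt_or_eq with h5 | h5
        · have := mul_lt_mul_of_pos_left hno (sub_pos.mpr h5)
          nlinarith [ht.1]
        · rw [h5] at h4 ⊢
          linarith)
    simp only [hA0, hA0'] at hm
    exact hm

/-- Step B. -/
lemma stepB (C : Coef a b n o) (D : Fac a b (B o) (fun i => B (n i)) l g h)
    (α₁ δ α₂ δ' : ℝ) (r : ι → ℝ) {ε : ℝ} (hε : ε = 1 ∨ ε = -1) (hδ : Real.cos δ = ε)
    (hδ' : Real.cos δ' = 0) :
    Rel B o a b n l h (st n α₁ δ α₂ δ' r) (st n α₁ δ α₂ δ' 0) := by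
  have hb : ∀ t : ℝ, a ≤ ‖low a b n α₁ δ α₂ δ' ((1 - t) • r)‖ ∧
      ‖low a b n α₁ δ α₂ δ' ((1 - t) • r)‖ ≤ 3 * a := by
    intro t
    rw [low, hδ, hδ']
    simp only [Complex.ofReal_zero, mul_zero, zero_mul, add_zero]
    exact norm_two_add (norm_main o C hε α₁) (norm_TT_le o C _)
  have ha := C.ha
  have hm := move B o C D (fun _ => α₁) (fun _ => δ) (fun _ => α₂) (fun _ => δ')
    (fun t => (1 - t) • r) continuous_const continuous_const continuous_const continuous_const
    (by fun_prop)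
    (by
      intro t _ h0
      have h1 := (hb t).1
      simp only [h0, norm_zero] at h1
      linarith)
    (by
      intro t _
      have h1 := (hb t).2
      change ‖low a b n α₁ δ α₂ δ' ((1 - t) • r)‖ < 5 * a
      linarith)
  simp only [sub_zero, one_smul, sub_self, zero_smul] at hm
  exact hm

/-- Moves which keep the lower part in the annulus, with vanishing small angles. -/
lemma move_annulus (C : Coef a b n o) (D : Fac a b (B o) (fun i => B (n i)) l g h)
    (α₁ α₂ : ℝ → ℝ) (hα₁ : Continuous α₁) (hα₂ : Continuous α₂) (δ δ' : ℝ) {ε : ℝ}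
    (hε : ε = 1 ∨ ε = -1) (hδ : Real.cos δ = ε) (hδ' : Real.cos δ' = 0) :
    Rel B o a b n l h (st n (α₁ 0) δ (α₂ 0) δ' 0) (st n (α₁ 1) δ (α₂ 1) δ' 0) := by
  have hb : ∀ t : ℝ, a ≤ ‖low a b n (α₁ t) δ (α₂ t) δ' 0‖ ∧
      ‖low a b n (α₁ t) δ (α₂ t) δ' 0‖ ≤ 3 * a := by
    intro t
    rw [low, hδ, hδ']
    simp only [Complex.ofReal_zero, mul_zero, zero_mul, add_zero]
    exact norm_two_add (norm_main o C hε (α₁ t)) (norm_TT_le o C _)
  have ha := C.ha
  have hm := move B o C D α₁ (fun _ => δ) α₂ (fun _ => δ')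
    (fun t => 0) hα₁ continuous_const hα₂ continuous_const
    continuous_const
    (by
      intro t _ h0
      have h1 := (hb t).1
      simp only [h0, norm_zero] at h1
      linarith)
    (by
      intro t _
      have h1 := (hb t).2
      change ‖low a b n (α₁ t) δ (α₂ t) δ' 0‖ < 5 * a
      linarith)
  exact hm

/-- Step C2. -/
lemma stepC2 (C : Coef a b n o) (D : Fac a b (B o) (fun i => B (n i)) l g h)
    (α₁ δ δ' : ℝ) {ε : ℝ} (hε : ε = 1 ∨ ε = -1) (hδ : Real.cos δ = ε) :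
    Rel B o a b n l h (st n α₁ δ (α₁ - δ + Real.pi / 2) δ' 0)
      (st n α₁ δ (α₁ - δ + Real.pi / 2) (Real.pi / 2) 0) := by
  have ha := C.ha
  set ψ : ℝ := α₁ - δ with hψ
  have hsin : Real.sin δ = 0 := by
    have h1 := Real.sin_sq_add_cos_sq δ
    rw [hδ] at h1
    have h2 : ε ^ 2 = 1 := by rcases hε with h | h <;> rw [h] <;> norm_num
    have h3 : Real.sin δ ^ 2 = 0 := by linarith
    exact pow_eq_zero_iff (two_ne_zero) |>.mp h3
  have hexpδ : Complex.exp ((δ : ℂ) * Complex.I) = ε := by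
    rw [Complex.exp_mul_I, ← Complex.ofReal_cos, ← Complex.ofReal_sin, hsin, hδ]
    simp
  have hε2 : (ε : ℂ) * ε = 1 := by rcases hε with h | h <;> rw [h] <;> norm_num
  have hmainexp : (ε : ℂ) * Complex.exp ((α₁ : ℂ) * Complex.I) =
      Complex.exp ((ψ : ℂ) * Complex.I) := by
    have h1 : (α₁ : ℂ) * Complex.I = (ψ : ℂ) * Complex.I + (δ : ℂ) * Complex.I := by
      rw [hψ]; push_cast; ring
    rw [h1, Complex.exp_add, hexpδ]
    linear_combination Complex.exp ((ψ : ℂ) * Complex.I) * hε2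
  have hquarter : Complex.exp (((ψ + Real.pi / 2 : ℝ) : ℂ) * Complex.I) =
      Complex.exp ((ψ : ℂ) * Complex.I) * Complex.I := by
    have h1 : ((ψ + Real.pi / 2 : ℝ) : ℂ) * Complex.I = (ψ : ℂ) * Complex.I +
        (Real.pi : ℂ) / 2 * Complex.I := by push_cast; ring
    rw [h1, Complex.exp_add, Complex.exp_pi_div_two_mul_I]
  have hlow : ∀ x : ℝ, low a b n α₁ δ (ψ + Real.pi / 2) x 0 =
      Complex.exp ((ψ : ℂ) * Complex.I) * (2 * a * (1 + Real.cos x * Complex.I) +
        a * Complex.exp (((-ψ : ℝ) : ℂ) * Complex.I)) := by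
    intro x
    have h2 : Complex.exp ((ψ : ℂ) * Complex.I) * Complex.exp (((-ψ : ℝ) : ℂ) * Complex.I) = 1 := by
      rw [← Complex.exp_add, ← Complex.exp_zero]
      congr 1
      push_cast; ring
    rw [low, hδ, hquarter, TT_zero o C]
    linear_combination (2 * a : ℂ) * hmainexp - (a : ℂ) * h2
  have hnorm : ∀ x : ℝ, ‖low a b n α₁ δ (ψ + Real.pi / 2) x 0‖ =
      ‖2 * (a : ℂ) * (1 + Real.cos x * Complex.I) +
        a * Complex.exp (((-ψ : ℝ) : ℂ) * Complex.I)‖ := by
    intro x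
    rw [hlow x, norm_mul, Complex.norm_exp_ofReal_mul_I, one_mul]
  have hre : ∀ x : ℝ, a ≤ (2 * (a : ℂ) * (1 + Real.cos x * Complex.I) +
        a * Complex.exp (((-ψ : ℝ) : ℂ) * Complex.I)).re := by
    intro x
    have h1 : (2 * (a : ℂ) * (1 + Real.cos x * Complex.I) +
        a * Complex.exp (((-ψ : ℝ) : ℂ) * Complex.I)).re = 2 * a + a * Real.cos (-ψ) := by
      rw [Complex.add_re, Complex.re_ofReal_mul, Complex.exp_ofReal_mul_I_re]
      congr 1
      simp
    rw [h1]
    have := Real.neg_one_le_cos (-ψ)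
    nlinarith
  have h5' : ∀ x : ℝ, ‖2 * (a : ℂ) * (1 + Real.cos x * Complex.I) +
        a * Complex.exp (((-ψ : ℝ) : ℂ) * Complex.I)‖ < 5 * a := by
    intro x
    refine (norm_add_le _ _).trans_lt ?_
    rw [norm_mul, norm_mul, norm_mul, Complex.norm_exp_ofReal_mul_I, Complex.norm_real,
      Real.norm_of_nonneg ha.le]
    have h1 : ‖(1 : ℂ) + Real.cos x * Complex.I‖ < 2 := by
      have h2 : ‖(1 : ℂ) + Real.cos x * Complex.I‖ ^ 2 = 1 + Real.cos x ^ 2 := by
        generalize Real.cos x = c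
        rw [← Complex.normSq_eq_norm_sq, Complex.normSq_apply]
        simp
        ring
      have h3 : Real.cos x ^ 2 ≤ 1 := Real.cos_sq_le_one x
      by_contra hcon
      push Not at hcon
      nlinarith
    have h4 : ‖(2 : ℂ)‖ = 2 := by norm_num
    rw [h4]
    nlinarith
  have hm := move B o C D (fun _ => α₁) (fun _ => δ) (fun _ => ψ + Real.pi / 2)
    (fun t => (1 - t) * δ' + t * (Real.pi / 2)) (fun _ => 0) continuous_const continuous_const
    continuous_const (by fun_prop) continuous_const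
    (by
      intro t _ h0
      have h1 := hnorm ((1 - t) * δ' + t * (Real.pi / 2))
      rw [h0, norm_zero] at h1
      have h2 := hre ((1 - t) * δ' + t * (Real.pi / 2))
      rw [norm_eq_zero.mp h1.symm, Complex.zero_re] at h2
      linarith)
    (by
      intro t _
      have h1 := hnorm ((1 - t) * δ' + t * (Real.pi / 2))
      have h2 := h5' ((1 - t) * δ' + t * (Real.pi / 2))
      rw [← h1] at h2
      exact h2)
  simp only [sub_zero, one_mul, zero_mul, add_zero, sub_self, zero_add] at hm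
  exact hm

/-- Steps B, C, D together. -/
lemma stepBCD (C : Coef a b n o) (D : Fac a b (B o) (fun i => B (n i)) l g h)
    (α₁ δ α₂ δ' : ℝ) (r : ι → ℝ) {ε : ℝ} (hε : ε = 1 ∨ ε = -1) (hδ : Real.cos δ = ε)
    (hδ' : Real.cos δ' = 0) :
    Rel B o a b n l h (st n α₁ δ α₂ δ' r) (st n δ δ 0 (Real.pi / 2) 0) := by
  refine (stepB B o C D α₁ δ α₂ δ' r hε hδ hδ').trans B o ?_
  have h1 := move_annulus B o C D (fun _ => α₁)
    (fun t => (1 - t) * α₂ + t * (α₁ - δ + Real.pi / 2)) continuous_const (by fun_prop)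
    δ δ' hε hδ hδ'
  simp only [sub_zero, one_mul, zero_mul, add_zero, sub_self, zero_add] at h1
  refine h1.trans B o ((stepC2 B o C D α₁ δ δ' hε hδ).trans B o ?_)
  have h2 := move_annulus B o C D (fun t => (1 - t) * α₁ + t * δ)
    (fun t => (1 - t) * (α₁ - δ + Real.pi / 2)) (by fun_prop) (by fun_prop)
    δ (Real.pi / 2) hε hδ Real.cos_pi_div_two
  simp only [sub_zero, one_mul, zero_mul, add_zero, sub_self, zero_add] at h2
  exact h2

end steps

section steps2

set_option linter.unusedSectionVars false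

variable {K : Type*} [AddCommGroup K] [Module ℚ K] {ι : Type*} [DecidableEq ι]
  (B : Module.Basis ι ℚ K) {n : ℕ → ι} (o : ι)
  {a : ℝ} {b : ℕ → ℝ} {l : K →+ ℝ} {g h : K → ℂ}

lemma const_move (C : Coef a b n o) (D : Fac a b (B o) (fun i => B (n i)) l g h)
    (α₁ D₁ α₂ D₂ : ℝ → ℝ) (hα₁ : Continuous α₁) (hD₁ : Continuous D₁)
    (hα₂ : Continuous α₂) (hD₂ : Continuous D₂)
    (h3 : ∀ t ∈ Icc (0 : ℝ) 1, low a b n (α₁ t) (D₁ t) (α₂ t) (D₂ t) 0 = ((3 * a : ℝ) : ℂ)) :
    Rel0 B o a b n l h (st n (α₁ 0) (D₁ 0) (α₂ 0) (D₂ 0) 0)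
      (st n (α₁ 1) (D₁ 1) (α₂ 1) (D₂ 1) 0) := by
  have ha := C.ha
  refine move0 B o C D α₁ D₁ α₂ D₂ hα₁ hD₁ hα₂ hD₂ ?_ ?_ ?_
  · intro t ht
    rw [h3 t ht, Complex.ofReal_re]
    linarith
  · rw [h3 0 ⟨le_rfl, zero_le_one⟩, h3 1 ⟨zero_le_one, le_rfl⟩]
  · intro t ht
    rw [h3 t ht, Complex.norm_real, Real.norm_of_nonneg (by linarith)]
    linarith

/-- Step E. -/
lemma stepE (C : Coef a b n o) (D : Fac a b (B o) (fun i => B (n i)) l g h)
    (α δ : ℝ) (hc : (Real.cos δ : ℂ) * Complex.exp ((α : ℂ) * Complex.I) = 1) :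
    Rel0 B o a b n l h (st n α δ 0 (Real.pi / 2) 0) (st n 0 0 0 (Real.pi / 2) 0) := by
  have ha := C.ha
  obtain ⟨A, hAc, hA0, hA⟩ := exists_angle δ 0 (by norm_num)
  have hA1 : Real.cos (A 1) = 0 := by
    rw [hA 1 ⟨zero_le_one, le_rfl⟩]; ring
  -- E1
  have e1 := const_move B o C D (fun _ => α) A (fun _ => 0) (fun t => Real.arccos t)
    continuous_const hAc continuous_const Real.continuous_arccos
    (by
      intro t ht
      rw [low, TT_zero o C, hA t ht, Real.cos_arccos (by linarith [ht.1]) ht.2]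
      push_cast
      rw [zero_mul, Complex.exp_zero]
      rw [Complex.ofReal_cos] at hc
      linear_combination (2 * a * (1 - t) : ℂ) * hc)
  simp only [hA0, Real.arccos_zero, Real.arccos_one] at e1
  -- E2
  have e2 := const_move B o C D (fun t => (1 - t) * α + t * (Real.pi / 2)) (fun _ => A 1)
    (fun _ => 0) (fun _ => 0) (by fun_prop) continuous_const continuous_const continuous_const
    (by
      intro t ht
      rw [low, TT_zero o C, hA1, Real.cos_zero]
      push_cast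
      rw [zero_mul, Complex.exp_zero]
      ring)
  simp only [sub_zero, one_mul, zero_mul, add_zero, sub_self, zero_add] at e2
  -- E3
  have l3 : ∀ t : ℝ, low a b n (Real.pi / 2) ((1 - t) * A 1 + t * (Real.pi / 2)) 0 0 0 =
      ((3 * a : ℝ) : ℂ) + ((2 * a * Real.cos ((1 - t) * A 1 + t * (Real.pi / 2)) : ℝ) : ℂ) *
        Complex.I := by
    intro t
    have h1 : Complex.exp (((Real.pi / 2 : ℝ) : ℂ) * Complex.I) = Complex.I := by
      rw [Complex.ofReal_div, Complex.ofReal_ofNat, Complex.exp_pi_div_two_mul_I]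
    rw [low, TT_zero o C, h1, Real.cos_zero, Complex.ofReal_zero, zero_mul, Complex.exp_zero]
    push_cast
    ring
  have e3 := move0 B o C D (fun _ => Real.pi / 2) (fun t => (1 - t) * A 1 + t * (Real.pi / 2))
    (fun _ => 0) (fun _ => 0) continuous_const (by fun_prop) continuous_const continuous_const
    (by
      intro t ht
      rw [l3 t]
      simp only [Complex.add_re, Complex.ofReal_re, Complex.re_ofReal_mul, Complex.I_re, mul_zero,
        add_zero]
      linarith)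
    (by
      rw [l3 0, l3 1]
      simp only [sub_zero, one_mul, zero_mul, add_zero, sub_self, zero_add, hA1,
        Real.cos_pi_div_two])
    (by
      intro t ht
      rw [l3 t]
      have h1 := Real.cos_sq_le_one ((1 - t) * A 1 + t * (Real.pi / 2))
      generalize Real.cos ((1 - t) * A 1 + t * (Real.pi / 2)) = c at h1
      have h2 : ‖((3 * a : ℝ) : ℂ) + ((2 * a * c : ℝ) : ℂ) * Complex.I‖ ^ 2 =
          (3 * a) ^ 2 + (2 * a * c) ^ 2 := by
        rw [← Complex.normSq_eq_norm_sq, Complex.normSq_add_mul_I]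
      by_contra hcon
      push Not at hcon
      have h3 : (5 * a) ^ 2 ≤ (3 * a) ^ 2 + (2 * a * c) ^ 2 := by
        rw [← h2]
        exact pow_le_pow_left₀ (by positivity) hcon 2
      have h4 : 0 < a ^ 2 := by positivity
      nlinarith)
  simp only [sub_zero, one_mul, zero_mul, add_zero, sub_self, zero_add] at e3
  -- E4
  have e4 := const_move B o C D (fun t => (1 - t) * (Real.pi / 2)) (fun _ => Real.pi / 2)
    (fun _ => 0) (fun _ => 0) (by fun_prop) continuous_const continuous_const continuous_const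
    (by
      intro t ht
      rw [low, TT_zero o C, Real.cos_pi_div_two, Real.cos_zero]
      push_cast
      rw [zero_mul, Complex.exp_zero]
      ring)
  simp only [sub_zero, one_mul, zero_mul, sub_self] at e4
  -- E5
  have e5 := const_move B o C D (fun _ => 0) (fun t => Real.arccos t)
    (fun _ => 0) (fun t => Real.arccos (1 - t)) continuous_const Real.continuous_arccos
    continuous_const (Real.continuous_arccos.comp (by fun_prop))
    (by
      intro t ht
      rw [low, TT_zero o C, Real.cos_arccos (by linarith [ht.1]) ht.2,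
        Real.cos_arccos (by linarith [ht.2]) (by linarith [ht.1])]
      push_cast
      rw [zero_mul, Complex.exp_zero]
      ring)
  simp only [Real.arccos_zero, Real.arccos_one, sub_zero, sub_self] at e5
  exact e1.trans B o (e2.trans B o (e3.trans B o (e4.trans B o e5)))

/-- Every good state is related to the central one. -/
lemma rel_cstar (C : Coef a b n o) (D : Fac a b (B o) (fun i => B (n i)) l g h)
    (c : ι → ℝ) {z : ℂ} (hz : Good B o a b n z c) :
    ∃ z', Good B o a b n z' (st n 0 0 0 (Real.pi / 2) 0) ∧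
      (GG h l z (EE B c) = 0 ↔ GG h l z' (EE B (st n 0 0 0 (Real.pi / 2) 0)) = 0) := by
  have hc := (st_eta o C c).symm
  rw [hc] at hz
  obtain ⟨δ, δ', ε, hε, hδ, hδ', hA⟩ := stepA B o C D _ _ _ _ _ hz
  have hBCD := stepBCD B o C D ((c (n 0) + c (n 1)) / 2) δ ((c (n 2) + c (n 3)) / 2) δ' c hε hδ hδ'
  have hE : Rel0 B o a b n l h (st n δ δ 0 (Real.pi / 2) 0) (st n 0 0 0 (Real.pi / 2) 0) := by
    refine stepE B o C D δ δ ?_
    have hsin : Real.sin δ = 0 := by
      have h1 := Real.sin_sq_add_cos_sq δ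
      rw [hδ] at h1
      have h2 : ε ^ 2 = 1 := by rcases hε with h | h <;> rw [h] <;> norm_num
      have h3 : Real.sin δ ^ 2 = 0 := by linarith
      exact pow_eq_zero_iff (two_ne_zero) |>.mp h3
    rw [Complex.exp_mul_I, ← Complex.ofReal_cos, ← Complex.ofReal_sin, hsin, hδ]
    rcases hε with h | h <;> rw [h] <;> norm_num
  have hall := (hA.trans B o hBCD).trans B o (hE.rel B o)
  obtain ⟨z', hz', e⟩ := hall z hz
  refine ⟨z', hz', ?_⟩
  rw [hc]
  exact e

/-- Step F: monodromy. -/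
lemma stepF (C : Coef a b n o) (D : Fac a b (B o) (fun i => B (n i)) l g h)
    {z : ℂ} (hz : Good B o a b n z (st n 0 0 0 (Real.pi / 2) 0)) :
    Good B o a b n (z - 2 * Real.pi * Complex.I) (st n 0 0 0 (Real.pi / 2) 0) ∧
      (GG h l z (EE B (st n 0 0 0 (Real.pi / 2) 0)) = 0 ↔
        GG h l (z - 2 * Real.pi * Complex.I) (EE B (st n 0 0 0 (Real.pi / 2) 0)) = 0) := by
  have ha := C.ha
  have hz2 := good_eq B o C hz
  rw [low, TT_zero o C, Real.cos_zero, Real.cos_pi_div_two] at hz2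
  simp only [Complex.ofReal_zero, mul_zero, zero_mul, Complex.exp_zero, Complex.ofReal_one, mul_one,
    add_zero, Pi.zero_apply] at hz2
  have hlowt : ∀ t : ℝ, low a b n (2 * Real.pi * t) 0 0 (Real.pi / 2) 0 =
      2 * a * Complex.exp (((2 * Real.pi * t : ℝ) : ℂ) * Complex.I) + a := by
    intro t
    rw [low, TT_zero o C, Real.cos_zero, Real.cos_pi_div_two]
    simp
  have hre : ∀ t : ℝ, 0 < ((2 : ℂ) + Complex.exp (((-(2 * Real.pi * t) : ℝ) : ℂ) * Complex.I)).re := by
    intro t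
    rw [Complex.add_re, Complex.exp_ofReal_mul_I_re]
    have := Real.neg_one_le_cos (-(2 * Real.pi * t))
    have h2 : (2 : ℂ).re = 2 := rfl
    rw [h2]
    linarith
  have hne : ∀ t : ℝ, (2 : ℂ) + Complex.exp (((-(2 * Real.pi * t) : ℝ) : ℂ) * Complex.I) ≠ 0 := by
    intro t h0
    have := hre t
    rw [h0, Complex.zero_re] at this
    exact lt_irrefl _ this
  have hm := move_explicit B o C D (fun t => 2 * Real.pi * t) (fun _ => 0) (fun _ => 0)
    (fun _ => Real.pi / 2) (by fun_prop) continuous_const continuous_const continuous_const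
    (fun t => z - ((2 * Real.pi * t : ℝ) : ℂ) * Complex.I -
      (Complex.log ((2 : ℂ) + Complex.exp (((-(2 * Real.pi * t) : ℝ) : ℂ) * Complex.I)) -
        Complex.log 3))
    (by
      refine ContinuousOn.sub (by fun_prop) (ContinuousOn.sub ?_ continuousOn_const)
      intro t _
      refine ContinuousAt.continuousWithinAt ?_
      exact ContinuousAt.clog (by fun_prop) (Or.inl (hre t)))
    (by
      intro t _
      have e0 : -(z - ((2 * Real.pi * t : ℝ) : ℂ) * Complex.I -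
          (Complex.log ((2 : ℂ) + Complex.exp (((-(2 * Real.pi * t) : ℝ) : ℂ) * Complex.I)) -
            Complex.log 3)) = -z + ((2 * Real.pi * t : ℝ) : ℂ) * Complex.I +
          Complex.log ((2 : ℂ) + Complex.exp (((-(2 * Real.pi * t) : ℝ) : ℂ) * Complex.I)) -
            Complex.log 3 := by ring
      have e1 : Complex.exp (((2 * Real.pi * t : ℝ) : ℂ) * Complex.I) *
          Complex.exp (((-(2 * Real.pi * t) : ℝ) : ℂ) * Complex.I) = 1 := by
        rw [← Complex.exp_add, ← Complex.exp_zero]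
        congr 1
        push_cast
        ring
      rw [hlowt, e0, Complex.exp_sub, Complex.exp_add, Complex.exp_add, Complex.exp_log (hne t),
        Complex.exp_log (by norm_num)]
      generalize Complex.exp (((2 * Real.pi * t : ℝ) : ℂ) * Complex.I) = E at e1 ⊢
      generalize Complex.exp (((-(2 * Real.pi * t) : ℝ) : ℂ) * Complex.I) = E' at e1 ⊢
      generalize Complex.exp (-z) = W at hz2 ⊢
      field_simp
      linear_combination (E * (2 + E')) * hz2 + (-3 * a : ℂ) * e1)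
    (by
      intro t _
      rw [hlowt]
      refine (norm_add_le _ _).trans_lt ?_
      rw [norm_mul, norm_mul, Complex.norm_exp_ofReal_mul_I, Complex.norm_real,
        Real.norm_of_nonneg ha.le]
      have h2 : ‖(2 : ℂ)‖ = 2 := by norm_num
      rw [h2]
      linarith)
  have hz0 : z - ((2 * Real.pi * 0 : ℝ) : ℂ) * Complex.I -
      (Complex.log ((2 : ℂ) + Complex.exp (((-(2 * Real.pi * 0) : ℝ) : ℂ) * Complex.I)) -
        Complex.log 3) = z := by
    have h3 : (2 : ℂ) + 1 = 3 := by norm_num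
    simp [h3]
  have hz1 : z - ((2 * Real.pi * 1 : ℝ) : ℂ) * Complex.I -
      (Complex.log ((2 : ℂ) + Complex.exp (((-(2 * Real.pi * 1) : ℝ) : ℂ) * Complex.I)) -
        Complex.log 3) = z - 2 * Real.pi * Complex.I := by
    have h3 : (2 : ℂ) + 1 = 3 := by norm_num
    have h4 : Complex.exp (((-(2 * Real.pi * 1) : ℝ) : ℂ) * Complex.I) = 1 := by
      rw [Complex.exp_eq_one_iff]
      exact ⟨-1, by push_cast; ring⟩
    rw [h4, h3, sub_self, sub_zero]
    push_cast
    ring
  obtain ⟨hg, he⟩ := hm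
  simp only [hz0, hz1] at hg he
  rw [mul_zero, mul_one] at he
  rw [mul_one] at hg
  have hE := stepE B o C D (2 * Real.pi) 0 (by
    rw [Real.cos_zero]
    push_cast
    rw [Complex.exp_two_pi_mul_I, mul_one])
  obtain ⟨hg', he'⟩ := hE _ hg
  exact ⟨hg', he.trans he'⟩

/-- All zeros over the central state have the same colour. -/
lemma color_cstar (C : Coef a b n o) (D : Fac a b (B o) (fun i => B (n i)) l g h)
    {z z' : ℂ} (hz : Good B o a b n z (st n 0 0 0 (Real.pi / 2) 0))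
    (hz' : Good B o a b n z' (st n 0 0 0 (Real.pi / 2) 0)) :
    GG h l z (EE B (st n 0 0 0 (Real.pi / 2) 0)) = 0 ↔
      GG h l z' (EE B (st n 0 0 0 (Real.pi / 2) 0)) = 0 := by
  have hex : Complex.exp z = Complex.exp z' := by
    have h1 := good_eq B o C hz
    have h2 := good_eq B o C hz'
    rw [h1] at h2
    have ha : (a : ℂ) ≠ 0 := by exact_mod_cast C.ha.ne'
    simp only [Pi.zero_apply, Complex.ofReal_zero, zero_mul, Complex.exp_zero, mul_one, neg_inj]
      at h2
    have h5 : (5 : ℂ) * a ≠ 0 := mul_ne_zero (by norm_num) ha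
    have h3 := mul_left_cancel₀ h5 h2
    rw [Complex.exp_neg, Complex.exp_neg, inv_inj] at h3
    exact h3
  rw [Complex.exp_eq_exp_iff_exists_int] at hex
  obtain ⟨m, hm⟩ := hex
  have key : ∀ (m : ℕ) (z z' : ℂ), Good B o a b n z (st n 0 0 0 (Real.pi / 2) 0) →
      z = z' + (m : ℂ) * (2 * Real.pi * Complex.I) →
      (GG h l z (EE B (st n 0 0 0 (Real.pi / 2) 0)) = 0 ↔
      GG h l z' (EE B (st n 0 0 0 (Real.pi / 2) 0)) = 0) := by
    intro m
    induction m with
    | zero =>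
      intro z z' _ h
      simp only [Nat.cast_zero, zero_mul, add_zero] at h
      rw [h]
    | succ m ih =>
      intro z z' hz h
      obtain ⟨h1, h2⟩ := stepF B o C D hz
      refine h2.trans (ih _ _ h1 ?_)
      rw [h]
      push_cast
      ring
  rcases le_total 0 m with h | h
  · lift m to ℕ using h
    exact key m z z' hz (by rw [hm]; push_cast; ring)
  · obtain ⟨k, hk⟩ := Int.exists_eq_neg_ofNat h
    exact (key k z' z hz' (by rw [hm, hk]; push_cast; ring)).symm

end steps2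

section final

set_option linter.unusedSectionVars false

variable {K : Type*} [AddCommGroup K] [Module ℚ K] {ι : Type*} [DecidableEq ι]
  (B : Module.Basis ι ℚ K) {n : ℕ → ι} (o : ι)
  {a : ℝ} {b : ℕ → ℝ} {l : K →+ ℝ} {g h : K → ℂ}

/-- A zero of a given colour can be moved to an exponential character, keeping its colour. -/
lemma exists_good (D : Fac a b (B o) (fun i => B (n i)) l g h)
    {z : ℂ} {ω : DualG K} (hz : 0 < z.re) (h0 : GG h l z ω = 0) :
    ∃ c : ι → ℝ, Good B o a b n z c ∧ GG h l z (EE B c) = 0 := by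
  have hF0 : FF a b (B o) (fun i => B (n i)) z ω = 0 := by
    rw [← D.hprod z hz.le ω, h0, mul_zero]
  have hg : GG g l z ω ≠ 0 := fun hg => simple_zero D hz ω hg h0
  obtain ⟨c, hc1, hc2⟩ := exists_exp_seq B ω
  have hF : ∀ k, FF a b (B o) (fun i => B (n i)) z (EE B (c k)) = 0 := by
    intro k
    rw [← hF0]
    simp only [FF, hc1]
  have hcont : Continuous fun ω' : DualG K => GG g l z ω' := by
    rw [← continuousOn_univ]
    refine (GG_continuousOn D.hgs D.hgl).comp (f := fun ω' : DualG K => (z, ω')) (by fun_prop) ?_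
    intro ω' _
    exact ⟨hz.le, mem_univ _⟩
  have ht : Tendsto (fun k => GG g l z (EE B (c k))) atTop (𝓝 (GG g l z ω)) :=
    (hcont.tendsto ω).comp hc2
  obtain ⟨k, hk⟩ := (ht.eventually_ne hg).exists
  refine ⟨c k, ⟨hz, hF k⟩, ?_⟩
  have h1 := D.hprod z hz.le (EE B (c k))
  rw [hF k, mul_eq_zero] at h1
  exact h1.resolve_left hk

lemma Fac.symm {x : K} {y : ℕ → K} (D : Fac a b x y l g h) : Fac a b x y l h g where
  ha := D.ha
  hgs := D.hhs
  hhs := D.hgs
  hgl := D.hhl
  hhl := D.hgl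
  hprod := fun z hz ω => by rw [mul_comm]; exact D.hprod z hz ω

lemma not_both (C : Coef a b n o) (D : Fac a b (B o) (fun i => B (n i)) l g h)
    {z₁ z₂ : ℂ} {ω₁ ω₂ : DualG K} (hz₁ : 0 < z₁.re) (hz₂ : 0 < z₂.re)
    (h1 : GG g l z₁ ω₁ = 0) (h2 : GG h l z₂ ω₂ = 0) : False := by
  obtain ⟨c₁, hc₁, e₁⟩ := exists_good B o D.symm hz₁ h1
  obtain ⟨c₂, hc₂, e₂⟩ := exists_good B o D hz₂ h2
  obtain ⟨w₁, hw₁, f₁⟩ := rel_cstar B o C D.symm c₁ hc₁
  obtain ⟨w₂, hw₂, f₂⟩ := rel_cstar B o C D c₂ hc₂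
  have g1 := f₁.mp e₁
  have g2 := (color_cstar B o C D hw₁ hw₂).mpr (f₂.mp e₂)
  exact simple_zero D hw₁.1 _ g1 g2

end final

end Dich

set_option linter.unusedVariables false in
/-- Module DICH (special-scale dichotomy). At a scale `x` where the coefficient of the top atom
equals the sum `5 a` of all lower coefficients, four lower atoms having coefficient `a` and the rest
summing to `a`, the zeros with `Re z > 0` cannot be shared between `g` and `h`. -/
theorem no_both {K : Type*} [AddCommGroup K] [Module ℚ K] {x : K} {y : ℕ → K} {l : K →ₗ[ℚ] ℝ}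
    (hlx : l x = 1) (hly : ∀ i, l (y i) = 0)
    (hli : LinearIndependent ℚ (fun o : Option ℕ => o.elim x y))
    {a : ℝ} (ha : 0 < a) {b : ℕ → ℝ} (hb0 : ∀ i, 0 ≤ b i) (hbs : Summable b)
    (hb4 : ∀ i < 4, b i = a) (hrest : ∑' i, b (i + 4) = a)
    (hsmall : ∀ ε > 0, ∃ i, 4 ≤ i ∧ 0 < b i ∧ b i < ε)
    {g h : K → ℂ} (hgs : Summable fun x => ‖g x‖) (hhs : Summable fun x => ‖h x‖)
    (hgl : ∀ x, g x ≠ 0 → 0 ≤ l x) (hhl : ∀ x, h x ≠ 0 → 0 ≤ l x)
    (hprod : ∀ z : ℂ, 0 ≤ z.re → ∀ ω : DualG K,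
      GG g l.toAddMonoidHom z ω * GG h l.toAddMonoidHom z ω =
        5 * a * Complex.exp (-z) * ((ω x : Circle) : ℂ) + ∑' i, (b i : ℂ) * ((ω (y i) : Circle) : ℂ)) :
    ¬ ((∃ (z : ℂ) (ω : DualG K), 0 < z.re ∧ GG g l.toAddMonoidHom z ω = 0) ∧
       (∃ (z : ℂ) (ω : DualG K), 0 < z.re ∧ GG h l.toAddMonoidHom z ω = 0)) := by
  classical
  rintro ⟨⟨z₁, ω₁, hz₁, h1⟩, z₂, ω₂, hz₂, h2⟩
  have hli' : LinearIndepOn ℚ id (Set.range (fun o : Option ℕ => o.elim x y)) :=
    hli.linearIndepOn_id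
  have hsub := hli'.subset_extend (subset_univ _)
  have hx : x ∈ hli'.extend (subset_univ _) := hsub ⟨none, rfl⟩
  have hy : ∀ i, y i ∈ hli'.extend (subset_univ _) := fun i => hsub ⟨some i, rfl⟩
  have hBo : (Module.Basis.extend hli') ⟨x, hx⟩ = x := Module.Basis.extend_apply_self _ _
  have hBn : ∀ i, (Module.Basis.extend hli') ⟨y i, hy i⟩ = y i :=
    fun i => Module.Basis.extend_apply_self _ _
  have hC : Dich.Coef a b (fun i => (⟨y i, hy i⟩ : hli'.extend (subset_univ _))) ⟨x, hx⟩ :=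
    { ha := ha
      hb0 := hb0
      hbs := hbs
      hb4 := hb4
      hrest := hrest
      hn := by
        intro i j hij
        have h1 : y i = y j := congrArg Subtype.val hij
        have h2 : (some i : Option ℕ) = some j := hli.injective h1
        exact Option.some_injective _ h2
      ho := by
        intro i hi
        have h1 : y i = x := congrArg Subtype.val hi
        have h2 : (some i : Option ℕ) = none := hli.injective h1
        exact Option.some_ne_none _ h2 }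
  have hD : Dich.Fac a b ((Module.Basis.extend hli') ⟨x, hx⟩)
      (fun i => (Module.Basis.extend hli') ⟨y i, hy i⟩) l.toAddMonoidHom g h :=
    { ha := ha
      hgs := hgs
      hhs := hhs
      hgl := hgl
      hhl := hhl
      hprod := by
        intro z hz ω
        simp only [hBo, hBn]
        exact hprod z hz ω }
  exact Dich.not_both _ _ hC hD hz₁ hz₂ h1 h2

end Pool.Agent.H92
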