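import Pool.Agent.H32.Tubes
open MeasureTheory Filter Set
open scoped Topology ENNReal RealInnerProductSpace
open Pool.Agent.H32.Tree

namespace Pool.Agent.H32.Tubes

variable {d : ℕ} (b : OrthonormalBasis (Fin (d + 1)) ℝ (EuclideanSpace ℝ (Fin (d + 1))))

/-- Slopes discretised at scale `δ / M`, ordered from the last coordinate to the first. -/
noncomputable def lab (M : ℕ) (δ : ℝ) (e : EuclideanSpace ℝ (Fin (d + 1))) (m : Fin d) : ℤ :=
  ⌊(M : ℝ) * slope b e (Fin.rev m) / δ⌋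

lemma slope_sub_lt {M : ℕ} {δ : ℝ} (hδ : 0 < δ) (hM : 1 ≤ M)
    {e e' : EuclideanSpace ℝ (Fin (d + 1))}
    {m : Fin d} (h : lab b M δ e m = lab b M δ e' m) :
    |slope b e (Fin.rev m) - slope b e' (Fin.rev m)| < δ / M := by
  have hd' : (0 : ℝ) < M := by exact_mod_cast hM
  have h1 := Int.abs_sub_lt_one_of_floor_eq_floor h
  rw [← sub_div, ← mul_sub, abs_div, abs_mul, abs_of_pos hδ, abs_of_pos hd', div_lt_one hδ] at h1
  rw [lt_div_iff₀ hd']
  linarith

lemma le_slope_sub {M : ℕ} {δ : ℝ} (hδ : 0 < δ) (hM : 1 ≤ M)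
    (e e' : EuclideanSpace ℝ (Fin (d + 1))) (m : Fin d) :
    (|((lab b M δ e' m - lab b M δ e m : ℤ) : ℝ)| - 1) * (δ / M) ≤
      |slope b e (Fin.rev m) - slope b e' (Fin.rev m)| := by
  have hd' : (0 : ℝ) < M := by exact_mod_cast hM
  set z := (M : ℝ) * slope b e (Fin.rev m) / δ with hz
  set z' := (M : ℝ) * slope b e' (Fin.rev m) / δ with hz'
  have h1 : |((lab b M δ e' m - lab b M δ e m : ℤ) : ℝ)| ≤ |z - z'| + 1 := by
    have e1 : lab b M δ e' m = ⌊z'⌋ := rfl
    have e2 : lab b M δ e m = ⌊z⌋ := rfl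
    rw [e1, e2]
    push_cast
    have h3 := Int.floor_le z
    have h4 := Int.lt_floor_add_one z
    have h5 := Int.floor_le z'
    have h6 := Int.lt_floor_add_one z'
    rw [abs_le]
    have h7 := neg_abs_le (z - z')
    have h8 := le_abs_self (z - z')
    constructor <;> linarith
  have h2 : |z - z'| * (δ / M) = |slope b e (Fin.rev m) - slope b e' (Fin.rev m)| := by
    rw [hz, hz', ← sub_div, ← mul_sub, abs_div, abs_mul, abs_of_pos hδ, abs_of_pos hd']
    field_simp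
  rw [← h2]
  apply mul_le_mul_of_nonneg_right _ (by positivity)
  linarith

lemma abs_lab_le {M : ℕ} {δ c₀ : ℝ} (hδ : 0 < δ) (hδ1 : δ < 1) (hM : 1 ≤ M) (hc₀ : 0 < c₀)
    (e : EuclideanSpace ℝ (Fin (d + 1))) (he : ‖e‖ = 1)
    (h : c₀ ≤ |⟪b (Fin.last d), e⟫|) (m : Fin d) :
    |((lab b M δ e m : ℤ) : ℝ)| * δ ≤ M / c₀ + 1 := by
  have hd' : (0 : ℝ) < M := by exact_mod_cast hM
  set z := (M : ℝ) * slope b e (Fin.rev m) / δ with hz
  have e2 : lab b M δ e m = ⌊z⌋ := rfl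
  have h1 : |((lab b M δ e m : ℤ) : ℝ)| ≤ |z| + 1 := by
    rw [e2]
    have h3 := Int.floor_le z
    have h4 := Int.lt_floor_add_one z
    rw [abs_le]
    have h7 := neg_abs_le z
    have h8 := le_abs_self z
    constructor <;> linarith
  have h2 : |z| * δ ≤ M / c₀ := by
    rw [hz, abs_div, abs_mul, abs_of_pos hδ, abs_of_pos hd']
    have h3 := abs_slope_le b hc₀ e he h (Fin.rev m)
    calc (M : ℝ) * |slope b e (Fin.rev m)| / δ * δ = M * |slope b e (Fin.rev m)| := by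
          field_simp
      _ ≤ M * (1 / c₀) := by gcongr
      _ = M / c₀ := by ring
  nlinarith

/-- Triangular families: two tubes whose slopes agree up to `η δ` from the `j`-th one on have, at
equal heights, `j`-th coordinates differing by at most `A δ`. -/
def Triangular {ι : Type*} (δ η A : ℝ) (c e : ι → EuclideanSpace ℝ (Fin (d + 1))) : Prop :=
  ∀ (i i' : ι), i ≠ i' → ∀ (j : Fin d),
    (∀ l, j ≤ l → |slope b (e i) l - slope b (e i') l| ≤ η * δ) →
    ∀ x ∈ cyl (1 / 2) δ (c i) (e i), ∀ x' ∈ cyl (1 / 2) δ (c i') (e i'),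
      ⟪b (Fin.last d), x⟫ = ⟪b (Fin.last d), x'⟫ →
      |⟪b j.castSucc, x⟫ - ⟪b j.castSucc, x'⟫| ≤ A * δ

/-- The point of the axis at height `g`. -/
lemma axis_point {c₀ δ g : ℝ} (hδ : 0 ≤ δ) (hc₀ : 0 < c₀)
    (c e : EuclideanSpace ℝ (Fin (d + 1)))
    (he : ‖e‖ = 1) (h : c₀ ≤ |⟪b (Fin.last d), e⟫|) (hg : |g - ⟪b (Fin.last d), c⟫| ≤ c₀ / 2) :
    ∃ p ∈ cyl (1 / 2) δ c e, ⟪b (Fin.last d), p⟫ = g ∧
      ∀ j : Fin d, ⟪b j.castSucc, p⟫ = foot b c e j + slope b e j * g := by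
  have hlast : ⟪b (Fin.last d), e⟫ ≠ 0 := by
    intro h0
    rw [h0, abs_zero] at h
    linarith
  have hee : ⟪e, e⟫ = (1 : ℝ) := by rw [real_inner_self_eq_norm_sq, he]; norm_num
  set s : ℝ := (g - ⟪b (Fin.last d), c⟫) / ⟪b (Fin.last d), e⟫ with hs
  refine ⟨c + s • e, ⟨?_, ?_⟩, ?_, ?_⟩
  · have : ⟪c + s • e - c, e⟫ = s := by
      rw [add_sub_cancel_left, inner_smul_left, hee]; simp
    rw [this, hs, abs_div]
    rw [div_le_iff₀ (lt_of_lt_of_le hc₀ h)]
    linarith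
  · have : ⟪c + s • e - c, e⟫ = s := by
      rw [add_sub_cancel_left, inner_smul_left, hee]; simp
    rw [this, add_sub_cancel_left, sub_self, norm_zero]
    exact hδ
  · rw [inner_add_right, inner_smul_right, hs]
    field_simp
    ring
  · intro j
    rw [inner_add_right, inner_smul_right, hs]
    unfold foot slope
    field_simp
    ring

/-- The constant in the estimate of the extent. -/
noncomputable def Kc (M : ℕ) (A c₀ : ℝ) : ℝ :=
  1 + (2 * M * (4 * (1 + 1 / c₀) + A + 2) + (4 * M / c₀ + 4)) / c₀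

lemma extent {ι : Type*} {M : ℕ} {δ η A c₀ : ℝ} (hδ : 0 < δ) (hδ1 : δ < 1) (hM : 1 ≤ M)
    (hη : 1 / (M : ℝ) ≤ η)
    (hA : 0 ≤ A) (hc₀ : 0 < c₀)
    (c e : ι → EuclideanSpace ℝ (Fin (d + 1))) (he : ∀ i, ‖e i‖ = 1)
    (hlast : ∀ i, c₀ ≤ |⟪b (Fin.last d), e i⟫|)
    (htri : Triangular b δ η A c e) (i i' i'' : ι) (m : Fin d) (g : ℝ)
    (hg' : |g - ⟪b (Fin.last d), c i'⟫| ≤ c₀ / 2) (hg'' : |g - ⟪b (Fin.last d), c i''⟫| ≤ c₀ / 2)
    (hl : ∀ l, l ≤ m → lab b M δ (e i') l = lab b M δ (e i'') l)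
    (x y : EuclideanSpace ℝ (Fin (d + 1)))
    (hxi : x ∈ cyl (1 / 2) δ (c i) (e i)) (hxi' : x ∈ cyl (1 / 2) δ (c i') (e i'))
    (hyi : y ∈ cyl (1 / 2) δ (c i) (e i)) (hyi'' : y ∈ cyl (1 / 2) δ (c i'') (e i'')) :
    |⟪x - y, e i⟫| ≤ Kc M A c₀ *
      (max 1 |((lab b M δ (e i') m - lab b M δ (e i) m : ℤ) : ℝ)|)⁻¹ := by
  have hd' : (1 : ℝ) ≤ M := by exact_mod_cast hM
  set K₁ : ℝ := 2 * M * (4 * (1 + 1 / c₀) + A + 2) with hK₁
  set K₂ : ℝ := 4 * M / c₀ + 4 with hK₂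
  have hK₁pos : 0 ≤ K₁ := by positivity
  have hK₂pos : 0 ≤ K₂ := by positivity
  have hKc : Kc M A c₀ = 1 + (K₁ + K₂) / c₀ := rfl
  set r : ℝ := |((lab b M δ (e i') m - lab b M δ (e i) m : ℤ) : ℝ)| with hr
  have hsmall : |⟪x - y, e i⟫| ≤ 1 := by
    have h1 : ⟪x - y, e i⟫ = ⟪x - c i, e i⟫ - ⟪y - c i, e i⟫ := by
      rw [← inner_sub_left]; congr 1; abel
    rw [h1]
    have h2 := abs_le.mp hxi.1
    have h3 := abs_le.mp hyi.1
    rw [abs_le]
    constructor <;> linarith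
  rcases lt_or_ge r 2 with hr2 | hr2
  · have hr1 : r ≤ 1 := by
      have h1 : |(lab b M δ (e i') m - lab b M δ (e i) m : ℤ)| < 2 := by
        have : ((|(lab b M δ (e i') m - lab b M δ (e i) m : ℤ)| : ℤ) : ℝ) < 2 := by
          rw [Int.cast_abs]; exact hr2
        exact_mod_cast this
      have h2 : |(lab b M δ (e i') m - lab b M δ (e i) m : ℤ)| ≤ 1 := by omega
      rw [hr, ← Int.cast_abs]
      exact_mod_cast h2
    rw [max_eq_left hr1, inv_one, mul_one, hKc]
    have : 0 ≤ (K₁ + K₂) / c₀ := by positivity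
    linarith
  · rw [max_eq_right (by linarith)]
    set j : Fin d := Fin.rev m with hj
    -- slopes of i' and i'' agree from j on
    have hagree0 : ∀ l, j ≤ l → |slope b (e i') l - slope b (e i'') l| < δ / M := by
      intro l hjl
      have h1 : Fin.rev l ≤ m := by
        rw [hj] at hjl
        exact Fin.rev_le_iff.mpr (by simpa using hjl)
      have h3 := slope_sub_lt b hδ hM (hl _ h1)
      rw [Fin.rev_rev] at h3
      exact h3
    have hagree : ∀ l, j ≤ l → |slope b (e i') l - slope b (e i'') l| ≤ η * δ := by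
      intro l hjl
      refine (hagree0 l hjl).le.trans ?_
      calc δ / M = 1 / M * δ := by ring
        _ ≤ η * δ := by gcongr
    have hslope : |slope b (e i') j - slope b (e i'') j| ≤ δ :=
      (hagree0 j le_rfl).le.trans (div_le_self hδ.le hd')
    -- closeness to the axes
    have hx1 := near_axis b hc₀ (c i) (e i) (he i) (hlast i) j x hxi
    have hx2 := near_axis b hc₀ (c i') (e i') (he i') (hlast i') j x hxi'
    have hy1 := near_axis b hc₀ (c i) (e i) (he i) (hlast i) j y hyi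
    have hy2 := near_axis b hc₀ (c i'') (e i'') (he i'') (hlast i'') j y hyi''
    -- height of y relative to g
    have hylast : |⟪b (Fin.last d), y⟫ - g| ≤ 2 := by
      set z := (y - c i'') - ⟪y - c i'', e i''⟫ • e i'' with hz
      have hz1 : ‖z‖ ≤ δ := hyi''.2
      have h1 : y = c i'' + ⟪y - c i'', e i''⟫ • e i'' + z := by rw [hz]; abel
      have h2 : ⟪b (Fin.last d), y⟫ = ⟪b (Fin.last d), c i''⟫ +
          ⟪y - c i'', e i''⟫ * ⟪b (Fin.last d), e i''⟫ + ⟪b (Fin.last d), z⟫ := by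
        conv_lhs => rw [h1]
        rw [inner_add_right, inner_add_right, inner_smul_right]
      have h3 : |⟪y - c i'', e i''⟫ * ⟪b (Fin.last d), e i''⟫| ≤ 1 / 2 * 1 := by
        rw [abs_mul]
        apply mul_le_mul hyi''.1 _ (abs_nonneg _) (by norm_num)
        exact (he i'') ▸ abs_inner_basis_le b (Fin.last d) (e i'')
      have h4 : |⟪b (Fin.last d), z⟫| ≤ 1 := (abs_inner_basis_le b _ z).trans (by linarith)
      have h5 : c₀ ≤ 1 := (hlast i'').trans ((he i'') ▸ abs_inner_basis_le b (Fin.last d) (e i''))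
      have h6 : ⟪b (Fin.last d), y⟫ - g = -(g - ⟪b (Fin.last d), c i''⟫) +
          ⟪y - c i'', e i''⟫ * ⟪b (Fin.last d), e i''⟫ + ⟪b (Fin.last d), z⟫ := by
        rw [h2]; ring
      rw [h6]
      refine (abs_add_three _ _ _).trans ?_
      rw [abs_neg]
      linarith
    -- the key comparison of heights
    set xl := ⟪b (Fin.last d), x⟫ with hxl
    set yl := ⟪b (Fin.last d), y⟫ with hyl
    set v := slope b (e i) j with hv
    set v' := slope b (e i') j with hv'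
    set v'' := slope b (e i'') j with hv''
    set f := foot b (c i) (e i) j with hf
    set f' := foot b (c i') (e i') j with hf'
    set f'' := foot b (c i'') (e i'') j with hf''
    set B : ℝ := 1 + 1 / c₀ with hB
    have hfoot : |(f' + v' * g) - (f'' + v'' * g)| ≤ A * δ := by
      by_cases hii : i' = i''
      · subst hii
        have : (f' + v' * g) - (f'' + v'' * g) = 0 := by
          rw [hf', hf'', hv', hv'']; ring
        rw [this, abs_zero]
        positivity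
      · obtain ⟨p', hp', hp'g, hp'j⟩ := axis_point b hδ.le hc₀ (c i') (e i') (he i') (hlast i') hg'
        obtain ⟨p'', hp'', hp''g, hp''j⟩ :=
          axis_point b hδ.le hc₀ (c i'') (e i'') (he i'') (hlast i'') hg''
        have := htri i' i'' hii j hagree p' hp' p'' hp'' (by rw [hp'g, hp''g])
        rw [hp'j, hp''j] at this
        exact this
    have e1 : |(f - f') + (v - v') * xl| ≤ 2 * B * δ := by
      have : (f - f') + (v - v') * xl = (⟪b j.castSucc, x⟫ - (f' + v' * xl)) -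
          (⟪b j.castSucc, x⟫ - (f + v * xl)) := by ring
      rw [this]
      refine (abs_sub _ _).trans ?_
      linarith
    have e2 : |(f - f'') + (v - v'') * yl| ≤ 2 * B * δ := by
      have : (f - f'') + (v - v'') * yl = (⟪b j.castSucc, y⟫ - (f'' + v'' * yl)) -
          (⟪b j.castSucc, y⟫ - (f + v * yl)) := by ring
      rw [this]
      refine (abs_sub _ _).trans ?_
      linarith
    have e3 : |(v' - v'') * (yl - g)| ≤ δ * 2 := by
      rw [abs_mul]
      exact mul_le_mul hslope hylast (abs_nonneg _) hδ.le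
    have e4 : |(v - v') * (xl - yl)| ≤ (4 * B + A + 2) * δ := by
      have : (v - v') * (xl - yl) = ((f - f') + (v - v') * xl) - ((f - f'') + (v - v'') * yl) +
          ((f' + v' * g) - (f'' + v'' * g)) + (v' - v'') * (yl - g) := by ring
      rw [this]
      refine (abs_add_le _ _).trans ?_
      refine (add_le_add_left (abs_add_le _ _) _).trans ?_
      refine (add_le_add_left (add_le_add_left (abs_sub _ _) _) _).trans ?_
      linarith
    have hvv : (r - 1) * (δ / M) ≤ |v - v'| := le_slope_sub b hδ hM (e i) (e i') m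
    have hrpos : 0 < r := by linarith
    have hδd : 0 < δ / M := by positivity
    have e5 : |xl - yl| ≤ K₁ / r := by
      rw [le_div_iff₀ hrpos]
      rw [abs_mul] at e4
      have h1 : r / 2 * (δ / M) ≤ |v - v'| := by
        refine le_trans ?_ hvv
        apply mul_le_mul_of_nonneg_right _ hδd.le
        linarith
      have h2 : r / 2 * (δ / M) * |xl - yl| ≤ (4 * B + A + 2) * δ :=
        (mul_le_mul_of_nonneg_right h1 (abs_nonneg _)).trans e4
      have h3 : r / 2 * (δ / M) * |xl - yl| = (|xl - yl| * r) * (δ / (2 * M)) := by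
        field_simp
      rw [h3] at h2
      have h4 : (4 * B + A + 2) * δ = K₁ * (δ / (2 * M)) := by
        rw [hK₁]
        field_simp
      rw [h4] at h2
      exact le_of_mul_le_mul_right h2 (by positivity)
    -- bound on r δ
    have hrδ : r * δ ≤ 2 * (M / c₀ + 1) := by
      have h1 := abs_lab_le b hδ hδ1 hM hc₀ (e i) (he i) (hlast i) m
      have h2 := abs_lab_le b hδ hδ1 hM hc₀ (e i') (he i') (hlast i') m
      have h3 : r ≤ |((lab b M δ (e i') m : ℤ) : ℝ)| + |((lab b M δ (e i) m : ℤ) : ℝ)| := by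
        rw [hr]; push_cast; exact abs_sub _ _
      nlinarith
    have e6 : 2 * δ ≤ K₂ / r := by
      rw [le_div_iff₀ hrpos, hK₂]
      have : 4 * (M : ℝ) / c₀ + 4 = 2 * (2 * (M / c₀ + 1)) := by ring
      rw [this]
      linarith
    -- conclude
    set zx := (x - c i) - ⟪x - c i, e i⟫ • e i with hzx
    set zy := (y - c i) - ⟪y - c i, e i⟫ • e i with hzy
    have hzx1 : ‖zx‖ ≤ δ := hxi.2
    have hzy1 : ‖zy‖ ≤ δ := hyi.2
    have e7 : x - y = ⟪x - y, e i⟫ • e i + (zx - zy) := by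
      have : ⟪x - y, e i⟫ = ⟪x - c i, e i⟫ - ⟪y - c i, e i⟫ := by
        rw [← inner_sub_left]; congr 1; abel
      rw [hzx, hzy, this, sub_smul]
      abel
    have e8 : xl - yl = ⟪x - y, e i⟫ * ⟪b (Fin.last d), e i⟫ + ⟪b (Fin.last d), zx - zy⟫ := by
      rw [hxl, hyl, ← inner_sub_right]
      conv_lhs => rw [e7]
      rw [inner_add_right, inner_smul_right]
    have e9 : |⟪x - y, e i⟫| * c₀ ≤ (K₁ + K₂) / r := by
      calc |⟪x - y, e i⟫| * c₀ ≤ |⟪x - y, e i⟫| * |⟪b (Fin.last d), e i⟫| := by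
            gcongr
            exact hlast i
        _ = |(xl - yl) - ⟪b (Fin.last d), zx - zy⟫| := by
            rw [← abs_mul, e8]; congr 1; ring
        _ ≤ |xl - yl| + |⟪b (Fin.last d), zx - zy⟫| := abs_sub _ _
        _ ≤ K₁ / r + 2 * δ := by
            apply add_le_add e5
            refine (abs_inner_basis_le b _ _).trans ((norm_sub_le _ _).trans ?_)
            linarith
        _ ≤ K₁ / r + K₂ / r := by linarith
        _ = (K₁ + K₂) / r := by ring
    have e10 : |⟪x - y, e i⟫| ≤ ((K₁ + K₂) / c₀) * r⁻¹ := by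
      rw [div_mul_eq_mul_div, le_div_iff₀ hc₀]
      rw [div_eq_mul_inv] at e9
      exact e9
    refine e10.trans ?_
    apply mul_le_mul_of_nonneg_right _ (by positivity)
    rw [hKc]
    linarith

/-- Volume of the part of a tube covered by a sibling node. -/
lemma node_volume {ι : Type*} {M : ℕ} {δ η A c₀ : ℝ} (hδ : 0 < δ) (hδ1 : δ < 1) (hM : 1 ≤ M)
    (hη : 1 / (M : ℝ) ≤ η)
    (hA : 0 ≤ A) (hc₀ : 0 < c₀)
    (c e : ι → EuclideanSpace ℝ (Fin (d + 1))) (he : ∀ i, ‖e i‖ = 1)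
    (hlast : ∀ i, c₀ ≤ |⟪b (Fin.last d), e i⟫|)
    (htri : Triangular b δ η A c e) (I : Finset ι) (i : ι) (m : Fin d) (κ : ℤ) :
    volume (cyl (1 / 2) δ (c i) (e i) ∩ nodeU (fun i => lab b M δ (e i)) I
      (fun i => cyl (1 / 2) δ (c i) (e i)) i m κ) ≤
      ENNReal.ofReal (((2 * ⌈6 / c₀ + 1⌉₊ + 1 : ℕ) : ℝ) * (2 ^ (d + 1) * Kc M A c₀ * δ ^ d)) *
        ENNReal.ofReal ((max 1 |((κ - lab b M δ (e i) m : ℤ) : ℝ)|)⁻¹) := by
  classical
  have hd' : (1 : ℝ) ≤ M := by exact_mod_cast hM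
  set n₀ : ℕ := ⌈6 / c₀ + 1⌉₊ with hn₀
  have hKpos : 0 ≤ Kc M A c₀ := by unfold Kc; positivity
  set mm : ι → ℤ := fun i' => ⌊(⟪b (Fin.last d), c i'⟫ - ⟪b (Fin.last d), c i⟫) / (c₀ / 2)⌋ with hmm
  -- the pieces
  set P : ℤ → Set (EuclideanSpace ℝ (Fin (d + 1))) := fun t =>
    {x | x ∈ cyl (1 / 2) δ (c i) (e i) ∧ ∃ i', (∀ l, l < m → lab b M δ (e i') l = lab b M δ (e i) l) ∧
      lab b M δ (e i') m = κ ∧ mm i' = t ∧ x ∈ cyl (1 / 2) δ (c i') (e i')} with hP
  have hPvol : ∀ t, volume (P t) ≤ ENNReal.ofReal (2 ^ (d + 1) * (Kc M A c₀ *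
      (max 1 |((κ - lab b M δ (e i) m : ℤ) : ℝ)|)⁻¹) * δ ^ d) := by
    intro t
    apply volume_slice_le (1 / 2) _ δ (by positivity) hδ.le (c i) (e i) (he i) (P t)
      (fun x hx => hx.1)
    intro x hx y hy
    obtain ⟨hx0, i', hi'1, hi'2, hi'3, hi'4⟩ := hx
    obtain ⟨hy0, i'', hi''1, hi''2, hi''3, hi''4⟩ := hy
    have hheight : ∀ i₁, mm i₁ = t →
        |(⟪b (Fin.last d), c i⟫ + t * (c₀ / 2)) - ⟪b (Fin.last d), c i₁⟫| ≤ c₀ / 2 := by
      intro i₁ h1
      have hc₂ : 0 < c₀ / 2 := by positivity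
      have h2 := Int.floor_le ((⟪b (Fin.last d), c i₁⟫ - ⟪b (Fin.last d), c i⟫) / (c₀ / 2))
      have h3 := Int.lt_floor_add_one ((⟪b (Fin.last d), c i₁⟫ - ⟪b (Fin.last d), c i⟫) / (c₀ / 2))
      have h4 : ⌊(⟪b (Fin.last d), c i₁⟫ - ⟪b (Fin.last d), c i⟫) / (c₀ / 2)⌋ = t := h1
      rw [h4] at h2 h3
      rw [le_div_iff₀ hc₂] at h2
      rw [div_lt_iff₀ hc₂] at h3
      rw [abs_le]
      constructor <;> nlinarith
    have h := extent b hδ hδ1 hM hη hA hc₀ c e he hlast htri i i' i'' m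
      (⟪b (Fin.last d), c i⟫ + t * (c₀ / 2)) (hheight i' hi'3) (hheight i'' hi''3)
      (fun l hl => by
        rcases lt_or_eq_of_le hl with h | h
        · exact (hi'1 l h).trans (hi''1 l h).symm
        · rw [h]; exact hi'2.trans hi''2.symm) x y hx0 hi'4 hy0 hi''4
    rw [hi'2] at h
    exact h
  have hcover : cyl (1 / 2) δ (c i) (e i) ∩ nodeU (fun i => lab b M δ (e i)) I
      (fun i => cyl (1 / 2) δ (c i) (e i)) i m κ ⊆
      ⋃ t ∈ Finset.Icc (-(n₀ : ℤ)) n₀, P t := by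
    rintro x ⟨hx, hxn⟩
    unfold nodeU sib at hxn
    simp only [Set.mem_iUnion, Finset.mem_filter, exists_prop] at hxn
    obtain ⟨i', ⟨⟨_, hi's⟩, hi'κ⟩, hxi'⟩ := hxn
    simp only [Set.mem_iUnion, exists_prop]
    refine ⟨mm i', ?_, hx, i', hi's, hi'κ, rfl, hxi'⟩
    -- height comparison of the centres
    have hh : ∀ i₁, x ∈ cyl (1 / 2) δ (c i₁) (e i₁) →
        |⟪b (Fin.last d), x⟫ - ⟪b (Fin.last d), c i₁⟫| ≤ 3 / 2 := by
      intro i₁ hx₁
      set z := (x - c i₁) - ⟪x - c i₁, e i₁⟫ • e i₁ with hz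
      have hz1 : ‖z‖ ≤ δ := hx₁.2
      have h1 : x = c i₁ + ⟪x - c i₁, e i₁⟫ • e i₁ + z := by rw [hz]; abel
      have h2 : ⟪b (Fin.last d), x⟫ = ⟪b (Fin.last d), c i₁⟫ +
          ⟪x - c i₁, e i₁⟫ * ⟪b (Fin.last d), e i₁⟫ + ⟪b (Fin.last d), z⟫ := by
        conv_lhs => rw [h1]
        rw [inner_add_right, inner_add_right, inner_smul_right]
      have h3 : |⟪x - c i₁, e i₁⟫ * ⟪b (Fin.last d), e i₁⟫| ≤ 1 / 2 * 1 := by
        rw [abs_mul]
        apply mul_le_mul hx₁.1 _ (abs_nonneg _) (by norm_num)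
        exact (he i₁) ▸ abs_inner_basis_le b (Fin.last d) (e i₁)
      have h4 : |⟪b (Fin.last d), z⟫| ≤ 1 := (abs_inner_basis_le b _ z).trans (by linarith)
      rw [h2]
      have : ⟪b (Fin.last d), c i₁⟫ + ⟪x - c i₁, e i₁⟫ * ⟪b (Fin.last d), e i₁⟫ +
        ⟪b (Fin.last d), z⟫ - ⟪b (Fin.last d), c i₁⟫ =
        ⟪x - c i₁, e i₁⟫ * ⟪b (Fin.last d), e i₁⟫ + ⟪b (Fin.last d), z⟫ := by ring
      rw [this]
      refine (abs_add_le _ _).trans ?_
      linarith
    have h1 := abs_le.mp (hh i hx)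
    have h2 := abs_le.mp (hh i' hxi')
    have hc₂ : 0 < c₀ / 2 := by positivity
    set z := (⟪b (Fin.last d), c i'⟫ - ⟪b (Fin.last d), c i⟫) / (c₀ / 2) with hz
    have h3 : |z| ≤ 6 / c₀ := by
      rw [hz, abs_div, abs_of_pos hc₂, div_le_iff₀ hc₂]
      have : 6 / c₀ * (c₀ / 2) = 3 := by field_simp; norm_num
      rw [this, abs_le]
      constructor <;> linarith
    have h4 := Nat.le_ceil (6 / c₀ + 1)
    rw [← hn₀] at h4
    have h5 := abs_le.mp h3
    have h6 : mm i' = ⌊z⌋ := rfl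
    rw [Finset.mem_Icc, h6]
    constructor
    · rw [Int.le_floor]
      push_cast
      linarith
    · have : (⌊z⌋ : ℝ) ≤ n₀ := (Int.floor_le z).trans (by linarith)
      exact_mod_cast this
  refine (measure_mono hcover).trans ((measure_biUnion_finset_le _ _).trans ?_)
  refine (Finset.sum_le_sum fun t _ => hPvol t).trans (le_of_eq ?_)
  rw [Finset.sum_const, nsmul_eq_mul]
  have hcard : (Finset.Icc (-(n₀ : ℤ)) n₀).card = 2 * n₀ + 1 := by
    rw [Int.card_Icc]; omega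
  rw [hcard, ← ENNReal.ofReal_natCast, ← ENNReal.ofReal_mul (by positivity),
    ← ENNReal.ofReal_mul (by positivity)]
  congr 1
  ring

end Pool.Agent.H32.Tubes
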