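import Pool.Agent.H32.Tubes
open MeasureTheory Filter Set
open scoped Topology ENNReal RealInnerProductSpace
open Pool.Agent.H32.Tree Pool.Agent.H32.Tubes

/-!
# Kakeya maximal inequality in `ℝ³` for families foliated by planes

The tubes are distributed over planes `Π_m = {x | ⟪ν m, x⟫ = h m}`, `m ∈ ℤ`: the tube `T_i` lies in
the `A δ`-neighbourhood of `Π_{k i}`, and its direction makes an angle at least about
`δ |k i - m|` with the other planes `Π_m` in use. Inside each plane the tubes are arbitrary, and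
the normals `ν m` and offsets `h m` are arbitrary apart from the transversality. For such families
the conjectured inequality holds in the full range `q > 3 / 2` without any loss.
-/

namespace Pool.Agent.H32.PlaneFoliated

/-- The `δ`-tube with centre `c` and unit direction `e`: the solid cylinder of length `1` whose
cross-section orthogonal to `e` is a disc of radius `δ`. -/
def tube (δ : ℝ) (c e : EuclideanSpace ℝ (Fin 3)) : Set (EuclideanSpace ℝ (Fin 3)) :=
  {x | |⟪x - c, e⟫| ≤ 1 / 2 ∧ ‖(x - c) - ⟪x - c, e⟫ • e‖ ≤ δ}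

/-- Packing bound. -/
lemma packing (ρ : ℝ) (hρ : 0 < ρ) : ∃ N : ℕ, ∀ (ι : Type) [Fintype ι]
    (e : ι → EuclideanSpace ℝ (Fin 3)), (∀ i, ‖e i‖ = 1) →
    (∀ i i', i ≠ i' → ρ ≤ ‖e i - e i'‖) → Fintype.card ι ≤ N := by
  classical
  obtain ⟨t, _, htf, ht⟩ := (isCompact_closedBall (0 : EuclideanSpace ℝ (Fin 3)) 1).finite_cover_balls
    (half_pos hρ)
  refine ⟨htf.toFinset.card, ?_⟩
  intro ι _ e he hsep
  have h1 : ∀ i, ∃ x ∈ t, e i ∈ Metric.ball x (ρ / 2) := by
    intro i
    have : e i ∈ Metric.closedBall (0 : EuclideanSpace ℝ (Fin 3)) 1 := by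
      rw [mem_closedBall_zero_iff, he i]
    simpa using ht this
  choose f hf hf' using h1
  rw [← Finset.card_univ]
  apply Finset.card_le_card_of_injOn f
  · intro i _
    simpa using hf i
  · intro i _ i' _ hii
    by_contra hne
    have h2 := hsep i i' hne
    have h3 := hf' i
    have h4 := hf' i'
    rw [Metric.mem_ball, dist_eq_norm] at h3 h4
    rw [← hii] at h4
    have : ‖e i - e i'‖ ≤ ‖e i - f i‖ + ‖e i' - f i‖ := by
      calc ‖e i - e i'‖ = ‖(e i - f i) - (e i' - f i)‖ := by congr 1; abel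
        _ ≤ _ := norm_sub_le _ _
    linarith

/-- Two frames adapted to a plane. -/
lemma exists_frames (ν : EuclideanSpace ℝ (Fin 3)) (hν : ‖ν‖ = 1) :
    ∃ b : Bool → OrthonormalBasis (Fin 3) ℝ (EuclideanSpace ℝ (Fin 3)),
      (∀ s, b s 0 = ν) ∧ ∀ e, ∃ s, |⟪b s 1, e⟫| ≤ |⟪b s 2, e⟫| := by
  obtain ⟨b, hb⟩ := exists_basis (d := 2) ν hν
  refine ⟨fun s => if s then b else b.reindex (Equiv.swap 1 2), ?_, ?_⟩
  · intro s
    cases s
    · simp only [Bool.false_eq_true, if_false, OrthonormalBasis.reindex_apply]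
      have : (Equiv.swap (1 : Fin 3) 2).symm 0 = 0 := by decide
      rw [this, hb]
    · simp [hb]
  · intro e
    rcases le_total |⟪b 1, e⟫| |⟪b 2, e⟫| with h | h
    · exact ⟨true, by simpa using h⟩
    · refine ⟨false, ?_⟩
      have h1 : (Equiv.swap (1 : Fin 3) 2).symm 1 = 2 := by decide
      have h2 : (Equiv.swap (1 : Fin 3) 2).symm 2 = 1 := by decide
      simp only [Bool.false_eq_true, if_false, OrthonormalBasis.reindex_apply, h1, h2]
      exact h

/-- Two points of a cylinder. -/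
lemma two_points {L δ : ℝ} {c e x y : EuclideanSpace ℝ (Fin 3)}
    (hx : x ∈ cyl L δ c e) (hy : y ∈ cyl L δ c e) :
    ‖(x - y) - ⟪x - y, e⟫ • e‖ ≤ 2 * δ := by
  have h1 : ⟪x - y, e⟫ = ⟪x - c, e⟫ - ⟪y - c, e⟫ := by
    rw [← inner_sub_left]; congr 1; abel
  have h2 : (x - y) - ⟪x - y, e⟫ • e =
      ((x - c) - ⟪x - c, e⟫ • e) - ((y - c) - ⟪y - c, e⟫ • e) := by
    rw [h1, sub_smul]; abel
  rw [h2]
  refine (norm_sub_le _ _).trans ?_
  linarith [hx.2, hy.2]

/-- Extent of the intersection of a tube with a slab. -/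
lemma extent_slab {L δ A τ : ℝ} (hτ : 0 < τ) {c e x y ν : EuclideanSpace ℝ (Fin 3)}
    (hν : ‖ν‖ = 1) (hx : x ∈ cyl L δ c e) (hy : y ∈ cyl L δ c e)
    (hxy : |⟪ν, x - y⟫| ≤ A) (h : τ ≤ |⟪ν, e⟫|) :
    |⟪x - y, e⟫| ≤ (A + 2 * δ) / τ := by
  rw [le_div_iff₀ hτ]
  set z := (x - y) - ⟪x - y, e⟫ • e with hz
  have hz1 : ‖z‖ ≤ 2 * δ := two_points hx hy
  have h1 : x - y = ⟪x - y, e⟫ • e + z := by rw [hz]; abel
  have h2 : ⟪ν, x - y⟫ = ⟪x - y, e⟫ * ⟪ν, e⟫ + ⟪ν, z⟫ := by
    conv_lhs => rw [h1]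
    rw [inner_add_right, inner_smul_right]
  have h3 : |⟪ν, z⟫| ≤ 2 * δ := by
    refine (abs_real_inner_le_norm _ _).trans ?_
    rw [hν, one_mul]; exact hz1
  calc |⟪x - y, e⟫| * τ ≤ |⟪x - y, e⟫| * |⟪ν, e⟫| := by gcongr
    _ = |⟪ν, x - y⟫ - ⟪ν, z⟫| := by rw [← abs_mul, h2]; congr 1; ring
    _ ≤ |⟪ν, x - y⟫| + |⟪ν, z⟫| := abs_sub _ _
    _ ≤ A + 2 * δ := add_le_add hxy h3

/-- Extent of the intersection of two tubes in terms of the difference of slopes. -/
lemma extent_pair {L δ : ℝ} (b : OrthonormalBasis (Fin 3) ℝ (EuclideanSpace ℝ (Fin 3)))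
    {c e c' e' x y : EuclideanSpace ℝ (Fin 3)}
    (hx : x ∈ cyl L δ c e) (hy : y ∈ cyl L δ c e)
    (hx' : x ∈ cyl L δ c' e') (hy' : y ∈ cyl L δ c' e')
    (hp : 1 / 2 ≤ |⟪b 2, e⟫|) (hp' : 1 / 2 ≤ |⟪b 2, e'⟫|) (hr' : |⟪b 1, e'⟫| ≤ |⟪b 2, e'⟫|) :
    |⟪x - y, e⟫| * |⟪b 1, e⟫ / ⟪b 2, e⟫ - ⟪b 1, e'⟫ / ⟪b 2, e'⟫| ≤ 16 * δ := by
  set z := (x - y) - ⟪x - y, e⟫ • e with hz
  set z' := (x - y) - ⟪x - y, e'⟫ • e' with hz'
  have hz1 : ‖z‖ ≤ 2 * δ := two_points hx hy
  have hz1' : ‖z'‖ ≤ 2 * δ := two_points hx' hy'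
  have h1 : x - y = ⟪x - y, e⟫ • e + z := by rw [hz]; abel
  have h1' : x - y = ⟪x - y, e'⟫ • e' + z' := by rw [hz']; abel
  have h2 : ∀ j, ⟪b j, x - y⟫ = ⟪x - y, e⟫ * ⟪b j, e⟫ + ⟪b j, z⟫ := by
    intro j
    conv_lhs => rw [h1]
    rw [inner_add_right, inner_smul_right]
  have h2' : ∀ j, ⟪b j, x - y⟫ = ⟪x - y, e'⟫ * ⟪b j, e'⟫ + ⟪b j, z'⟫ := by
    intro j
    conv_lhs => rw [h1']
    rw [inner_add_right, inner_smul_right]
  have hz2 : ∀ j, |⟪b j, z⟫| ≤ 2 * δ := fun j => (abs_inner_basis_le b j z).trans hz1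
  have hz2' : ∀ j, |⟪b j, z'⟫| ≤ 2 * δ := fun j => (abs_inner_basis_le b j z').trans hz1'
  set s := ⟪x - y, e⟫
  set s' := ⟪x - y, e'⟫
  set p := ⟪b 2, e⟫
  set p' := ⟪b 2, e'⟫
  set r := ⟪b 1, e⟫
  set r' := ⟪b 1, e'⟫
  have hp0 : p ≠ 0 := by intro h; rw [h, abs_zero] at hp; linarith
  have hp0' : p' ≠ 0 := by intro h; rw [h, abs_zero] at hp'; linarith
  have hσ' : |r' / p'| ≤ 1 := by
    rw [abs_div]
    exact div_le_one_of_le₀ hr' (abs_nonneg _)
  have e1 : s * r + ⟪b 1, z⟫ = s' * r' + ⟪b 1, z'⟫ := (h2 1).symm.trans (h2' 1)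
  have e2 : s * p + ⟪b 2, z⟫ = s' * p' + ⟪b 2, z'⟫ := (h2 2).symm.trans (h2' 2)
  have key : s * p * (r / p - r' / p') = (⟪b 1, z'⟫ - ⟪b 1, z⟫) - r' / p' * (⟪b 2, z'⟫ - ⟪b 2, z⟫) := by
    have e3 : s' * r' = r' / p' * (s' * p') := by field_simp
    have e4 : s * p * (r / p - r' / p') = s * r - r' / p' * (s * p) := by field_simp
    rw [e4]
    have e5 : s * r = s' * r' + ⟪b 1, z'⟫ - ⟪b 1, z⟫ := by linarith
    have e6 : s * p = s' * p' + ⟪b 2, z'⟫ - ⟪b 2, z⟫ := by linarith
    rw [e5, e6, e3]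
    ring
  have key2 : |s| * |p| * |r / p - r' / p'| ≤ 8 * δ := by
    rw [← abs_mul, ← abs_mul, key]
    refine (abs_sub _ _).trans ?_
    rw [abs_mul]
    have g1 : |⟪b 1, z'⟫ - ⟪b 1, z⟫| ≤ 4 * δ := (abs_sub _ _).trans (by linarith [hz2 1, hz2' 1])
    have g2 : |⟪b 2, z'⟫ - ⟪b 2, z⟫| ≤ 4 * δ := (abs_sub _ _).trans (by linarith [hz2 2, hz2' 2])
    have g3 : |r' / p'| * |⟪b 2, z'⟫ - ⟪b 2, z⟫| ≤ 1 * (4 * δ) :=
      mul_le_mul hσ' g2 (abs_nonneg _) zero_le_one
    linarith
  have h5 : |s| * |r / p - r' / p'| * (1 / 2) ≤ |s| * |p| * |r / p - r' / p'| := by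
    calc |s| * |r / p - r' / p'| * (1 / 2) ≤ |s| * |r / p - r' / p'| * |p| := by gcongr
      _ = _ := by ring
  linarith

/-- The estimate for the tubes of one class. -/
lemma class_bound (q A c₀ : ℝ) (hq : 3 / 2 < q) (hA : 0 ≤ A) (hc₀ : 0 < c₀) :
    ∃ C : ℝ, 0 < C ∧ ∀ (δ : ℝ), 0 < δ → δ < 1 → 4 * A * δ ≤ 1 → ∀ (ι : Type)
      (c e : ι → EuclideanSpace ℝ (Fin 3)), (∀ i, ‖e i‖ = 1) →
      (∀ i i', i ≠ i' → δ ≤ ‖e i - e i'‖) →
      ∀ (k : ι → ℤ) (h : ℤ → ℝ)
      (b : ℤ → OrthonormalBasis (Fin 3) ℝ (EuclideanSpace ℝ (Fin 3))),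
      (∀ i, ∀ x ∈ cyl (1 / 2) δ (c i) (e i), |⟪b (k i) 0, x⟫ - h (k i)| ≤ A * δ) →
      (∀ i i', c₀ * δ * |((k i - k i' : ℤ) : ℝ)| ≤ |⟪b (k i') 0, e i⟫| + A * δ) →
      ∀ I : Finset ι, (∀ i ∈ I, |⟪b (k i) 1, e i⟫| ≤ |⟪b (k i) 2, e i⟫|) →
      ∫⁻ x, (∑ i ∈ I, (cyl (1 / 2) δ (c i) (e i)).indicator
        (1 : EuclideanSpace ℝ (Fin 3) → ℝ≥0∞) x) ^ q ≤
        ENNReal.ofReal (C * δ ^ 2) * (I.card : ℝ≥0∞) ^ (q - 1 / 2) := by
  classical
  set N₁ : ℕ := ⌈8 * A⌉₊ + 1 with hN₁
  set M : ℕ := 2 * (2 * N₁ + 1) with hM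
  have hM1 : 1 ≤ M := by omega
  obtain ⟨C₀, hC₀, hC⟩ := tree_bound.{0, 0} 2 (by norm_num) M hM1 (q - 1) (by norm_num; linarith)
  set K : ℝ := 4 * (1 + 2 * A / c₀) + 16 * ((2 * A + 2) / c₀) + 512 * M with hK
  have hMr : (1 : ℝ) ≤ M := by exact_mod_cast hM1
  have hKpos : 0 < K := by positivity
  refine ⟨C₀ * K, by positivity, ?_⟩
  intro δ hδ hδ1 hδA ι c e he hsep k h b hslab htrans I hI
  -- normal components
  have hn : ∀ i, |⟪b (k i) 0, e i⟫| ≤ 2 * A * δ := by
    intro i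
    have hee : ⟪e i, e i⟫ = (1 : ℝ) := by rw [real_inner_self_eq_norm_sq, he i]; norm_num
    have hmem : ∀ s : ℝ, |s| ≤ 1 / 2 → c i + s • e i ∈ cyl (1 / 2) δ (c i) (e i) := by
      intro s hs
      have h1 : ⟪c i + s • e i - c i, e i⟫ = s := by
        rw [add_sub_cancel_left, inner_smul_left, hee]; simp
      refine ⟨by rw [h1]; exact hs, ?_⟩
      rw [h1, add_sub_cancel_left, sub_self, norm_zero]
      exact hδ.le
    have h1 := hslab i _ (hmem (1 / 2) (by norm_num))
    have h2 := hslab i _ (hmem (-(1 / 2)) (by norm_num))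
    rw [inner_add_right, inner_smul_right] at h1 h2
    rw [abs_le] at h1 h2 ⊢
    constructor <;> linarith [h1.1, h1.2, h2.1, h2.2]
  have hp : ∀ i ∈ I, 1 / 2 ≤ |⟪b (k i) 2, e i⟫| := by
    intro i hi
    have h1 := hn i
    have h2 := hI i hi
    have h3 : ⟪b (k i) 0, e i⟫ ^ 2 + ⟪b (k i) 1, e i⟫ ^ 2 + ⟪b (k i) 2, e i⟫ ^ 2 = 1 := by
      have := (b (k i)).sum_sq_inner_right (e i)
      rw [Fin.sum_univ_three, he i] at this
      linarith
    by_contra hcon
    push Not at hcon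
    have h4 : |⟪b (k i) 0, e i⟫| ≤ 1 / 2 := by linarith
    rw [← sq_abs (⟪b (k i) 0, e i⟫), ← sq_abs (⟪b (k i) 1, e i⟫), ← sq_abs (⟪b (k i) 2, e i⟫)] at h3
    have h5 := abs_nonneg (⟪b (k i) 0, e i⟫)
    have h6 := abs_nonneg (⟪b (k i) 1, e i⟫)
    have h7 := abs_nonneg (⟪b (k i) 2, e i⟫)
    nlinarith
  -- labels
  set σ : ι → ℝ := fun i => ⟪b (k i) 1, e i⟫ / ⟪b (k i) 2, e i⟫ with hσ
  set L : ι → Fin 2 → ℤ := fun i => ![k i, ⌊2 * σ i / δ⌋] with hL
  have hL0 : ∀ i, L i 0 = k i := fun i => rfl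
  have hL1 : ∀ i, L i 1 = ⌊2 * σ i / δ⌋ := fun i => rfl
  have hfib : Fib L I M := by
    intro i₀ hi₀
    set f : ι → Bool × ℤ := fun i =>
      (decide (0 < ⟪b (k i) 2, e i⟫), ⌊2 * (⟪b (k i) 0, e i⟫ / ⟪b (k i) 2, e i⟫) / δ⌋) with hf
    have hcard : (I.filter (fun i' => L i' = L i₀)).card ≤
        ((Finset.univ : Finset Bool) ×ˢ Finset.Icc (-(N₁ : ℤ)) N₁).card := by
      apply Finset.card_le_card_of_injOn f
      · intro i hi
        have hi' : i ∈ I := (Finset.mem_filter.mp hi).1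
        have h1 : |2 * (⟪b (k i) 0, e i⟫ / ⟪b (k i) 2, e i⟫) / δ| ≤ 8 * A := by
          rw [abs_div, abs_mul, abs_div, abs_of_pos hδ, abs_two]
          rw [div_le_iff₀ hδ]
          have h2 := hn i
          have h3 := hp i hi'
          have h4 : |⟪b (k i) 0, e i⟫| / |⟪b (k i) 2, e i⟫| ≤ 4 * A * δ := by
            rw [div_le_iff₀ (by linarith)]
            nlinarith [mul_nonneg hA hδ.le]
          linarith
        have h5 := abs_le.mp h1
        have h6 : (8 * A : ℝ) ≤ ⌈8 * A⌉₊ := Nat.le_ceil _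
        have h7 : (N₁ : ℝ) = ⌈8 * A⌉₊ + 1 := by rw [hN₁]; push_cast; rfl
        refine Finset.mem_product.mpr ⟨Finset.mem_univ _, Finset.mem_Icc.mpr ⟨?_, ?_⟩⟩
        · rw [Int.le_floor]
          push_cast
          linarith
        · have : ((⌊2 * (⟪b (k i) 0, e i⟫ / ⟪b (k i) 2, e i⟫) / δ⌋ : ℤ) : ℝ) ≤ N₁ :=
            (Int.floor_le _).trans (by linarith)
          exact_mod_cast this
      · intro i hi i' hi' hii
        by_contra hne
        obtain ⟨hiI, hiL⟩ := Finset.mem_filter.mp (Finset.mem_coe.mp hi)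
        obtain ⟨hiI', hiL'⟩ := Finset.mem_filter.mp (Finset.mem_coe.mp hi')
        have hLL : L i = L i' := hiL.trans hiL'.symm
        have hk : k i = k i' := congrFun hLL 0
        have hm : ⌊2 * σ i / δ⌋ = ⌊2 * σ i' / δ⌋ := congrFun hLL 1
        rw [hf] at hii
        simp only [Prod.mk.injEq, decide_eq_decide] at hii
        obtain ⟨hs1, hs2⟩ := hii
        have hpi := hp i hiI
        have hpi' := hp i' hiI'
        rw [← hk] at hs1 hs2 hpi'
        have hn1 : ⟪b (k i) 2, e i⟫ ≠ 0 := by intro h; rw [h, abs_zero] at hpi; linarith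
        have hn2 : ⟪b (k i) 2, e i'⟫ ≠ 0 := by intro h; rw [h, abs_zero] at hpi'; linarith
        have hsign : 0 < ⟪b (k i) 2, e i⟫ * ⟪b (k i) 2, e i'⟫ := by
          rcases lt_or_gt_of_ne hn1 with h | h
          · have : ¬ 0 < ⟪b (k i) 2, e i'⟫ := fun h' => absurd (hs1.mpr h') (not_lt.mpr h.le)
            exact mul_pos_of_neg_of_neg h (lt_of_le_of_ne (not_lt.mp this) hn2)
          · exact mul_pos h (hs1.mp h)
        have hfl : ∀ u v : ℝ, ⌊2 * u / δ⌋ = ⌊2 * v / δ⌋ → |u - v| < δ / 2 := by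
          intro u v huv
          have h1 := Int.abs_sub_lt_one_of_floor_eq_floor huv
          rw [← sub_div, ← mul_sub, abs_div, abs_mul, abs_of_pos hδ, abs_two, div_lt_one hδ] at h1
          linarith
        have h6 := norm_sub_lt (d := 2) (b (k i)) hδ (by norm_num) (e i) (e i') (he i) (he i') hsign
          (fun j => by
            push_cast
            refine Fin.cases ?_ (fun j => ?_) j
            · exact hfl _ _ hs2
            · have hj : j = 0 := Subsingleton.elim _ _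
              subst hj
              have h7 := hfl _ _ hm
              rw [hσ] at h7
              simp only [← hk] at h7
              exact h7)
        linarith [hsep i i' hne]
    have hcard2 : ((Finset.univ : Finset Bool) ×ˢ Finset.Icc (-(N₁ : ℤ)) N₁).card = M := by
      rw [Finset.card_product, Int.card_Icc]
      simp only [Finset.card_univ, Fintype.card_bool]
      rw [hM]
      congr 1
      omega
    rw [hcard2] at hcard
    exact hcard
  have hvolT : ∀ i, volume (cyl (1 / 2) δ (c i) (e i)) ≤ ENNReal.ofReal (4 * δ ^ 2) := by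
    intro i
    refine (volume_cyl_le (1 / 2) δ (by norm_num) hδ.le (c i) (e i) (he i)).trans (le_of_eq ?_)
    congr 1
    ring
  have hAc : 0 ≤ 2 * A / c₀ := by positivity
  have hAc2 : 0 ≤ (2 * A + 2) / c₀ := by positivity
  have h4K : 4 ≤ K := by
    rw [hK]
    linarith
  have h4K' : 4 * (2 * A / c₀) ≤ K := by
    rw [hK]
    linarith
  have hslabK : 16 * ((2 * A + 2) / c₀) ≤ K := by
    rw [hK]; linarith
  have hpairK : 512 * (M : ℝ) ≤ K := by
    rw [hK]
    linarith
  have hmain := hC ι (EuclideanSpace ℝ (Fin 3)) volume L I hfib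
    (fun i => cyl (1 / 2) δ (c i) (e i)) (fun i => measurableSet_cyl _ _ _ _)
    (ENNReal.ofReal (K * δ ^ 2)) (fun i hi j κ => by
      -- trivial bound
      have htriv : ∀ S : Set (EuclideanSpace ℝ (Fin 3)), ∀ R : ℝ, R ≤ 1 →
          volume (cyl (1 / 2) δ (c i) (e i) ∩ S) ≤
          ENNReal.ofReal (K * δ ^ 2) * ENNReal.ofReal ((max 1 R)⁻¹) := by
        intro S R hR
        rw [max_eq_left hR, inv_one, ENNReal.ofReal_one, mul_one]
        refine (measure_mono Set.inter_subset_left).trans ((hvolT i).trans ?_)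
        apply ENNReal.ofReal_le_ofReal
        gcongr
      set R : ℝ := |((κ - L i j : ℤ) : ℝ)| with hR
      rcases le_or_gt R 1 with hR1 | hR1
      · by_cases hj : j = 0
        · exact htriv _ _ hR1
        · exact htriv _ _ hR1
      rw [max_eq_right hR1.le, ← ENNReal.ofReal_mul (by positivity)]
      have hRpos : 0 < R := by linarith
      by_cases hj : j = 0
      · subst hj
        -- the level of planes
        rcases le_or_gt R (2 * A / c₀) with hRA | hRA
        · refine (measure_mono Set.inter_subset_left).trans ((hvolT i).trans ?_)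
          apply ENNReal.ofReal_le_ofReal
          have h1 : 4 ≤ K * R⁻¹ := by
            rw [← div_eq_mul_inv, le_div_iff₀ hRpos]
            linarith
          calc 4 * δ ^ 2 ≤ K * R⁻¹ * δ ^ 2 := by gcongr
            _ = K * δ ^ 2 * R⁻¹ := by ring
        have hRA' : c₀ / 2 * δ * R ≤ c₀ * δ * R - A * δ := by
          rw [div_lt_iff₀ hc₀] at hRA
          nlinarith
        have hb : volume (cyl (1 / 2) δ (c i) (e i) ∩ nodeU L I
            (fun i => cyl (1 / 2) δ (c i) (e i)) i 0 κ) ≤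
            ENNReal.ofReal (2 ^ 3 * ((2 * A * δ + 2 * δ) / (c₀ / 2 * δ * R)) * δ ^ 2) := by
          apply volume_slice_le (d := 2) (1 / 2) _ δ (by positivity) hδ.le (c i) (e i) (he i) _
            Set.inter_subset_left
          intro x hx y hy
          obtain ⟨hx0, hx1⟩ := hx
          obtain ⟨hy0, hy1⟩ := hy
          unfold nodeU sib at hx1 hy1
          simp only [Set.mem_iUnion, Finset.mem_filter, exists_prop] at hx1 hy1
          obtain ⟨i', ⟨_, hi'κ⟩, hxi'⟩ := hx1
          obtain ⟨i'', ⟨_, hi''κ⟩, hyi''⟩ := hy1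
          rw [hL0] at hi'κ hi''κ
          have h1 := hslab i' x hxi'
          have h2 := hslab i'' y hyi''
          rw [hi'κ] at h1
          rw [hi''κ] at h2
          have h3 := htrans i i'
          rw [hi'κ] at h3
          have hRk : |((k i - κ : ℤ) : ℝ)| = R := by
            rw [hR, hL0]
            push_cast
            exact abs_sub_comm _ _
          rw [hRk] at h3
          apply extent_slab (by positivity) ((b κ).orthonormal.1 0) hx0 hy0 _
            (show c₀ / 2 * δ * R ≤ _ by linarith)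
          rw [inner_sub_right]
          have : ⟪b κ 0, x⟫ - ⟪b κ 0, y⟫ = (⟪b κ 0, x⟫ - h κ) - (⟪b κ 0, y⟫ - h κ) := by ring
          rw [this]
          exact (abs_sub _ _).trans (by linarith)
        refine hb.trans (ENNReal.ofReal_le_ofReal ?_)
        have : (2 : ℝ) ^ 3 * ((2 * A * δ + 2 * δ) / (c₀ / 2 * δ * R)) * δ ^ 2 =
            16 * ((2 * A + 2) / c₀) * δ ^ 2 * R⁻¹ := by
          field_simp
          ring
        rw [this]
        gcongr
      · have hj1 : j = 1 := by omega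
        subst hj1
        -- the level of lines inside a plane
        set J : Finset ι := I.filter (fun i' => k i' = k i ∧ ⌊2 * σ i' / δ⌋ = κ) with hJ
        have hsub : cyl (1 / 2) δ (c i) (e i) ∩ nodeU L I
            (fun i => cyl (1 / 2) δ (c i) (e i)) i 1 κ ⊆
            ⋃ i' ∈ J, (cyl (1 / 2) δ (c i) (e i) ∩ cyl (1 / 2) δ (c i') (e i')) := by
          rintro x ⟨hx0, hx1⟩
          unfold nodeU sib at hx1
          simp only [Set.mem_iUnion, Finset.mem_filter, exists_prop] at hx1 ⊢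
          obtain ⟨i', ⟨⟨hi'I, hi's⟩, hi'κ⟩, hxi'⟩ := hx1
          refine ⟨i', ?_, hx0, hxi'⟩
          rw [hJ, Finset.mem_filter]
          exact ⟨hi'I, hi's 0 (by decide), hi'κ⟩
        have hJcard : J.card ≤ M := by
          rcases J.eq_empty_or_nonempty with h0 | ⟨i₁, hi₁⟩
          · rw [h0]; simp
          · rw [hJ, Finset.mem_filter] at hi₁
            refine le_trans (Finset.card_le_card ?_) (hfib i₁ hi₁.1)
            intro i₂ hi₂
            rw [hJ, Finset.mem_filter] at hi₂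
            rw [Finset.mem_filter]
            refine ⟨hi₂.1, ?_⟩
            funext l
            refine Fin.cases ?_ (fun l => ?_) l
            · exact hi₂.2.1.trans hi₁.2.1.symm
            · have hl : l = 0 := Subsingleton.elim _ _
              subst hl
              exact hi₂.2.2.trans hi₁.2.2.symm
        have hR2 : 2 ≤ R := by
          have h1 : 1 < |(κ - L i 1 : ℤ)| := by
            have : (1 : ℝ) < ((|(κ - L i 1 : ℤ)| : ℤ) : ℝ) := by rw [Int.cast_abs]; exact hR1
            exact_mod_cast this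
          have h2 : 2 ≤ |(κ - L i 1 : ℤ)| := by omega
          rw [hR, ← Int.cast_abs]
          exact_mod_cast h2
        have hpair : ∀ i' ∈ J, volume (cyl (1 / 2) δ (c i) (e i) ∩ cyl (1 / 2) δ (c i') (e i')) ≤
            ENNReal.ofReal (2 ^ 3 * (64 / R) * δ ^ 2) := by
          intro i' hi'
          rw [hJ, Finset.mem_filter] at hi'
          obtain ⟨hi'I, hk', hm'⟩ := hi'
          apply volume_slice_le (d := 2) (1 / 2) _ δ (by positivity) hδ.le (c i) (e i) (he i) _
            Set.inter_subset_left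
          intro x hx y hy
          have hpi' := hp i' hi'I
          have hri' := hI i' hi'I
          rw [hk'] at hpi' hri'
          have h1 := extent_pair (b (k i)) hx.1 hy.1 hx.2 hy.2 (hp i hi) hpi' hri'
          have h2 : (R - 1) * (δ / 2) ≤ |σ i - σ i'| := by
            set u := 2 * σ i / δ with hu
            set u' := 2 * σ i' / δ with hu'
            have h3 : R ≤ |u - u'| + 1 := by
              rw [hR, hL1, ← hm']
              push_cast
              have h3 := Int.floor_le u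
              have h4 := Int.lt_floor_add_one u
              have h5 := Int.floor_le u'
              have h6 := Int.lt_floor_add_one u'
              rw [abs_le]
              have h7 := neg_abs_le (u - u')
              have h8 := le_abs_self (u - u')
              constructor <;> linarith
            have h4 : |u - u'| * (δ / 2) = |σ i - σ i'| := by
              rw [hu, hu', ← sub_div, ← mul_sub, abs_div, abs_mul, abs_of_pos hδ, abs_two]
              field_simp
            rw [← h4]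
            apply mul_le_mul_of_nonneg_right _ (by positivity)
            linarith
          have h3 : |σ i - σ i'| = |⟪b (k i) 1, e i⟫ / ⟪b (k i) 2, e i⟫ -
              ⟪b (k i) 1, e i'⟫ / ⟪b (k i) 2, e i'⟫| := by
            rw [hσ]
            simp only [hk']
          rw [← h3] at h1
          rw [le_div_iff₀ hRpos]
          have h4 : R / 2 * (δ / 2) ≤ |σ i - σ i'| := by
            refine le_trans ?_ h2
            apply mul_le_mul_of_nonneg_right _ (by positivity)
            linarith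
          have h5 : |⟪x - y, e i⟫| * (R / 2 * (δ / 2)) ≤ 16 * δ :=
            (mul_le_mul_of_nonneg_left h4 (abs_nonneg _)).trans h1
          have h6 : |⟪x - y, e i⟫| * R * (δ / 4) ≤ 64 * (δ / 4) := by
            calc |⟪x - y, e i⟫| * R * (δ / 4) = |⟪x - y, e i⟫| * (R / 2 * (δ / 2)) := by ring
              _ ≤ 16 * δ := h5
              _ = 64 * (δ / 4) := by ring
          exact le_of_mul_le_mul_right h6 (by positivity)
        refine (measure_mono hsub).trans ((measure_biUnion_finset_le _ _).trans ?_)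
        refine (Finset.sum_le_sum hpair).trans ?_
        rw [Finset.sum_const, nsmul_eq_mul, ← ENNReal.ofReal_natCast,
          ← ENNReal.ofReal_mul (by positivity)]
        apply ENNReal.ofReal_le_ofReal
        have hJr : (J.card : ℝ) ≤ M := by exact_mod_cast hJcard
        calc (J.card : ℝ) * (2 ^ 3 * (64 / R) * δ ^ 2) ≤ M * (2 ^ 3 * (64 / R) * δ ^ 2) := by gcongr
          _ = 512 * M * δ ^ 2 * R⁻¹ := by rw [div_eq_mul_inv]; ring
          _ ≤ K * δ ^ 2 * R⁻¹ := by gcongr)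
  have hqq : 1 + (q - 1) = q := by ring
  have hqq2 : 1 + (q - 1) - 1 / ((2 : ℕ) : ℝ) = q - 1 / 2 := by push_cast; ring
  rw [hqq2, hqq] at hmain
  refine hmain.trans (le_of_eq ?_)
  rw [← ENNReal.ofReal_mul hC₀.le]
  congr 2
  ring

/-- From the integral to the norm. -/
lemma norm_of_lintegral {q C δ : ℝ} (hq : 1 < q) (hC : 0 < C) (hδ : 0 < δ) {ι : Type}
    (c e : ι → EuclideanSpace ℝ (Fin 3)) (I : Finset ι)
    (h : ∫⁻ x, (∑ i ∈ I, (cyl (1 / 2) δ (c i) (e i)).indicator
        (1 : EuclideanSpace ℝ (Fin 3) → ℝ≥0∞) x) ^ q ≤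
        ENNReal.ofReal (C * δ ^ 2) * (I.card : ℝ≥0∞) ^ (q - 1 / 2)) :
    eLpNorm (fun x => ∑ i ∈ I, (tube δ (c i) (e i)).indicator (fun _ => (1 : ℝ)) x)
        (ENNReal.ofReal q) volume ≤
        ENNReal.ofReal (C ^ (1 / q) * δ ^ ((2 : ℝ) / q) * (I.card : ℝ) ^ (1 - 1 / (2 * q))) := by
  have hq0 : 0 < q := by linarith
  have hE : ∀ i, tube δ (c i) (e i) = cyl (1 / 2) δ (c i) (e i) := fun i => rfl
  have hqtop : ENNReal.ofReal q ≠ ⊤ := ENNReal.ofReal_ne_top
  have hqne : ENNReal.ofReal q ≠ 0 := by simpa using hq0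
  rw [eLpNorm_eq_lintegral_rpow_enorm_toReal hqne hqtop, ENNReal.toReal_ofReal hq0.le]
  have hpt : ∀ x, ‖∑ i ∈ I, (tube δ (c i) (e i)).indicator (fun _ => (1 : ℝ)) x‖ₑ =
      ∑ i ∈ I, (cyl (1 / 2) δ (c i) (e i)).indicator
        (1 : EuclideanSpace ℝ (Fin 3) → ℝ≥0∞) x := by
    intro x
    rw [Real.enorm_of_nonneg (Finset.sum_nonneg fun i _ =>
      Set.indicator_nonneg (fun _ _ => zero_le_one) x),
      ENNReal.ofReal_sum_of_nonneg (fun i _ => Set.indicator_nonneg (fun _ _ => zero_le_one) x)]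
    refine Finset.sum_congr rfl fun i _ => ?_
    rw [hE]
    by_cases hx : x ∈ cyl (1 / 2) δ (c i) (e i)
    · rw [Set.indicator_of_mem hx, Set.indicator_of_mem hx]; simp
    · rw [Set.indicator_of_notMem hx, Set.indicator_of_notMem hx]; simp
  simp_rw [hpt]
  refine (ENNReal.rpow_le_rpow h (by positivity)).trans (le_of_eq ?_)
  have hexp : (q - 1 / 2) * (1 / q) = 1 - 1 / (2 * q) := by field_simp
  have hexp0 : 0 < 1 - 1 / (2 * q) := by
    rw [← hexp]
    have : 0 < q - 1 / 2 := by linarith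
    positivity
  rw [ENNReal.mul_rpow_of_nonneg _ _ (by positivity), ← ENNReal.rpow_mul,
    ENNReal.ofReal_rpow_of_nonneg (by positivity) (by positivity), hexp,
    ← ENNReal.ofReal_natCast, ENNReal.ofReal_rpow_of_nonneg (by positivity) hexp0.le,
    ← ENNReal.ofReal_mul (by positivity)]
  congr 1
  have h7 : ((δ : ℝ) ^ 2) ^ (1 / q) = δ ^ ((2 : ℝ) / q) := by
    rw [← Real.rpow_natCast, ← Real.rpow_mul hδ.le]
    congr 1
    push_cast
    ring
  rw [Real.mul_rpow hC.le (by positivity), h7]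

/-- **Kakeya maximal inequality in `ℝ³` for families foliated by planes.** -/
theorem result (q A c₀ : ℝ) (hq : 3 / 2 < q) (hc₀ : 0 < c₀) :
    ∃ C : ℝ, 0 < C ∧ ∀ (δ : ℝ), 0 < δ → δ < 1 → ∀ (ι : Type) [Fintype ι]
      (c e : ι → EuclideanSpace ℝ (Fin 3)), (∀ i, ‖e i‖ = 1) →
      (∀ i i', i ≠ i' → δ ≤ ‖e i - e i'‖) →
      ∀ (k : ι → ℤ) (ν : ℤ → EuclideanSpace ℝ (Fin 3)) (h : ℤ → ℝ), (∀ m, ‖ν m‖ = 1) →
      (∀ i, ∀ x ∈ tube δ (c i) (e i), |⟪ν (k i), x⟫ - h (k i)| ≤ A * δ) →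
      (∀ i i', c₀ * δ * |((k i - k i' : ℤ) : ℝ)| ≤ |⟪ν (k i'), e i⟫| + A * δ) →
      eLpNorm (fun x => ∑ i, (tube δ (c i) (e i)).indicator (fun _ => (1 : ℝ)) x)
        (ENNReal.ofReal q) volume ≤
        ENNReal.ofReal (C * δ ^ ((2 : ℝ) / q) * (Fintype.card ι : ℝ) ^ (1 - 1 / (2 * q))) := by
  classical
  have hq1 : 1 < q := by linarith
  have hq0 : 0 < q := by linarith
  have hqE : (1 : ℝ≥0∞) ≤ ENNReal.ofReal q := by
    rw [← ENNReal.ofReal_one]; exact ENNReal.ofReal_le_ofReal hq1.le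
  have hA0 : 0 ≤ max A 0 := le_max_right _ _
  have hexp0 : 0 < 1 - 1 / (2 * q) := by
    have : 1 / (2 * q) < 1 := by
      rw [div_lt_one (by positivity)]; linarith
    linarith
  obtain ⟨C₁, hC₁, hC⟩ := class_bound q (max A 0) c₀ hq hA0 hc₀
  set ρ : ℝ := 1 / (4 * max A 0 + 1) with hρ
  have hρ0 : 0 < ρ := by positivity
  obtain ⟨N, hN⟩ := packing ρ hρ0
  refine ⟨2 * C₁ ^ (1 / q) + 4 ^ (1 / q) * (N : ℝ) ^ (1 / (2 * q)), by positivity, ?_⟩
  intro δ hδ hδ1 ι _ c e he hsep k ν h hν hslab htrans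
  have hmeas : ∀ i, MeasurableSet (tube δ (c i) (e i)) := fun i => measurableSet_cyl _ _ _ _
  have hmeasI : ∀ I : Finset ι, AEStronglyMeasurable
      (fun x => ∑ i ∈ I, (tube δ (c i) (e i)).indicator (fun _ => (1 : ℝ)) x) volume := by
    intro I
    exact (Finset.measurable_sum I fun i _ =>
      (measurable_const.indicator (hmeas i))).aestronglyMeasurable
  rcases le_or_gt δ ρ with hδρ | hδρ
  · have hδA : 4 * max A 0 * δ ≤ 1 := by
      rw [hρ, le_div_iff₀ (by positivity)] at hδρ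
      nlinarith
    -- frames
    have hfr : ∀ m, ∃ b : Bool → OrthonormalBasis (Fin 3) ℝ (EuclideanSpace ℝ (Fin 3)),
      (∀ s, b s 0 = ν m) ∧ ∀ e, ∃ s, |⟪b s 1, e⟫| ≤ |⟪b s 2, e⟫| := fun m => exists_frames _ (hν m)
    choose b hb0 hb1 using hfr
    have hs : ∀ i, ∃ s, |⟪b (k i) s 1, e i⟫| ≤ |⟪b (k i) s 2, e i⟫| := fun i => hb1 (k i) (e i)
    choose s hs using hs
    have hclass : ∀ t : Bool, eLpNorm (fun x => ∑ i ∈ Finset.univ.filter (fun i => s i = t),
        (tube δ (c i) (e i)).indicator (fun _ => (1 : ℝ)) x) (ENNReal.ofReal q) volume ≤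
        ENNReal.ofReal (C₁ ^ (1 / q) * δ ^ ((2 : ℝ) / q) *
          (Fintype.card ι : ℝ) ^ (1 - 1 / (2 * q))) := by
      intro t
      have h1 := hC δ hδ hδ1 hδA ι c e he hsep k h (fun m => b m t)
        (fun i x hx => by
          rw [hb0]
          refine (hslab i x hx).trans ?_
          gcongr
          exact le_max_left _ _)
        (fun i i' => by
          rw [hb0]
          refine (htrans i i').trans ?_
          gcongr
          exact le_max_left _ _)
        (Finset.univ.filter (fun i => s i = t))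
        (fun i hi => by
          have := hs i
          rw [(Finset.mem_filter.mp hi).2] at this
          exact this)
      refine (norm_of_lintegral hq1 hC₁ hδ c e _ h1).trans (ENNReal.ofReal_le_ofReal ?_)
      apply mul_le_mul_of_nonneg_left _ (by positivity)
      apply Real.rpow_le_rpow (by positivity) _ hexp0.le
      exact_mod_cast Finset.card_le_univ _
    have hsplit : (fun x => ∑ i, (tube δ (c i) (e i)).indicator (fun _ => (1 : ℝ)) x) =
        (fun x => ∑ i ∈ Finset.univ.filter (fun i => s i = true),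
          (tube δ (c i) (e i)).indicator (fun _ => (1 : ℝ)) x) +
        (fun x => ∑ i ∈ Finset.univ.filter (fun i => s i = false),
          (tube δ (c i) (e i)).indicator (fun _ => (1 : ℝ)) x) := by
      funext x
      rw [Pi.add_apply, ← Finset.sum_filter_add_sum_filter_not Finset.univ (fun i => s i = true)]
      congr 1
      refine Finset.sum_congr ?_ fun _ _ => rfl
      ext i
      simp
    rw [hsplit]
    refine (eLpNorm_add_le (hmeasI _) (hmeasI _) hqE).trans ?_
    refine (add_le_add (hclass true) (hclass false)).trans ?_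
    rw [← ENNReal.ofReal_add (by positivity) (by positivity)]
    apply ENNReal.ofReal_le_ofReal
    have h9 : 0 ≤ 4 ^ (1 / q) * (N : ℝ) ^ (1 / (2 * q)) * δ ^ ((2 : ℝ) / q) *
        (Fintype.card ι : ℝ) ^ (1 - 1 / (2 * q)) := by positivity
    linarith
  · -- only boundedly many tubes
    have hcardN : Fintype.card ι ≤ N := hN ι e he (fun i i' hii => hδρ.le.trans (hsep i i' hii))
    have hone : ∀ i, eLpNorm ((tube δ (c i) (e i)).indicator (fun _ => (1 : ℝ)))
        (ENNReal.ofReal q) volume ≤ ENNReal.ofReal (4 ^ (1 / q) * δ ^ ((2 : ℝ) / q)) := by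
      intro i
      rw [eLpNorm_indicator_const (hmeas i) (by simpa using hq0) ENNReal.ofReal_ne_top,
        ENNReal.toReal_ofReal hq0.le, enorm_one, one_mul]
      have h1 : volume (tube δ (c i) (e i)) ≤ ENNReal.ofReal (4 * δ ^ 2) := by
        refine (volume_cyl_le (d := 2) (1 / 2) δ (by norm_num) hδ.le (c i) (e i) (he i)).trans
          (le_of_eq ?_)
        congr 1
        ring
      refine (ENNReal.rpow_le_rpow h1 (by positivity)).trans (le_of_eq ?_)
      rw [ENNReal.ofReal_rpow_of_nonneg (by positivity) (by positivity)]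
      congr 1
      rw [Real.mul_rpow (by norm_num) (by positivity)]
      congr 1
      rw [← Real.rpow_natCast, ← Real.rpow_mul hδ.le]
      congr 1
      push_cast
      ring
    have hsum : (fun x => ∑ i, (tube δ (c i) (e i)).indicator (fun _ => (1 : ℝ)) x) =
        ∑ i, (tube δ (c i) (e i)).indicator (fun _ => (1 : ℝ)) := by
      funext x
      rw [Finset.sum_apply]
    rw [hsum]
    refine (eLpNorm_sum_le (fun i _ => (measurable_const.indicator
      (hmeas i)).aestronglyMeasurable) hqE).trans ?_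
    refine (Finset.sum_le_sum fun i _ => hone i).trans ?_
    rw [Finset.sum_const, Finset.card_univ, nsmul_eq_mul, ← ENNReal.ofReal_natCast,
      ← ENNReal.ofReal_mul (by positivity)]
    apply ENNReal.ofReal_le_ofReal
    have h1 : (Fintype.card ι : ℝ) ≤
        (N : ℝ) ^ (1 / (2 * q)) * (Fintype.card ι : ℝ) ^ (1 - 1 / (2 * q)) := by
      rcases Nat.eq_zero_or_pos (Fintype.card ι) with h0 | h0
      · rw [h0, Nat.cast_zero]
        positivity
      · have h0' : (0 : ℝ) < Fintype.card ι := by exact_mod_cast h0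
        calc (Fintype.card ι : ℝ) = (Fintype.card ι : ℝ) ^ (1 / (2 * q)) *
              (Fintype.card ι : ℝ) ^ (1 - 1 / (2 * q)) := by
              rw [← Real.rpow_add h0']
              norm_num
          _ ≤ _ := by gcongr
    have h9 : 0 ≤ 2 * C₁ ^ (1 / q) * δ ^ ((2 : ℝ) / q) *
        (Fintype.card ι : ℝ) ^ (1 - 1 / (2 * q)) := by positivity
    calc (Fintype.card ι : ℝ) * (4 ^ (1 / q) * δ ^ ((2 : ℝ) / q))
        ≤ ((N : ℝ) ^ (1 / (2 * q)) * (Fintype.card ι : ℝ) ^ (1 - 1 / (2 * q))) *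
          (4 ^ (1 / q) * δ ^ ((2 : ℝ) / q)) := by gcongr
      _ ≤ _ := by nlinarith

end Pool.Agent.H32.PlaneFoliated
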