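import Mathlib

/-!
# Nested power-mean inequality on labelled trees, and the resulting `L^q` estimate
-/

open MeasureTheory Filter Set
open scoped Topology ENNReal

namespace Pool.Agent.H32.Tree

/-- Indices of `I` sharing with `i` all labels of level `< j`. -/
def sib {ι : Type*} {d : ℕ} (k : ι → Fin d → ℤ) (I : Finset ι) (i : ι) (j : Fin d) : Finset ι :=
  I.filter (fun i' => ∀ l, l < j → k i' l = k i l)

/-- The values of the `j`-th label on `sib k I i j`. -/
def ch {ι : Type*} {d : ℕ} (k : ι → Fin d → ℤ) (I : Finset ι) (i : ι) (j : Fin d) : Finset ℤ :=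
  (sib k I i j).image (fun i' => k i' j)

/-- Every label vector is shared by at most `M` elements of `I`. -/
def Fib {ι : Type*} {d : ℕ} (k : ι → Fin d → ℤ) (I : Finset ι) (M : ℕ) : Prop :=
  ∀ i ∈ I, (I.filter (fun i' => k i' = k i)).card ≤ M

lemma Fib.mono {ι : Type*} {d : ℕ} {k : ι → Fin d → ℤ} {I J : Finset ι} {M : ℕ}
    (h : Fib k I M) (hJ : J ⊆ I) : Fib k J M := by
  intro i hi
  refine le_trans (Finset.card_le_card ?_) (h i (hJ hi))
  intro x hx
  rw [Finset.mem_filter] at hx ⊢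
  exact ⟨hJ hx.1, hx.2⟩

/-- Nested power-mean inequality. -/
lemma nested {ι : Type*} (a : ℝ) (ha : 0 ≤ a) (M : ℕ) (d : ℕ) :
    ∀ (k : ι → Fin d → ℤ) (I : Finset ι), Fib k I M →
      (I.card : ℝ≥0∞) ^ (1 + a) ≤
        (M : ℝ≥0∞) ^ a * ∑ i ∈ I, ∏ j, ((ch k I i j).card : ℝ≥0∞) ^ a := by
  classical
  induction d with
  | zero =>
    intro k I hfib
    rcases I.eq_empty_or_nonempty with h | ⟨i₀, hi₀⟩
    · rw [h]
      have : (0 : ℝ) < 1 + a := by linarith
      simp [this]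
    · have hcard : I.card ≤ M := by
        refine le_trans (Finset.card_le_card ?_) (hfib i₀ hi₀)
        intro x hx
        rw [Finset.mem_filter]
        exact ⟨hx, Subsingleton.elim _ _⟩
      have h1 : (I.card : ℝ≥0∞) ≤ (M : ℝ≥0∞) := by exact_mod_cast hcard
      rw [add_comm, ENNReal.rpow_add_of_nonneg _ _ ha zero_le_one, ENNReal.rpow_one]
      simp only [Finset.univ_eq_empty, Finset.prod_empty, Finset.sum_const, nsmul_eq_mul, mul_one]
      gcongr
  | succ d ih =>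
    intro k I hfib
    set S : Finset ℤ := I.image (fun i => k i 0) with hS
    have hcard : (I.card : ℝ≥0∞) = ∑ κ ∈ S, ((I.filter (fun i => k i 0 = κ)).card : ℝ≥0∞) := by
      rw [← Nat.cast_sum]
      congr 1
      rw [hS]
      exact Finset.card_eq_sum_card_image _ _
    have h1 : (I.card : ℝ≥0∞) ^ (1 + a) ≤
        (S.card : ℝ≥0∞) ^ a * ∑ κ ∈ S, ((I.filter (fun i => k i 0 = κ)).card : ℝ≥0∞) ^ (1 + a) := by
      rw [hcard]
      have := ENNReal.rpow_sum_le_const_mul_sum_rpow S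
        (fun κ => ((I.filter (fun i => k i 0 = κ)).card : ℝ≥0∞)) (p := 1 + a) (by linarith)
      simpa using this
    have h2 : ∀ κ ∈ S, ((I.filter (fun i => k i 0 = κ)).card : ℝ≥0∞) ^ (1 + a) ≤
        (M : ℝ≥0∞) ^ a * ∑ i ∈ I.filter (fun i => k i 0 = κ),
          ∏ j : Fin d, ((ch k I i j.succ).card : ℝ≥0∞) ^ a := by
      intro κ hκ
      have hfib' : Fib (fun i (l : Fin d) => k i l.succ) (I.filter (fun i => k i 0 = κ)) M := by
        intro x hx
        rw [Finset.mem_filter] at hx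
        refine le_trans (Finset.card_le_card ?_) (hfib x hx.1)
        intro y hy
        rw [Finset.mem_filter, Finset.mem_filter] at hy
        rw [Finset.mem_filter]
        refine ⟨hy.1.1, ?_⟩
        funext l
        refine Fin.cases ?_ (fun l => ?_) l
        · rw [hy.1.2, hx.2]
        · exact congrFun hy.2 l
      refine (ih (fun i (l : Fin d) => k i l.succ) _ hfib').trans (le_of_eq ?_)
      congr 1
      refine Finset.sum_congr rfl fun i hi => ?_
      refine Finset.prod_congr rfl fun j _ => ?_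
      have : ch (fun i (l : Fin d) => k i l.succ) (I.filter (fun i => k i 0 = κ)) i j =
          ch k I i j.succ := by
        unfold ch sib
        congr 1
        ext i'
        simp only [Finset.mem_filter] at hi ⊢
        constructor
        · rintro ⟨⟨h1, h2⟩, h3⟩
          refine ⟨h1, fun l hl => ?_⟩
          refine Fin.cases ?_ (fun l hl => ?_) l hl
          · intro _
            rw [h2, hi.2]
          · exact h3 l (Fin.succ_lt_succ_iff.mp hl)
        · rintro ⟨h1, h2⟩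
          refine ⟨⟨h1, ?_⟩, fun l hl => h2 l.succ (Fin.succ_lt_succ_iff.mpr hl)⟩
          rw [h2 0 (Fin.succ_pos j), hi.2]
      rw [this]
    calc (I.card : ℝ≥0∞) ^ (1 + a)
        ≤ (S.card : ℝ≥0∞) ^ a *
          ∑ κ ∈ S, ((I.filter (fun i => k i 0 = κ)).card : ℝ≥0∞) ^ (1 + a) := h1
      _ ≤ (S.card : ℝ≥0∞) ^ a * ∑ κ ∈ S, (M : ℝ≥0∞) ^ a * ∑ i ∈ I.filter (fun i => k i 0 = κ),
          ∏ j : Fin d, ((ch k I i j.succ).card : ℝ≥0∞) ^ a := by
          gcongr with κ hκ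
          exact h2 κ hκ
      _ = (M : ℝ≥0∞) ^ a * ((S.card : ℝ≥0∞) ^ a *
          ∑ i ∈ I, ∏ j : Fin d, ((ch k I i j.succ).card : ℝ≥0∞) ^ a) := by
          rw [← Finset.mul_sum, Finset.sum_fiberwise_of_maps_to
            (fun i hi => Finset.mem_image_of_mem _ hi)]
          ring
      _ = (M : ℝ≥0∞) ^ a * ∑ i ∈ I, ∏ j, ((ch k I i j).card : ℝ≥0∞) ^ a := by
          congr 1
          rw [Finset.mul_sum]
          refine Finset.sum_congr rfl fun i _ => ?_
          rw [Fin.prod_univ_succ]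
          congr 3
          unfold ch sib
          rw [hS]
          congr 1
          ext i'
          simp

lemma sum_rpow_le (β : ℝ) (hβ0 : 0 < β) (hβ1 : β < 1) (R : ℕ) :
    ∑ m ∈ Finset.range R, ((m : ℝ) + 1) ^ (-β) ≤ (R : ℝ) ^ (1 - β) / (1 - β) := by
  have hp : 0 < 1 - β := by linarith
  induction R with
  | zero => simp [hp.ne']
  | succ R ih =>
    rw [Finset.sum_range_succ]
    have hR : (0 : ℝ) < (R : ℝ) + 1 := by positivity
    have hbern : (1 + (-(1 / ((R : ℝ) + 1)))) ^ (1 - β) ≤ 1 + (1 - β) * (-(1 / ((R : ℝ) + 1))) := by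
      apply rpow_one_add_le_one_add_mul_self
      · have : 1 / ((R : ℝ) + 1) ≤ 1 := by
          rw [div_le_one hR]
          have : (0 : ℝ) ≤ R := Nat.cast_nonneg R
          linarith
        linarith
      · exact hp.le
      · linarith
    have h1 : (1 + (-(1 / ((R : ℝ) + 1)))) = (R : ℝ) / ((R : ℝ) + 1) := by
      field_simp
      ring
    rw [h1, Real.div_rpow (Nat.cast_nonneg R) hR.le] at hbern
    have hpow : 0 < ((R : ℝ) + 1) ^ (1 - β) := Real.rpow_pos_of_pos hR _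
    rw [div_le_iff₀ hpow] at hbern
    have h2 : ((R : ℝ) + 1) ^ (-β) = ((R : ℝ) + 1) ^ (1 - β) * (1 / ((R : ℝ) + 1)) := by
      rw [show -β = (1 - β) - 1 by ring, Real.rpow_sub_one hR.ne']
      field_simp
    have h3 : (R : ℝ) ^ (1 - β) + (1 - β) * ((R : ℝ) + 1) ^ (-β) ≤ ((R : ℝ) + 1) ^ (1 - β) := by
      rw [h2]
      nlinarith
    push_cast
    rw [le_div_iff₀ hp] at ih ⊢
    nlinarith

lemma sum_int_le (β : ℝ) (hβ0 : 0 < β) (hβ1 : β < 1) (K : Finset ℤ) (hK : K.Nonempty) (k₀ : ℤ) :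
    ∑ κ ∈ K, (max 1 |((κ - k₀ : ℤ) : ℝ)|) ^ (-β) ≤
      (3 + 2 / (1 - β)) * (K.card : ℝ) ^ (1 - β) := by
  classical
  have hp : 0 < 1 - β := by linarith
  set R : ℕ := K.card with hR
  have hR1 : 1 ≤ R := Finset.card_pos.mpr hK
  have hRr : (1 : ℝ) ≤ R := by exact_mod_cast hR1
  have hRpow : 1 ≤ (R : ℝ) ^ (1 - β) := Real.one_le_rpow hRr hp.le
  rw [← Finset.sum_filter_add_sum_filter_not K (fun κ => (κ - k₀).natAbs ≤ R)]
  have hfar : ∑ κ ∈ K.filter (fun κ => ¬ (κ - k₀).natAbs ≤ R),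
      (max 1 |((κ - k₀ : ℤ) : ℝ)|) ^ (-β) ≤ (R : ℝ) ^ (1 - β) := by
    have h1 : ∀ κ ∈ K.filter (fun κ => ¬ (κ - k₀).natAbs ≤ R),
        (max 1 |((κ - k₀ : ℤ) : ℝ)|) ^ (-β) ≤ (R : ℝ) ^ (-β) := by
      intro κ hκ
      rw [Finset.mem_filter] at hκ
      have h2 : (R : ℝ) ≤ |((κ - k₀ : ℤ) : ℝ)| := by
        have h3 : (R : ℝ) ≤ ((κ - k₀).natAbs : ℝ) := by
          exact_mod_cast (not_le.mp hκ.2).le
        rw [Nat.cast_natAbs] at h3
        simpa using h3
      apply Real.rpow_le_rpow_of_nonpos (by linarith) (h2.trans (le_max_right _ _)) (by linarith)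
    calc _ ≤ ∑ κ ∈ K.filter (fun κ => ¬ (κ - k₀).natAbs ≤ R), (R : ℝ) ^ (-β) :=
          Finset.sum_le_sum h1
      _ = ((K.filter (fun κ => ¬ (κ - k₀).natAbs ≤ R)).card : ℝ) * (R : ℝ) ^ (-β) := by
          rw [Finset.sum_const, nsmul_eq_mul]
      _ ≤ (R : ℝ) * (R : ℝ) ^ (-β) := by
          gcongr
          exact_mod_cast Finset.card_filter_le _ _
      _ = (R : ℝ) ^ (1 - β) := by
          rw [sub_eq_add_neg, Real.rpow_add (by linarith), Real.rpow_one]
  have hnear : ∑ κ ∈ K.filter (fun κ => (κ - k₀).natAbs ≤ R),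
      (max 1 |((κ - k₀ : ℤ) : ℝ)|) ^ (-β) ≤ 2 + 2 * ((R : ℝ) ^ (1 - β) / (1 - β)) := by
    have hmaps : ∀ κ ∈ K.filter (fun κ => (κ - k₀).natAbs ≤ R),
        (κ - k₀).natAbs ∈ Finset.range (R + 1) := by
      intro κ hκ
      rw [Finset.mem_filter] at hκ
      rw [Finset.mem_range]
      omega
    rw [← Finset.sum_fiberwise_of_maps_to hmaps]
    have hbound : ∀ m ∈ Finset.range (R + 1),
        ∑ κ ∈ (K.filter (fun κ => (κ - k₀).natAbs ≤ R)).filter (fun κ => (κ - k₀).natAbs = m),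
          (max 1 |((κ - k₀ : ℤ) : ℝ)|) ^ (-β) ≤ 2 * (max 1 (m : ℝ)) ^ (-β) := by
      intro m _
      have h1 : ∀ κ ∈ (K.filter (fun κ => (κ - k₀).natAbs ≤ R)).filter
          (fun κ => (κ - k₀).natAbs = m),
          (max 1 |((κ - k₀ : ℤ) : ℝ)|) ^ (-β) = (max 1 (m : ℝ)) ^ (-β) := by
        intro κ hκ
        rw [Finset.mem_filter] at hκ
        have h3 : |((κ - k₀ : ℤ) : ℝ)| = (m : ℝ) := by
          have : (((κ - k₀).natAbs : ℕ) : ℝ) = |((κ - k₀ : ℤ) : ℝ)| := by
            rw [Nat.cast_natAbs]; simp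
          rw [← this, hκ.2]
        rw [h3]
      rw [Finset.sum_congr rfl h1, Finset.sum_const, nsmul_eq_mul]
      gcongr
      have hsub : (K.filter (fun κ => (κ - k₀).natAbs ≤ R)).filter
          (fun κ => (κ - k₀).natAbs = m) ⊆ {k₀ + m, k₀ - m} := by
        intro κ hκ
        rw [Finset.mem_filter] at hκ
        have := hκ.2
        simp only [Finset.mem_insert, Finset.mem_singleton]
        omega
      have := (Finset.card_le_card hsub).trans Finset.card_le_two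
      exact_mod_cast this
    refine (Finset.sum_le_sum hbound).trans ?_
    rw [← Finset.mul_sum, Finset.sum_range_succ']
    have h2 : ∑ m ∈ Finset.range R, (max 1 ((m + 1 : ℕ) : ℝ)) ^ (-β) =
        ∑ m ∈ Finset.range R, ((m : ℝ) + 1) ^ (-β) := by
      refine Finset.sum_congr rfl fun m _ => ?_
      congr 1
      push_cast
      apply max_eq_right
      have : (0 : ℝ) ≤ m := Nat.cast_nonneg m
      linarith
    rw [h2]
    have h3 := sum_rpow_le β hβ0 hβ1 R
    simp only [Nat.cast_zero, zero_le_one, sup_of_le_left, Real.one_rpow]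
    linarith
  have hfin : (R : ℝ) ^ (1 - β) / (1 - β) = (1 / (1 - β)) * (R : ℝ) ^ (1 - β) := by ring
  calc _ ≤ (2 + 2 * ((R : ℝ) ^ (1 - β) / (1 - β))) + (R : ℝ) ^ (1 - β) := add_le_add hnear hfar
    _ ≤ (3 + 2 / (1 - β)) * (R : ℝ) ^ (1 - β) := by
        rw [hfin]
        have : 2 / (1 - β) = 2 * (1 / (1 - β)) := by ring
        rw [this]
        nlinarith

lemma lintegral_Lp_sum_le {Ω α : Type*} [MeasurableSpace Ω] (ν : Measure Ω) (s : Finset α)
    (f : α → Ω → ℝ≥0∞) (hf : ∀ i ∈ s, Measurable (f i)) {p : ℝ} (hp : 1 ≤ p) :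
    (∫⁻ x, (∑ i ∈ s, f i x) ^ p ∂ν) ^ (1 / p) ≤ ∑ i ∈ s, (∫⁻ x, (f i x) ^ p ∂ν) ^ (1 / p) := by
  classical
  have hp0 : 0 < p := by linarith
  induction s using Finset.induction_on with
  | empty => simp [hp0]
  | insert i s hi ih =>
    rw [Finset.sum_insert hi]
    have h1 : ∀ x, ∑ j ∈ insert i s, f j x = (f i + fun y => ∑ j ∈ s, f j y) x := by
      intro x
      rw [Finset.sum_insert hi]
      rfl
    simp_rw [h1]
    refine (ENNReal.lintegral_Lp_add_le (hf i (Finset.mem_insert_self i s)).aemeasurable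
      (Finset.measurable_fun_sum s fun j hj => hf j (Finset.mem_insert_of_mem hj)).aemeasurable
      hp).trans ?_
    gcongr
    exact ih fun j hj => hf j (Finset.mem_insert_of_mem hj)

lemma level {Ω : Type*} [MeasurableSpace Ω] (ν : Measure Ω) (K : Finset ℤ) (hK : K.Nonempty)
    (F : ℤ → Set Ω) (hF : ∀ κ, MeasurableSet (F κ)) (k₀ : ℤ) (w : ℝ≥0∞) (s : ℝ) (hs : 1 < s)
    (h : ∀ κ ∈ K, ν (F κ) ≤ w * ENNReal.ofReal ((max 1 |((κ - k₀ : ℤ) : ℝ)|)⁻¹)) :
    ∫⁻ x, (∑ κ ∈ K, (F κ).indicator 1 x) ^ s ∂ν ≤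
      ENNReal.ofReal (3 + 2 / (1 - 1 / s)) ^ s * w * (K.card : ℝ≥0∞) ^ (s - 1) := by
  have hs0 : 0 < s := by linarith
  have hβ0 : 0 < 1 / s := by positivity
  have hβ1 : 1 / s < 1 := by rw [div_lt_one hs0]; exact hs
  have h1 := lintegral_Lp_sum_le ν K (fun κ => (F κ).indicator (1 : Ω → ℝ≥0∞))
    (fun κ _ => measurable_one.indicator (hF κ)) hs.le
  have h2 : ∀ κ ∈ K, (∫⁻ x, ((F κ).indicator (1 : Ω → ℝ≥0∞) x) ^ s ∂ν) ^ (1 / s) ≤
      w ^ (1 / s) * ENNReal.ofReal ((max 1 |((κ - k₀ : ℤ) : ℝ)|) ^ (-(1 / s))) := by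
    intro κ hκ
    have h3 : ∀ x, ((F κ).indicator (1 : Ω → ℝ≥0∞) x) ^ s = (F κ).indicator 1 x := by
      intro x
      by_cases hx : x ∈ F κ
      · simp [hx]
      · simp [hx, hs0]
    simp_rw [h3]
    rw [lintegral_indicator_one (hF κ)]
    have hmax : (0 : ℝ) < max 1 |((κ - k₀ : ℤ) : ℝ)| := lt_of_lt_of_le one_pos (le_max_left _ _)
    calc ν (F κ) ^ (1 / s) ≤ (w * ENNReal.ofReal ((max 1 |((κ - k₀ : ℤ) : ℝ)|)⁻¹)) ^ (1 / s) := by
          gcongr
          exact h κ hκ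
      _ = w ^ (1 / s) * ENNReal.ofReal ((max 1 |((κ - k₀ : ℤ) : ℝ)|) ^ (-(1 / s))) := by
          rw [ENNReal.mul_rpow_of_nonneg _ _ hβ0.le, ENNReal.ofReal_rpow_of_pos (by positivity),
            Real.inv_rpow hmax.le, Real.rpow_neg hmax.le]
  have h4 : (∫⁻ x, (∑ κ ∈ K, (F κ).indicator (1 : Ω → ℝ≥0∞) x) ^ s ∂ν) ^ (1 / s) ≤
      w ^ (1 / s) * ENNReal.ofReal ((3 + 2 / (1 - 1 / s)) * (K.card : ℝ) ^ (1 - 1 / s)) := by
    refine h1.trans ((Finset.sum_le_sum h2).trans ?_)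
    rw [← Finset.mul_sum, ← ENNReal.ofReal_sum_of_nonneg]
    · gcongr
      exact sum_int_le (1 / s) hβ0 hβ1 K hK k₀
    · intro κ _
      positivity
  have h5 := ENNReal.rpow_le_rpow h4 hs0.le
  rw [← ENNReal.rpow_mul, one_div_mul_cancel hs0.ne', ENNReal.rpow_one,
    ENNReal.mul_rpow_of_nonneg _ _ hs0.le, ← ENNReal.rpow_mul, one_div_mul_cancel hs0.ne',
    ENNReal.rpow_one] at h5
  refine h5.trans (le_of_eq ?_)
  have hc : 0 ≤ 3 + 2 / (1 - 1 / s) := by
    have : 0 < 1 - 1 / s := by linarith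
    positivity
  rw [ENNReal.ofReal_mul hc, ENNReal.mul_rpow_of_nonneg _ _ hs0.le]
  have h6 : ENNReal.ofReal ((K.card : ℝ) ^ (1 - 1 / s)) ^ s = (K.card : ℝ≥0∞) ^ (s - 1) := by
    have hcard : (0 : ℝ) < K.card := by exact_mod_cast Finset.card_pos.mpr hK
    rw [← ENNReal.ofReal_rpow_of_pos hcard, ← ENNReal.rpow_mul, ENNReal.ofReal_natCast]
    congr 1
    field_simp
  rw [h6]
  ring

lemma prod_rpow_sum {d : ℕ} (w : ℝ≥0∞) (θ : Fin d → ℝ) (hθ : ∀ j, 0 ≤ θ j) :
    ∏ j, w ^ (θ j) = w ^ (∑ j, θ j) := by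
  classical
  have key : ∀ s : Finset (Fin d), ∏ j ∈ s, w ^ (θ j) = w ^ (∑ j ∈ s, θ j) := by
    intro s
    induction s using Finset.induction_on with
    | empty => simp
    | insert i s hi ih =>
      rw [Finset.prod_insert hi, Finset.sum_insert hi, ih,
        ENNReal.rpow_add_of_nonneg _ _ (hθ i) (Finset.sum_nonneg fun j _ => hθ j)]
  exact key Finset.univ

/-- Union of the sets `E i'` over `i'` sharing the labels of level `< j` with `i` and having
`j`-th label `κ`. -/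
def nodeU {ι Ω : Type*} {d : ℕ} (k : ι → Fin d → ℤ) (I : Finset ι) (E : ι → Set Ω) (i : ι)
    (j : Fin d) (κ : ℤ) : Set Ω :=
  ⋃ i' ∈ (sib k I i j).filter (fun i' => k i' j = κ), E i'

lemma measurableSet_nodeU {ι Ω : Type*} [MeasurableSpace Ω] {d : ℕ} (k : ι → Fin d → ℤ)
    (I : Finset ι) (E : ι → Set Ω) (hE : ∀ i, MeasurableSet (E i)) (i : ι) (j : Fin d) (κ : ℤ) :
    MeasurableSet (nodeU k I E i j κ) :=
  Finset.measurableSet_biUnion _ fun i' _ => hE i'

lemma pointwise {ι Ω : Type*} {d : ℕ} (k : ι → Fin d → ℤ)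
    (I : Finset ι) (M : ℕ) (hfib : Fib k I M) (E : ι → Set Ω) (a : ℝ) (ha : 0 ≤ a) (x : Ω) :
    (∑ i ∈ I, (E i).indicator (1 : Ω → ℝ≥0∞) x) ^ (1 + a) ≤
      (M : ℝ≥0∞) ^ a * ∑ i ∈ I, (E i).indicator (fun x => ∏ j, (∑ κ ∈ ch k I i j,
        (nodeU k I E i j κ).indicator (1 : Ω → ℝ≥0∞) x) ^ a) x := by
  classical
  set J := I.filter (fun i => x ∈ E i) with hJ
  have h1 : ∑ i ∈ I, (E i).indicator (1 : Ω → ℝ≥0∞) x = (J.card : ℝ≥0∞) := by
    rw [hJ, Finset.card_filter, Nat.cast_sum]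
    refine Finset.sum_congr rfl fun i _ => ?_
    by_cases hx : x ∈ E i <;> simp [hx]
  rw [h1]
  have hfibJ : Fib k J M := hfib.mono (Finset.filter_subset _ _)
  refine (nested a ha M d k J hfibJ).trans ?_
  gcongr
  rw [hJ, Finset.sum_filter]
  refine Finset.sum_le_sum fun i hi => ?_
  by_cases hx : x ∈ E i
  · simp only [hx, if_true, Set.indicator_of_mem]
    refine Finset.prod_le_prod' fun j _ => ?_
    refine ENNReal.rpow_le_rpow ?_ ha
    have h2 : ∑ κ ∈ ch k I i j, (nodeU k I E i j κ).indicator (1 : Ω → ℝ≥0∞) x =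
        (((ch k I i j).filter (fun κ => x ∈ nodeU k I E i j κ)).card : ℝ≥0∞) := by
      rw [Finset.card_filter, Nat.cast_sum]
      refine Finset.sum_congr rfl fun κ _ => ?_
      by_cases hx : x ∈ nodeU k I E i j κ <;> simp [hx]
    rw [h2]
    have hsub : ch k (I.filter (fun i => x ∈ E i)) i j ⊆
        (ch k I i j).filter (fun κ => x ∈ nodeU k I E i j κ) := by
      intro κ hκ
      unfold ch sib at hκ
      rw [Finset.mem_image] at hκ
      obtain ⟨i', hi', rfl⟩ := hκ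
      rw [Finset.mem_filter, Finset.mem_filter] at hi'
      rw [Finset.mem_filter]
      have hmem : i' ∈ sib k I i j := by
        unfold sib
        rw [Finset.mem_filter]
        exact ⟨hi'.1.1, hi'.2⟩
      refine ⟨Finset.mem_image_of_mem _ hmem, ?_⟩
      unfold nodeU
      simp only [Set.mem_iUnion, Finset.mem_filter, exists_prop]
      exact ⟨i', ⟨hmem, rfl⟩, hi'.1.2⟩
    exact_mod_cast Finset.card_le_card hsub
  · simp [hx]

lemma regular {ι Ω : Type*} [MeasurableSpace Ω] (ν : Measure Ω) {d : ℕ} (k : ι → Fin d → ℤ)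
    (I : Finset ι) (M : ℕ) (hfib : Fib k I M) (E : ι → Set Ω) (hE : ∀ i, MeasurableSet (E i))
    (w : ℝ≥0∞) (a : ℝ) (ha : 0 < a) (θ : Fin d → ℝ) (hθ : ∑ j, θ j = 1) (hθ0 : ∀ j, 0 < θ j)
    (hθa : ∀ j, θ j < a)
    (h : ∀ i ∈ I, ∀ j, ∀ κ, ν (E i ∩ nodeU k I E i j κ) ≤
      w * ENNReal.ofReal ((max 1 |((κ - k i j : ℤ) : ℝ)|)⁻¹)) :
    ∫⁻ x, (∑ i ∈ I, (E i).indicator (1 : Ω → ℝ≥0∞) x) ^ (1 + a) ∂ν ≤
      (M : ℝ≥0∞) ^ a * ∑ i ∈ I, w * ∏ j, (ENNReal.ofReal (3 + 2 / (1 - θ j / a)) ^ a *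
        ((ch k I i j).card : ℝ≥0∞) ^ (a - θ j)) := by
  classical
  have hG : ∀ i j, Measurable (fun x => ∑ κ ∈ ch k I i j,
      (nodeU k I E i j κ).indicator (1 : Ω → ℝ≥0∞) x) := fun i j =>
    Finset.measurable_fun_sum _ fun κ _ =>
      measurable_one.indicator (measurableSet_nodeU k I E hE i j κ)
  have hprod : ∀ i, Measurable (fun x => ∏ j, (∑ κ ∈ ch k I i j,
      (nodeU k I E i j κ).indicator (1 : Ω → ℝ≥0∞) x) ^ a) := fun i =>
    Finset.measurable_fun_prod _ fun j _ => (hG i j).pow_const a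
  calc ∫⁻ x, (∑ i ∈ I, (E i).indicator (1 : Ω → ℝ≥0∞) x) ^ (1 + a) ∂ν
      ≤ ∫⁻ x, (M : ℝ≥0∞) ^ a * ∑ i ∈ I, (E i).indicator (fun x => ∏ j, (∑ κ ∈ ch k I i j,
        (nodeU k I E i j κ).indicator (1 : Ω → ℝ≥0∞) x) ^ a) x ∂ν :=
        lintegral_mono fun x => pointwise k I M hfib E a ha.le x
    _ = (M : ℝ≥0∞) ^ a * ∑ i ∈ I, ∫⁻ x in E i, ∏ j, (∑ κ ∈ ch k I i j,
        (nodeU k I E i j κ).indicator (1 : Ω → ℝ≥0∞) x) ^ a ∂ν := by
        rw [lintegral_const_mul _ (Finset.measurable_fun_sum _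
          fun i _ => (hprod i).indicator (hE i)),
          lintegral_finsetSum _ fun i _ => (hprod i).indicator (hE i)]
        congr 1
        refine Finset.sum_congr rfl fun i _ => ?_
        rw [lintegral_indicator (hE i)]
    _ ≤ _ := by
        gcongr with i hi
        have h1 : ∀ x, ∏ j, (∑ κ ∈ ch k I i j,
            (nodeU k I E i j κ).indicator (1 : Ω → ℝ≥0∞) x) ^ a =
            ∏ j, ((∑ κ ∈ ch k I i j,
            (nodeU k I E i j κ).indicator (1 : Ω → ℝ≥0∞) x) ^ (a / θ j)) ^ (θ j) := by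
          intro x
          refine Finset.prod_congr rfl fun j _ => ?_
          rw [← ENNReal.rpow_mul, div_mul_cancel₀ _ (hθ0 j).ne']
        simp_rw [h1]
        refine (ENNReal.lintegral_prod_norm_pow_le Finset.univ
          (fun j _ => ((hG i j).pow_const _).aemeasurable) hθ (fun j _ => (hθ0 j).le)).trans ?_
        have h2 : ∀ j, (∫⁻ x in E i, (∑ κ ∈ ch k I i j,
            (nodeU k I E i j κ).indicator (1 : Ω → ℝ≥0∞) x) ^ (a / θ j) ∂ν) ^ (θ j) ≤
            w ^ (θ j) * (ENNReal.ofReal (3 + 2 / (1 - θ j / a)) ^ a *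
              ((ch k I i j).card : ℝ≥0∞) ^ (a - θ j)) := by
          intro j
          have hs : 1 < a / θ j := by
            rw [lt_div_iff₀ (hθ0 j), one_mul]; exact hθa j
          have hK : (ch k I i j).Nonempty := by
            refine ⟨k i j, Finset.mem_image_of_mem _ ?_⟩
            unfold sib
            rw [Finset.mem_filter]
            exact ⟨hi, fun l _ => rfl⟩
          have h3 := level (ν.restrict (E i)) (ch k I i j) hK (nodeU k I E i j)
            (measurableSet_nodeU k I E hE i j) (k i j) w (a / θ j) hs (fun κ _ => by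
              rw [Measure.restrict_apply (measurableSet_nodeU k I E hE i j κ), Set.inter_comm]
              exact h i hi j κ)
          refine (ENNReal.rpow_le_rpow h3 (hθ0 j).le).trans (le_of_eq ?_)
          rw [ENNReal.mul_rpow_of_nonneg _ _ (hθ0 j).le, ENNReal.mul_rpow_of_nonneg _ _ (hθ0 j).le,
            ← ENNReal.rpow_mul, ← ENNReal.rpow_mul, div_mul_cancel₀ _ (hθ0 j).ne', one_div_div]
          have h4 : (a / θ j - 1) * θ j = a - θ j := by
            have := (hθ0 j).ne'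
            field_simp
          rw [h4]
          ring
        refine (Finset.prod_le_prod' fun j _ => h2 j).trans (le_of_eq ?_)
        rw [Finset.prod_mul_distrib, prod_rpow_sum w θ (fun j => (hθ0 j).le), hθ, ENNReal.rpow_one]


/-- Number of indices of `I` sharing with `i` all labels of level `< j`. -/
def cnt {ι : Type*} {d : ℕ} (k : ι → Fin d → ℤ) (I : Finset ι) (i : ι) (j : ℕ) : ℕ :=
  (I.filter (fun i' => ∀ l : Fin d, (l : ℕ) < j → k i' l = k i l)).card

/-- The dyadic type of `i`. -/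
def ty {ι : Type*} {d : ℕ} (k : ι → Fin d → ℤ) (I : Finset ι) (i : ι) (j : Fin d) : ℕ :=
  Nat.log 2 (cnt k I i j / cnt k I i (j + 1))

lemma cnt_zero {ι : Type*} {d : ℕ} (k : ι → Fin d → ℤ) (I : Finset ι) (i : ι) :
    cnt k I i 0 = I.card := by
  unfold cnt
  congr 1
  apply Finset.filter_true_of_mem
  intro i' _ l hl
  omega

lemma cnt_pos {ι : Type*} {d : ℕ} (k : ι → Fin d → ℤ) (I : Finset ι) {i : ι} (hi : i ∈ I)
    (j : ℕ) : 0 < cnt k I i j := by
  unfold cnt
  rw [Finset.card_pos]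
  exact ⟨i, by simp [hi]⟩

lemma cnt_anti {ι : Type*} {d : ℕ} (k : ι → Fin d → ℤ) (I : Finset ι) (i : ι)
    (j : ℕ) : cnt k I i (j + 1) ≤ cnt k I i j := by
  unfold cnt
  apply Finset.card_le_card
  intro i' hi'
  simp only [Finset.mem_filter] at hi' ⊢
  exact ⟨hi'.1, fun l hl => hi'.2 l (by omega)⟩

lemma cnt_last {ι : Type*} {d : ℕ} (k : ι → Fin d → ℤ) (I : Finset ι) {M : ℕ}
    (hfib : Fib k I M) {i : ι} (hi : i ∈ I) : cnt k I i d ≤ M := by
  refine le_trans (le_of_eq ?_) (hfib i hi)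
  unfold cnt
  congr 1
  ext i'
  simp only [Finset.mem_filter, and_congr_right_iff]
  intro _
  constructor
  · intro h2
    exact funext fun l => h2 l l.2
  · intro h l _
    rw [h]

lemma cnt_congr {ι : Type*} {d : ℕ} (k : ι → Fin d → ℤ) (I : Finset ι) {i i' : ι} {j : ℕ}
    (h : ∀ l : Fin d, (l : ℕ) < j → k i' l = k i l) : cnt k I i' j = cnt k I i j := by
  unfold cnt
  congr 1
  ext x
  simp only [Finset.mem_filter, and_congr_right_iff]
  intro _
  constructor
  · intro h1 l hl; rw [h1 l hl, h l hl]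
  · intro h1 l hl; rw [h1 l hl, h l hl]

lemma two_pow_ty_le {ι : Type*} {d : ℕ} (k : ι → Fin d → ℤ) (I : Finset ι) {i : ι} (hi : i ∈ I)
    (j : Fin d) : 2 ^ ty k I i j * cnt k I i (j + 1) ≤ cnt k I i j := by
  have h1 : cnt k I i j / cnt k I i (j + 1) ≠ 0 := by
    have := Nat.div_pos (cnt_anti k I i j) (cnt_pos k I hi (j + 1))
    omega
  have h2 := Nat.pow_log_le_self 2 h1
  unfold ty
  calc 2 ^ Nat.log 2 (cnt k I i j / cnt k I i (j + 1)) * cnt k I i (j + 1)
      ≤ (cnt k I i j / cnt k I i (j + 1)) * cnt k I i (j + 1) := Nat.mul_le_mul_right _ h2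
    _ ≤ cnt k I i j := Nat.div_mul_le_self _ _

lemma le_two_pow_ty {ι : Type*} {d : ℕ} (k : ι → Fin d → ℤ) (I : Finset ι) {i : ι} (hi : i ∈ I)
    (j : Fin d) : cnt k I i j < 2 ^ (ty k I i j + 1) * cnt k I i (j + 1) := by
  unfold ty
  have h2 := Nat.lt_pow_succ_log_self (b := 2) (by norm_num) (cnt k I i j / cnt k I i (j + 1))
  rwa [Nat.div_lt_iff_lt_mul (cnt_pos k I hi (j + 1))] at h2

lemma sum_ty {ι : Type*} {d : ℕ} (k : ι → Fin d → ℤ) (I : Finset ι) {M : ℕ}
    (hfib : Fib k I M) {i : ι} (hi : i ∈ I) : 2 ^ (∑ j, ty k I i j) ≤ I.card ∧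
      I.card ≤ 2 ^ (∑ j, (ty k I i j + 1)) * M := by
  have key : ∀ m : ℕ, ∀ hm : m ≤ d,
      2 ^ (∑ j : Fin m, ty k I i (Fin.castLE hm j)) * cnt k I i m ≤ I.card ∧
      I.card ≤ 2 ^ (∑ j : Fin m, (ty k I i (Fin.castLE hm j) + 1)) * cnt k I i m := by
    intro m
    induction m with
    | zero =>
      intro hm
      simp [cnt_zero]
    | succ m ih =>
      intro hm
      have ih' := ih (by omega)
      have h1 := two_pow_ty_le k I hi ⟨m, by omega⟩
      have h2 := (le_two_pow_ty k I hi ⟨m, by omega⟩).le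
      simp only [Fin.sum_univ_castSucc]
      have e1 : ∀ j : Fin m, Fin.castLE hm (Fin.castSucc j) = Fin.castLE (by omega) j :=
        fun j => rfl
      have e2 : Fin.castLE hm (Fin.last m) = ⟨m, by omega⟩ := rfl
      simp only [e1, e2]
      constructor
      · rw [pow_add, mul_assoc]
        exact le_trans (Nat.mul_le_mul_left _ h1) ih'.1
      · rw [pow_add, mul_assoc]
        exact le_trans ih'.2 (Nat.mul_le_mul_left _ h2)
  have h := key d le_rfl
  have hpos := cnt_pos k I hi d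
  constructor
  · refine le_trans ?_ h.1
    exact Nat.le_mul_of_pos_right _ hpos
  · exact h.2.trans (Nat.mul_le_mul_left _ (cnt_last k I hfib hi))

lemma card_ch_le {ι : Type*} {d : ℕ} (k : ι → Fin d → ℤ) (I : Finset ι) (t : Fin d → ℕ)
    {i : ι} (hi : i ∈ I) (j : Fin d) :
    (ch k (I.filter (fun i => ty k I i = t)) i j).card ≤ 2 ^ (t j + 1) := by
  classical
  set J := I.filter (fun i => ty k I i = t) with hJ
  have hD := cnt_pos k I hi j
  -- for each child pick its count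
  have h1 : ∀ κ ∈ ch k J i j, cnt k I i j ≤ 2 ^ (t j + 1) *
      ((I.filter (fun i' => ∀ l : Fin d, (l : ℕ) < j → k i' l = k i l)).filter
        (fun i' => k i' j = κ)).card := by
    intro κ hκ
    unfold ch sib at hκ
    rw [Finset.mem_image] at hκ
    obtain ⟨i', hi', rfl⟩ := hκ
    rw [Finset.mem_filter, hJ, Finset.mem_filter] at hi'
    obtain ⟨⟨hi'I, hty⟩, hpre⟩ := hi'
    have h2 := (le_two_pow_ty k I hi'I j).le
    rw [congrFun hty j] at h2
    have h3 : cnt k I i' j = cnt k I i j := cnt_congr k I (fun l hl => hpre l hl)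
    rw [h3] at h2
    refine h2.trans (Nat.mul_le_mul_left _ (le_of_eq ?_))
    unfold cnt
    congr 1
    ext x
    simp only [Finset.mem_filter]
    constructor
    · rintro ⟨hx1, hx2⟩
      refine ⟨⟨hx1, fun l hl => ?_⟩, hx2 j (by omega)⟩
      rw [hx2 l (by omega), hpre l hl]
    · rintro ⟨⟨hx1, hx2⟩, hx3⟩
      refine ⟨hx1, fun l hl => ?_⟩
      rcases Nat.lt_or_ge (l : ℕ) (j : ℕ) with h | h
      · rw [hx2 l h, hpre l h]
      · have : l = j := Fin.ext (by omega)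
        rw [this, hx3]
  have h4 : ∑ κ ∈ ch k J i j, ((I.filter (fun i' => ∀ l : Fin d, (l : ℕ) < j →
      k i' l = k i l)).filter (fun i' => k i' j = κ)).card ≤ cnt k I i j := by
    unfold cnt
    rw [← Finset.card_biUnion]
    · apply Finset.card_le_card
      intro x hx
      rw [Finset.mem_biUnion] at hx
      obtain ⟨κ, _, hx⟩ := hx
      exact (Finset.mem_filter.mp hx).1
    · intro κ _ κ' _ hne
      rw [Function.onFun, Finset.disjoint_left]
      intro x hx hx'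
      rw [Finset.mem_filter] at hx hx'
      exact hne (hx.2.symm.trans hx'.2)
  have h5 : (ch k J i j).card * cnt k I i j ≤ 2 ^ (t j + 1) * cnt k I i j := by
    calc (ch k J i j).card * cnt k I i j = ∑ κ ∈ ch k J i j, cnt k I i j := by
          rw [Finset.sum_const, smul_eq_mul]
      _ ≤ ∑ κ ∈ ch k J i j, 2 ^ (t j + 1) * ((I.filter (fun i' => ∀ l : Fin d, (l : ℕ) < j →
            k i' l = k i l)).filter (fun i' => k i' j = κ)).card := Finset.sum_le_sum h1
      _ = 2 ^ (t j + 1) * ∑ κ ∈ ch k J i j, ((I.filter (fun i' => ∀ l : Fin d, (l : ℕ) < j →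
            k i' l = k i l)).filter (fun i' => k i' j = κ)).card := by rw [Finset.mul_sum]
      _ ≤ 2 ^ (t j + 1) * cnt k I i j := Nat.mul_le_mul_left _ h4
  exact Nat.le_of_mul_le_mul_right h5 hD

lemma geom_two_sided (ρ : ℝ) (hρ0 : 0 < ρ) (hρ1 : ρ < 1) (c : ℝ) (hc : 0 ≤ c) (B : ℕ) :
    ∑ l ∈ Finset.range B, ρ ^ |(l : ℝ) - c| ≤ 2 / (1 - ρ) := by
  set m : ℕ := ⌊c⌋₊ with hm
  have hm1 : (m : ℝ) ≤ c := Nat.floor_le hc
  have hm2 : c < m + 1 := Nat.lt_floor_add_one c
  have hgeo : ∀ s : Finset ℕ, ∑ n ∈ s, ρ ^ n ≤ 1 / (1 - ρ) := by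
    intro s
    have hsum := summable_geometric_of_lt_one hρ0.le hρ1
    refine (hsum.sum_le_tsum s (fun n _ => by positivity)).trans (le_of_eq ?_)
    rw [tsum_geometric_of_lt_one hρ0.le hρ1, one_div]
  rw [← Finset.sum_filter_add_sum_filter_not (Finset.range B) (fun l => l ≤ m)]
  have h1 : ∑ l ∈ (Finset.range B).filter (fun l => l ≤ m), ρ ^ |(l : ℝ) - c| ≤ 1 / (1 - ρ) := by
    calc _ ≤ ∑ l ∈ (Finset.range B).filter (fun l => l ≤ m), ρ ^ (m - l) := by
          refine Finset.sum_le_sum fun l hl => ?_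
          rw [Finset.mem_filter] at hl
          rw [← Real.rpow_natCast ρ (m - l)]
          apply Real.rpow_le_rpow_of_exponent_ge hρ0 hρ1.le
          rw [Nat.cast_sub hl.2, abs_sub_comm]
          refine le_trans ?_ (le_abs_self _)
          linarith
      _ = ∑ n ∈ ((Finset.range B).filter (fun l => l ≤ m)).image (fun l => m - l), ρ ^ n := by
          rw [Finset.sum_image]
          intro x hx y hy hxy
          simp only [Finset.coe_filter, Finset.mem_range, Set.mem_ofPred_eq] at hx hy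
          simp only at hxy
          omega
      _ ≤ 1 / (1 - ρ) := hgeo _
  have h2 : ∑ l ∈ (Finset.range B).filter (fun l => ¬ l ≤ m), ρ ^ |(l : ℝ) - c| ≤
      1 / (1 - ρ) := by
    calc _ ≤ ∑ l ∈ (Finset.range B).filter (fun l => ¬ l ≤ m), ρ ^ (l - (m + 1)) := by
          refine Finset.sum_le_sum fun l hl => ?_
          rw [Finset.mem_filter] at hl
          rw [← Real.rpow_natCast ρ (l - (m + 1))]
          apply Real.rpow_le_rpow_of_exponent_ge hρ0 hρ1.le
          rw [Nat.cast_sub (by omega)]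
          refine le_trans ?_ (le_abs_self _)
          push_cast
          linarith
      _ = ∑ n ∈ ((Finset.range B).filter (fun l => ¬ l ≤ m)).image (fun l => l - (m + 1)),
            ρ ^ n := by
          rw [Finset.sum_image]
          intro x hx y hy hxy
          simp only [Finset.coe_filter, Finset.mem_range, Set.mem_ofPred_eq] at hx hy
          simp only at hxy
          omega
      _ ≤ 1 / (1 - ρ) := hgeo _
  calc _ ≤ 1 / (1 - ρ) + 1 / (1 - ρ) := add_le_add h1 h2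
    _ = 2 / (1 - ρ) := by ring


universe u v

/-- The combinatorial exponent computation. -/
lemma exponent_bound (d : ℕ) (hd : 0 < d) (D : ℝ) (hD : 0 ≤ D)
    (a ε L : ℝ) (ha : 1 / (d : ℝ) < a) (hε : 0 < ε)
    (t : Fin d → ℕ) (hT1 : ((∑ j, t j : ℕ) : ℝ) ≤ L) (hT2 : L ≤ ((∑ j, t j : ℕ) : ℝ) + D) :
    ∃ θ : Fin d → ℝ, (∑ j, θ j = 1) ∧ (∀ j, 1 / (d : ℝ) - 2 * ε ≤ θ j) ∧
      (∀ j, θ j ≤ 1 / (d : ℝ) + 2 * ε) ∧
      ∑ j, ((t j : ℝ) + 1) * (a - θ j) ≤
        (a * d - 1 + ε * D) + (a - 1 / d) * L - ε * ∑ j, |(t j : ℝ) - L / d| := by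
  classical
  have hd' : (0 : ℝ) < d := by exact_mod_cast hd
  set σ : Fin d → ℝ := fun j => if L / d ≤ t j then 1 else -1 with hσ
  have hσabs : ∀ j, |σ j| ≤ 1 := by
    intro j
    simp only [hσ]
    split_ifs <;> simp
  set σb : ℝ := (∑ j, σ j) / d with hσb
  have hσbabs : |σb| ≤ 1 := by
    rw [hσb, abs_div, abs_of_pos hd', div_le_one hd']
    calc |∑ j, σ j| ≤ ∑ j, |σ j| := Finset.abs_sum_le_sum_abs _ _
      _ ≤ ∑ _j : Fin d, (1 : ℝ) := Finset.sum_le_sum fun j _ => hσabs j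
      _ = d := by simp
  have hsum0 : ∑ j, (σ j - σb) = 0 := by
    rw [Finset.sum_sub_distrib]
    simp only [Finset.sum_const, Finset.card_univ, Fintype.card_fin, nsmul_eq_mul, hσb]
    field_simp
    ring
  refine ⟨fun j => 1 / d + ε * (σ j - σb), ?_, ?_, ?_, ?_⟩
  · rw [Finset.sum_add_distrib, ← Finset.mul_sum, hsum0]
    simp
    field_simp
  · intro j
    have h1 := abs_le.mp (hσabs j)
    have h2 := abs_le.mp hσbabs
    nlinarith [h1.1, h2.2]
  · intro j
    have h1 := abs_le.mp (hσabs j)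
    have h2 := abs_le.mp hσbabs
    nlinarith [h1.2, h2.1]
  · have hcast : ((∑ j, t j : ℕ) : ℝ) = ∑ j, (t j : ℝ) := by push_cast; rfl
    rw [hcast] at hT1 hT2
    have habs : ∀ j, σ j * ((t j : ℝ) - L / d) = |(t j : ℝ) - L / d| := by
      intro j
      simp only [hσ]
      split_ifs with h
      · rw [abs_of_nonneg (by linarith), one_mul]
      · rw [abs_of_neg (by linarith)]; ring
    have hsumt : ∑ j, ((t j : ℝ) - L / d) = (∑ j, (t j : ℝ)) - L := by
      rw [Finset.sum_sub_distrib]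
      simp
      field_simp
    have h3 : ∑ j, (t j : ℝ) * (σ j - σb) =
        ∑ j, |(t j : ℝ) - L / d| - σb * ((∑ j, (t j : ℝ)) - L) := by
      have e1 : ∑ j, (t j : ℝ) * (σ j - σb) =
          ∑ j, (σ j * ((t j : ℝ) - L / d) - σb * ((t j : ℝ) - L / d) + (L / d) * (σ j - σb)) := by
        refine Finset.sum_congr rfl fun j _ => ?_
        ring
      rw [e1, Finset.sum_add_distrib, Finset.sum_sub_distrib, ← Finset.mul_sum, ← Finset.mul_sum,
        hsum0, mul_zero, add_zero, hsumt, Finset.sum_congr rfl fun j _ => habs j]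
    have h4 : ∑ j, ((t j : ℝ) + 1) * (a - (1 / d + ε * (σ j - σb))) =
        (a * d - 1) + (a - 1 / d) * (∑ j, (t j : ℝ)) - ε * ∑ j, (t j : ℝ) * (σ j - σb) := by
      have e1 : ∀ j, ((t j : ℝ) + 1) * (a - (1 / d + ε * (σ j - σb))) =
          (a - 1 / d) + (a - 1 / d) * (t j : ℝ) - ε * ((t j : ℝ) * (σ j - σb)) -
            ε * (σ j - σb) := by
        intro j; ring
      rw [Finset.sum_congr rfl fun j _ => e1 j, Finset.sum_sub_distrib, Finset.sum_sub_distrib,
        Finset.sum_add_distrib, ← Finset.mul_sum, ← Finset.mul_sum, ← Finset.mul_sum, hsum0,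
        mul_zero, sub_zero]
      simp only [Finset.sum_const, Finset.card_univ, Fintype.card_fin, nsmul_eq_mul]
      have : (d : ℝ) * (a - 1 / d) = a * d - 1 := by field_simp
      rw [this]
    rw [h4, h3]
    have h5 : σb * ((∑ j, (t j : ℝ)) - L) ≤ D := by
      have h6 : |σb * ((∑ j, (t j : ℝ)) - L)| ≤ 1 * D := by
        rw [abs_mul]
        apply mul_le_mul hσbabs _ (abs_nonneg _) zero_le_one
        rw [abs_le]
        constructor <;> linarith
      linarith [(abs_le.mp h6).2]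
    have h7 : (a - 1 / d) * (∑ j, (t j : ℝ)) ≤ (a - 1 / d) * L :=
      mul_le_mul_of_nonneg_left hT1 (by linarith)
    nlinarith

/-- **Abstract tree estimate.** -/
theorem tree_bound (d : ℕ) (hd : 0 < d) (M : ℕ) (hM1 : 1 ≤ M) (a : ℝ) (ha : 1 / (d : ℝ) < a) :
    ∃ C : ℝ, 0 < C ∧ ∀ (ι : Type u) (Ω : Type v) [MeasurableSpace Ω] (ν : Measure Ω)
      (k : ι → Fin d → ℤ) (I : Finset ι), Fib k I M →
      ∀ (E : ι → Set Ω), (∀ i, MeasurableSet (E i)) → ∀ w : ℝ≥0∞,
      (∀ i ∈ I, ∀ j, ∀ κ, ν (E i ∩ nodeU k I E i j κ) ≤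
        w * ENNReal.ofReal ((max 1 |((κ - k i j : ℤ) : ℝ)|)⁻¹)) →
      ∫⁻ x, (∑ i ∈ I, (E i).indicator (1 : Ω → ℝ≥0∞) x) ^ (1 + a) ∂ν ≤
        ENNReal.ofReal C * w * (I.card : ℝ≥0∞) ^ (1 + a - 1 / (d : ℝ)) := by
  classical
  have hd' : (0 : ℝ) < d := by exact_mod_cast hd
  have hd1 : 0 < 1 / (d : ℝ) := by positivity
  have ha0 : 0 < a := hd1.trans ha
  set q : ℝ := 1 + a with hq
  have hq1 : 1 ≤ q := by linarith
  have hq0 : 0 < q := by linarith
  set ε : ℝ := min (1 / (d : ℝ)) (a - 1 / d) / 4 with hε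
  have hε0 : 0 < ε := by
    have : 0 < min (1 / (d : ℝ)) (a - 1 / d) := lt_min hd1 (by linarith)
    positivity
  have hε1 : 2 * ε < 1 / (d : ℝ) := by
    have : min (1 / (d : ℝ)) (a - 1 / d) ≤ 1 / d := min_le_left _ _
    linarith
  have hε2 : 1 / (d : ℝ) + 2 * ε < a := by
    have : min (1 / (d : ℝ)) (a - 1 / d) ≤ a - 1 / d := min_le_right _ _
    linarith
  set θm : ℝ := 1 / (d : ℝ) + 2 * ε with hθm
  have hθm1 : θm / a < 1 := by rw [div_lt_one ha0]; exact hε2
  set c₀ : ℝ := 3 + 2 / (1 - θm / a) with hc₀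
  have hc₀pos : 0 < c₀ := by
    have : 0 < 1 - θm / a := by linarith
    positivity
  set ρ : ℝ := (2 : ℝ) ^ (-(ε / q)) with hρ
  have hρ0 : 0 < ρ := Real.rpow_pos_of_pos two_pos _
  have hρ1 : ρ < 1 := by
    apply Real.rpow_lt_one_of_one_lt_of_neg one_lt_two
    have : 0 < ε / q := by positivity
    linarith
  have hMr : (1 : ℝ) ≤ M := by exact_mod_cast hM1
  have hMpos : (0 : ℝ) < M := by linarith
  set D : ℝ := d + Real.logb 2 M with hD
  have hD0 : 0 ≤ D := by
    have := Real.logb_nonneg one_lt_two hMr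
    linarith
  set B₀ : ℝ := (M : ℝ) ^ a * (c₀ ^ (a * d) * 2 ^ (a * d - 1 + ε * D)) with hB₀
  have hB₀pos : 0 < B₀ := by positivity
  set G : ℝ := 2 / (1 - ρ) with hG
  have hGpos : 0 < G := by
    have : 0 < 1 - ρ := by linarith
    positivity
  refine ⟨B₀ * (G ^ d) ^ q, by positivity, ?_⟩
  intro ι Ω _ ν k I hfib E hE w h
  rcases I.eq_empty_or_nonempty with hI | hI
  · subst hI
    simp [hq0]
  set N : ℕ := I.card with hN
  have hN1 : 1 ≤ N := Finset.card_pos.mpr hI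
  have hNr : (1 : ℝ) ≤ N := by exact_mod_cast hN1
  have hNpos : (0 : ℝ) < N := by linarith
  set L : ℝ := Real.logb 2 N with hL
  have hL0 : 0 ≤ L := Real.logb_nonneg one_lt_two hNr
  have h2L : (2 : ℝ) ^ L = N := Real.rpow_logb two_pos (by norm_num) hNpos
  set TT : Finset (Fin d → ℕ) := Fintype.piFinset (fun _ => Finset.range (N + 1)) with hTT
  have hmaps : ∀ i ∈ I, ty k I i ∈ TT := by
    intro i hi
    rw [hTT, Fintype.mem_piFinset]
    intro j
    rw [Finset.mem_range]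
    have h1 := (sum_ty k I hfib hi).1
    have h2 : ty k I i j ≤ ∑ j, ty k I i j :=
      Finset.single_le_sum (f := fun j => ty k I i j) (fun _ _ => Nat.zero_le _)
        (Finset.mem_univ j)
    have h3 : (∑ j, ty k I i j) < 2 ^ (∑ j, ty k I i j) := Nat.lt_two_pow_self
    omega
  have hM : ∀ x, ∑ i ∈ I, (E i).indicator (1 : Ω → ℝ≥0∞) x =
      ∑ t ∈ TT, ∑ i ∈ I.filter (fun i => ty k I i = t), (E i).indicator (1 : Ω → ℝ≥0∞) x := by
    intro x
    exact (Finset.sum_fiberwise_of_maps_to hmaps _).symm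
  -- the estimate for a single type
  have htype : ∀ t ∈ TT, (∫⁻ x, (∑ i ∈ I.filter (fun i => ty k I i = t),
      (E i).indicator (1 : Ω → ℝ≥0∞) x) ^ q ∂ν) ^ (1 / q) ≤
      w ^ (1 / q) * ENNReal.ofReal ((B₀ * (N : ℝ) ^ (1 + a - 1 / (d : ℝ))) ^ (1 / q) *
        ∏ j, ρ ^ |(t j : ℝ) - L / d|) := by
    intro t _
    set J := I.filter (fun i => ty k I i = t) with hJ
    rcases J.eq_empty_or_nonempty with hJe | ⟨i₀, hi₀⟩
    · rw [hJe]
      simp [hq0]
    have hi₀' := Finset.mem_filter.mp hi₀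
    have hsum := sum_ty k I hfib hi₀'.1
    rw [hi₀'.2] at hsum
    have hT1 : ((∑ j, t j : ℕ) : ℝ) ≤ L := by
      rw [hL, Real.le_logb_iff_rpow_le one_lt_two hNpos, Real.rpow_natCast]
      exact_mod_cast hsum.1
    have hT2 : L ≤ ((∑ j, t j : ℕ) : ℝ) + D := by
      rw [hL, Real.logb_le_iff_le_rpow one_lt_two hNpos]
      have h1 : ((∑ j, t j : ℕ) : ℝ) + D = ((∑ j, (t j + 1) : ℕ) : ℝ) + Real.logb 2 M := by
        rw [Finset.sum_add_distrib, hD]
        push_cast
        simp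
        ring
      rw [h1, Real.rpow_add two_pos, Real.rpow_natCast,
        Real.rpow_logb two_pos (by norm_num) hMpos]
      exact_mod_cast hsum.2
    obtain ⟨θ, hθ1, hθl, hθu, hθX⟩ := exponent_bound d hd D hD0 a ε L ha hε0 t hT1 hT2
    have hθ0 : ∀ j, 0 < θ j := fun j => by have := hθl j; linarith
    have hθa : ∀ j, θ j < a := fun j => lt_of_le_of_lt (hθu j) hε2
    have hfibJ : Fib k J M := hfib.mono (Finset.filter_subset _ _)
    have hw' : ∀ i ∈ J, ∀ j, ∀ κ, ν (E i ∩ nodeU k J E i j κ) ≤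
        w * ENNReal.ofReal ((max 1 |((κ - k i j : ℤ) : ℝ)|)⁻¹) := by
      intro i hi j κ
      refine le_trans (measure_mono ?_) (h i (Finset.mem_filter.mp hi).1 j κ)
      apply Set.inter_subset_inter_right
      unfold nodeU sib
      apply Set.biUnion_mono
      · intro x hx
        simp only [Finset.coe_filter, Finset.mem_filter, Set.mem_ofPred_eq, hJ] at hx ⊢
        exact ⟨⟨hx.1.1.1, hx.1.2⟩, hx.2⟩
      · intro _ _
        exact le_rfl
    have hreg := regular ν k J M hfibJ E hE w a ha0 θ hθ1 hθ0 hθa hw'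
    set X : ℝ := (a * d - 1 + ε * D) + (a - 1 / d) * L - ε * ∑ j, |(t j : ℝ) - L / d| with hX
    have hfac : ∀ i ∈ J, w * ∏ j, (ENNReal.ofReal (3 + 2 / (1 - θ j / a)) ^ a *
        ((ch k J i j).card : ℝ≥0∞) ^ (a - θ j)) ≤ w * ENNReal.ofReal (c₀ ^ (a * d) * 2 ^ X) := by
      intro i hi
      gcongr
      have h1 : ∀ j ∈ (Finset.univ : Finset (Fin d)),
          ENNReal.ofReal (3 + 2 / (1 - θ j / a)) ^ a *
          ((ch k J i j).card : ℝ≥0∞) ^ (a - θ j) ≤
          ENNReal.ofReal (c₀ ^ a * 2 ^ (((t j : ℝ) + 1) * (a - θ j))) := by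
        intro j _
        have hpos1 : 0 < 1 - θm / a := by linarith
        have hle : 1 - θm / a ≤ 1 - θ j / a := by
          have : θ j / a ≤ θm / a := div_le_div_of_nonneg_right (hθu j) ha0.le
          linarith
        have h2 : 3 + 2 / (1 - θ j / a) ≤ c₀ := by
          rw [hc₀]
          have : 2 / (1 - θ j / a) ≤ 2 / (1 - θm / a) :=
            div_le_div_of_nonneg_left (by norm_num) hpos1 hle
          linarith
        rw [ENNReal.ofReal_mul (by positivity), ← ENNReal.ofReal_rpow_of_pos hc₀pos]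
        have h3 : ((ch k J i j).card : ℝ≥0∞) ≤ ENNReal.ofReal (2 ^ ((t j : ℝ) + 1)) := by
          have h4 := card_ch_le k I t (Finset.mem_filter.mp hi).1 j
          rw [← hJ] at h4
          rw [← ENNReal.ofReal_natCast]
          apply ENNReal.ofReal_le_ofReal
          have h5 : (2 : ℝ) ^ ((t j : ℝ) + 1) = ((2 ^ (t j + 1) : ℕ) : ℝ) := by
            rw [show ((t j : ℝ) + 1) = ((t j + 1 : ℕ) : ℝ) by push_cast; ring, Real.rpow_natCast]
            push_cast
            rfl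
          rw [h5]
          exact_mod_cast h4
        have h6 : ((ch k J i j).card : ℝ≥0∞) ^ (a - θ j) ≤
            ENNReal.ofReal (2 ^ (((t j : ℝ) + 1) * (a - θ j))) := by
          refine (ENNReal.rpow_le_rpow h3 (by linarith [hθa j])).trans (le_of_eq ?_)
          rw [ENNReal.ofReal_rpow_of_pos (by positivity), ← Real.rpow_mul two_pos.le]
        exact mul_le_mul' (ENNReal.rpow_le_rpow (ENNReal.ofReal_le_ofReal h2) ha0.le) h6
      refine (Finset.prod_le_prod' h1).trans ?_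
      rw [← ENNReal.ofReal_prod_of_nonneg (fun j _ => by positivity)]
      apply ENNReal.ofReal_le_ofReal
      rw [Finset.prod_mul_distrib, Finset.prod_const, Finset.card_univ, Fintype.card_fin,
        ← Real.rpow_natCast, ← Real.rpow_mul hc₀pos.le, ← Real.rpow_sum_of_pos two_pos]
      gcongr
      · exact one_le_two
    have h8 : ∫⁻ x, (∑ i ∈ J, (E i).indicator (1 : Ω → ℝ≥0∞) x) ^ q ∂ν ≤
        w * ENNReal.ofReal ((N : ℝ) * ((M : ℝ) ^ a * (c₀ ^ (a * d) * 2 ^ X))) := by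
      refine hreg.trans ((mul_le_mul_right (Finset.sum_le_sum hfac) _).trans ?_)
      rw [Finset.sum_const, nsmul_eq_mul, ENNReal.ofReal_mul (p := (N : ℝ)) (by positivity),
        ENNReal.ofReal_mul (p := (M : ℝ) ^ a) (by positivity), ← ENNReal.ofReal_rpow_of_pos hMpos,
        ENNReal.ofReal_natCast, ENNReal.ofReal_natCast]
      have : (J.card : ℝ≥0∞) ≤ (N : ℝ≥0∞) := by
        exact_mod_cast Finset.card_filter_le _ _
      calc (M : ℝ≥0∞) ^ a * ((J.card : ℝ≥0∞) * (w * ENNReal.ofReal (c₀ ^ (a * d) * 2 ^ X)))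
          ≤ (M : ℝ≥0∞) ^ a * ((N : ℝ≥0∞) * (w * ENNReal.ofReal (c₀ ^ (a * d) * 2 ^ X))) := by
            gcongr
        _ = _ := by ring
    have h9 : (N : ℝ) * ((M : ℝ) ^ a * (c₀ ^ (a * d) * 2 ^ X)) =
        (B₀ * (N : ℝ) ^ (1 + a - 1 / (d : ℝ))) * ∏ j, (2 : ℝ) ^ (-(ε * |(t j : ℝ) - L / d|)) := by
      rw [← Real.rpow_sum_of_pos two_pos, hX, hB₀, Finset.sum_neg_distrib, ← Finset.mul_sum]
      rw [show (a * d - 1 + ε * D) + (a - 1 / d) * L - ε * ∑ j, |(t j : ℝ) - L / d| =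
        (a * d - 1 + ε * D) + L * (a - 1 / d) + -(ε * ∑ j, |(t j : ℝ) - L / d|) by ring]
      rw [Real.rpow_add two_pos, Real.rpow_add two_pos, Real.rpow_mul two_pos.le, h2L]
      rw [show (1 + a - 1 / (d : ℝ)) = 1 + (a - 1 / d) by ring, Real.rpow_add hNpos, Real.rpow_one]
      ring
    have h10 := ENNReal.rpow_le_rpow h8 (show 0 ≤ 1 / q by positivity)
    refine h10.trans (le_of_eq ?_)
    rw [ENNReal.mul_rpow_of_nonneg _ _ (by positivity), h9,
      ENNReal.ofReal_rpow_of_pos (by positivity), Real.mul_rpow (by positivity) (by positivity),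
      ← Real.finsetProd_rpow _ _ (fun j _ => by positivity)]
    congr 3
    refine Finset.prod_congr rfl fun j _ => ?_
    rw [hρ, ← Real.rpow_mul two_pos.le, ← Real.rpow_mul two_pos.le]
    congr 1
    ring
  -- summation over types
  have hmink := lintegral_Lp_sum_le ν TT
    (fun t x => ∑ i ∈ I.filter (fun i => ty k I i = t), (E i).indicator (1 : Ω → ℝ≥0∞) x)
    (fun t _ => Finset.measurable_fun_sum _ fun i _ => measurable_one.indicator (hE i)) hq1
  simp_rw [← hM] at hmink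
  have hfinal : (∫⁻ x, (∑ i ∈ I, (E i).indicator (1 : Ω → ℝ≥0∞) x) ^ q ∂ν) ^ (1 / q) ≤
      w ^ (1 / q) * ENNReal.ofReal ((B₀ * (N : ℝ) ^ (1 + a - 1 / (d : ℝ))) ^ (1 / q) * G ^ d) := by
    refine hmink.trans ((Finset.sum_le_sum htype).trans ?_)
    have hps : ∑ t ∈ Fintype.piFinset (fun _ : Fin d => Finset.range (N + 1)),
        ∏ j, ρ ^ |((t j : ℕ) : ℝ) - L / d| =
        ∏ _j : Fin d, ∑ l ∈ Finset.range (N + 1), ρ ^ |(l : ℝ) - L / d| :=
      (Finset.prod_univ_sum (fun _ : Fin d => Finset.range (N + 1))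
        (fun _ l => ρ ^ |(l : ℝ) - L / d|)).symm
    rw [← Finset.mul_sum, ← ENNReal.ofReal_sum_of_nonneg (fun t _ => by positivity),
      ← Finset.mul_sum, hTT, hps]
    gcongr
    calc ∏ _j : Fin d, ∑ l ∈ Finset.range (N + 1), ρ ^ |(l : ℝ) - L / d|
        ≤ ∏ _j : Fin d, G := by
          apply Finset.prod_le_prod
          · intro j _
            positivity
          · intro j _
            exact geom_two_sided ρ hρ0 hρ1 (L / d) (by positivity) (N + 1)
      _ = G ^ d := by simp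
  have h11 := ENNReal.rpow_le_rpow hfinal hq0.le
  rw [← ENNReal.rpow_mul, one_div_mul_cancel hq0.ne', ENNReal.rpow_one,
    ENNReal.mul_rpow_of_nonneg _ _ hq0.le, ← ENNReal.rpow_mul, one_div_mul_cancel hq0.ne',
    ENNReal.rpow_one] at h11
  refine h11.trans (le_of_eq ?_)
  rw [ENNReal.ofReal_rpow_of_pos (by positivity), Real.mul_rpow (by positivity) (by positivity),
    ← Real.rpow_mul (by positivity), one_div_mul_cancel hq0.ne', Real.rpow_one]
  rw [show B₀ * (N : ℝ) ^ (1 + a - 1 / (d : ℝ)) * (G ^ d) ^ q =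
    (B₀ * (G ^ d) ^ q) * (N : ℝ) ^ (1 + a - 1 / (d : ℝ)) by ring,
    ENNReal.ofReal_mul (by positivity), ← ENNReal.ofReal_rpow_of_pos hNpos,
    ENNReal.ofReal_natCast]
  ring


end Pool.Agent.H32.Tree
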