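import Pool.Agent.H32.Node
open MeasureTheory Filter Set
open scoped Topology ENNReal RealInnerProductSpace
open Pool.Agent.H32.Tree Pool.Agent.H32.Tubes

/-!
# Kakeya maximal inequality for triangular families of tubes

Write the axis of a tube as the graph of `t ↦ a + t v` over the height `t` (the `b_n`-coordinate),
with slope vector `v = (v_1, ..., v_{n-1})` and position vector `a = (a_1, ..., a_{n-1})`. A family
is triangular when, up to `A δ`, the coordinate `a_j` is a function of `v_j, ..., v_{n-1}` only.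
No regularity of this function is assumed, so in every coordinate Besicovitch type compression is
allowed. For such families the conjectured inequality holds in the full range `q > n / (n - 1)`,
without any loss.
-/

namespace Pool.Agent.H32.TriangularFamilies

/-- The `δ`-tube with centre `c` and unit direction `e`: the solid cylinder of length `1` whose
cross-section orthogonal to `e` is a ball of radius `δ`. -/
def tube {d : ℕ} (δ : ℝ) (c e : EuclideanSpace ℝ (Fin (d + 1))) :
    Set (EuclideanSpace ℝ (Fin (d + 1))) :=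
  {x | |⟪x - c, e⟫| ≤ 1 / 2 ∧ ‖(x - c) - ⟪x - c, e⟫ • e‖ ≤ δ}

/-- The conjectured Kakeya maximal inequality in `ℝ^n`, `n = d + 1`, for triangular families. -/
theorem result (d : ℕ) (hd : 1 ≤ d) (q A c₀ η : ℝ) (hq : 1 + 1 / (d : ℝ) < q) (hc₀ : 0 < c₀)
    (hη : 0 < η) :
    ∃ C : ℝ, 0 < C ∧ ∀ (b : OrthonormalBasis (Fin (d + 1)) ℝ (EuclideanSpace ℝ (Fin (d + 1))))
      (δ : ℝ), 0 < δ → δ < 1 → ∀ (ι : Type) [Fintype ι]
      (c e : ι → EuclideanSpace ℝ (Fin (d + 1))), (∀ i, ‖e i‖ = 1) →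
      (∀ i i', i ≠ i' → δ ≤ ‖e i - e i'‖) →
      (∀ i, c₀ ≤ |⟪b (Fin.last d), e i⟫|) →
      (∀ (i i' : ι), i ≠ i' → ∀ (j : Fin d),
        (∀ l, j ≤ l → |⟪b l.castSucc, e i⟫ / ⟪b (Fin.last d), e i⟫ -
          ⟪b l.castSucc, e i'⟫ / ⟪b (Fin.last d), e i'⟫| ≤ η * δ) →
        ∀ x ∈ tube δ (c i) (e i), ∀ x' ∈ tube δ (c i') (e i'),
          ⟪b (Fin.last d), x⟫ = ⟪b (Fin.last d), x'⟫ →
          |⟪b j.castSucc, x⟫ - ⟪b j.castSucc, x'⟫| ≤ A * δ) →
      eLpNorm (fun x => ∑ i, (tube δ (c i) (e i)).indicator (fun _ => (1 : ℝ)) x)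
        (ENNReal.ofReal q) volume ≤
        ENNReal.ofReal (C * δ ^ ((d : ℝ) / q) * (Fintype.card ι : ℝ) ^ (1 - 1 / (q * d))) := by
  classical
  have hd' : (1 : ℝ) ≤ d := by exact_mod_cast hd
  have hdpos : (0 : ℝ) < d := by linarith
  have hd1 : 0 < 1 / (d : ℝ) := by positivity
  have hq1 : 1 < q := by linarith
  have hq0 : 0 < q := by linarith
  obtain ⟨C₀, hC₀, hC⟩ := tree_bound.{0, 0} d (by omega) 2 (by norm_num) (q - 1) (by linarith)
  obtain ⟨M, hMdef⟩ : ∃ M : ℕ, M = max d ⌈1 / η⌉₊ := ⟨_, rfl⟩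
  have hdM : d ≤ M := hMdef ▸ le_max_left _ _
  have hM : 1 ≤ M := hd.trans hdM
  have hMpos : (0 : ℝ) < M := by exact_mod_cast hM
  have hMη : 1 / (M : ℝ) ≤ η := by
    have h1 : 1 / η ≤ M := (Nat.le_ceil _).trans (by exact_mod_cast hMdef ▸ le_max_right _ _)
    rw [div_le_iff₀ hη] at h1
    rw [div_le_iff₀ hMpos]
    linarith
  have hKpos : 0 < Kc M (max A 0) c₀ := by
    unfold Kc
    have : 0 ≤ max A 0 := le_max_right _ _
    positivity
  set n₁ : ℝ := ((2 * ⌈6 / c₀ + 1⌉₊ + 1 : ℕ) : ℝ) with hn₁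
  have hn₁pos : 0 < n₁ := by rw [hn₁]; positivity
  set K : ℝ := n₁ * (2 ^ (d + 1) * Kc M (max A 0) c₀) with hK
  have hKpos' : 0 < K := by positivity
  refine ⟨(C₀ * K) ^ (1 / q), by positivity, ?_⟩
  intro b δ hδ hδ1 ι _ c e he hsep hlast htri
  have hE : ∀ i, tube δ (c i) (e i) = cyl (1 / 2) δ (c i) (e i) := fun i => rfl
  have htri' : Triangular b δ η (max A 0) c e := by
    intro i i' hii j hj x hx x' hx' hxx
    refine (htri i i' hii j hj x hx x' hx' hxx).trans ?_
    gcongr
    exact le_max_left _ _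
  -- fibres of the labels
  have hfib : Fib (fun i => lab b M δ (e i)) (Finset.univ : Finset ι) 2 := by
    intro i _
    have hcard : (Finset.univ.filter (fun i' => lab b M δ (e i') = lab b M δ (e i))).card ≤
        (Finset.univ : Finset Bool).card := by
      apply Finset.card_le_card_of_injOn (fun i' => decide (0 < ⟪b (Fin.last d), e i'⟫))
        (fun _ _ => Finset.mem_coe.mpr (Finset.mem_univ _))
      intro i₁ h1 i₂ h2 h12
      simp only [Finset.coe_filter, Finset.mem_univ, true_and, Set.mem_ofPred_eq] at h1 h2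
      by_contra hne
      have h3 := hsep i₁ i₂ hne
      have h4 : lab b M δ (e i₁) = lab b M δ (e i₂) := h1.trans h2.symm
      have hn1 : ⟪b (Fin.last d), e i₁⟫ ≠ 0 := by
        intro h; have := hlast i₁; rw [h, abs_zero] at this; linarith
      have hn2 : ⟪b (Fin.last d), e i₂⟫ ≠ 0 := by
        intro h; have := hlast i₂; rw [h, abs_zero] at this; linarith
      have hsign : 0 < ⟪b (Fin.last d), e i₁⟫ * ⟪b (Fin.last d), e i₂⟫ := by
        simp only [decide_eq_decide] at h12
        rcases lt_or_gt_of_ne hn1 with h | h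
        · have : ¬ 0 < ⟪b (Fin.last d), e i₂⟫ := fun h' => absurd (h12.mpr h') (not_lt.mpr h.le)
          have h5 : ⟪b (Fin.last d), e i₂⟫ < 0 := lt_of_le_of_ne (not_lt.mp this) hn2
          exact mul_pos_of_neg_of_neg h h5
        · exact mul_pos h (h12.mp h)
      have h6 := norm_sub_lt b hδ hd (e i₁) (e i₂) (he i₁) (he i₂) hsign (fun j => by
        have := slope_sub_lt b hδ hM (congrFun h4 (Fin.rev j))
        rw [Fin.rev_rev] at this
        refine this.trans_le ?_
        have hdM' : (d : ℝ) ≤ M := by exact_mod_cast hdM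
        gcongr)
      linarith
    simpa using hcard
  have hmain := hC ι (EuclideanSpace ℝ (Fin (d + 1))) volume (fun i => lab b M δ (e i))
    Finset.univ hfib (fun i => cyl (1 / 2) δ (c i) (e i)) (fun i => measurableSet_cyl _ _ _ _)
    (ENNReal.ofReal (K * δ ^ d)) (fun i _ j κ => by
      refine (node_volume b hδ hδ1 hM hMη (le_max_right A 0) hc₀ c e he hlast htri'
        Finset.univ i j κ).trans (le_of_eq ?_)
      congr 2
      rw [hK]
      ring)
  have hqq : 1 + (q - 1) = q := by ring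
  rw [hqq] at hmain
  -- conversion to `eLpNorm`
  have hqtop : ENNReal.ofReal q ≠ ⊤ := ENNReal.ofReal_ne_top
  have hqne : ENNReal.ofReal q ≠ 0 := by simpa using hq0
  rw [eLpNorm_eq_lintegral_rpow_enorm_toReal hqne hqtop, ENNReal.toReal_ofReal hq0.le]
  have hpt : ∀ x, ‖∑ i, (tube δ (c i) (e i)).indicator (fun _ => (1 : ℝ)) x‖ₑ =
      ∑ i, (cyl (1 / 2) δ (c i) (e i)).indicator
        (1 : EuclideanSpace ℝ (Fin (d + 1)) → ℝ≥0∞) x := by
    intro x
    rw [Real.enorm_of_nonneg (Finset.sum_nonneg fun i _ =>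
      Set.indicator_nonneg (fun _ _ => zero_le_one) x),
      ENNReal.ofReal_sum_of_nonneg (fun i _ => Set.indicator_nonneg (fun _ _ => zero_le_one) x)]
    refine Finset.sum_congr rfl fun i _ => ?_
    rw [hE]
    by_cases hx : x ∈ cyl (1 / 2) δ (c i) (e i)
    · rw [Set.indicator_of_mem hx, Set.indicator_of_mem hx]; simp
    · rw [Set.indicator_of_notMem hx, Set.indicator_of_notMem hx]; simp
  simp_rw [hpt]
  refine (ENNReal.rpow_le_rpow hmain (by positivity)).trans (le_of_eq ?_)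
  rw [ENNReal.mul_rpow_of_nonneg _ _ (by positivity), ENNReal.mul_rpow_of_nonneg _ _ (by positivity),
    ← ENNReal.rpow_mul, Finset.card_univ, ENNReal.ofReal_rpow_of_nonneg (by positivity)
    (by positivity), ENNReal.ofReal_rpow_of_nonneg (by positivity) (by positivity)]
  have hexp : (q - 1 / (d : ℝ)) * (1 / q) = 1 - 1 / (q * d) := by field_simp
  have hexp0 : 0 < 1 - 1 / (q * d) := by
    rw [← hexp]
    have : 0 < q - 1 / (d : ℝ) := by linarith
    positivity
  rw [hexp, ← ENNReal.ofReal_natCast, ENNReal.ofReal_rpow_of_nonneg (by positivity) hexp0.le,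
    ← ENNReal.ofReal_mul (by positivity), ← ENNReal.ofReal_mul (by positivity)]
  congr 1
  have h7 : ((δ : ℝ) ^ d) ^ (1 / q) = δ ^ ((d : ℝ) / q) := by
    rw [← Real.rpow_natCast, ← Real.rpow_mul hδ.le]
    congr 1
    ring
  have h8 : (C₀ * K) ^ (1 / q) = C₀ ^ (1 / q) * K ^ (1 / q) := Real.mul_rpow hC₀.le hKpos'.le
  have h9 : (K * δ ^ d) ^ (1 / q) = K ^ (1 / q) * ((δ : ℝ) ^ d) ^ (1 / q) :=
    Real.mul_rpow hKpos'.le (by positivity)
  rw [h8, h9, h7]
  ring

end Pool.Agent.H32.TriangularFamilies
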